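import Pool.Agent.Helper18.SU.Defs

/-!
Oriented trees in tournaments: the statements of the packets, each with its complete paper proof.
-/

set_option autoImplicit false

namespace Pool.Agent.Helper18.SU

/-! ### The path theorem -/

/-- REA. Facts about the reachable sets.

PROOF. `Reach A d X x` is a filter of `X` by `Relation.ReflTransGen`.
(1) filter. (2) refl. (3) trans. (4) tail: `y ∈ X` by (1). (5) `x = y`: refl; otherwise
`Tour` gives `Arc A d x y` or `Arc A d y x` (case on `d`), one step. (6) `ReflTransGen.mono`.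
(7) Induction on the chain (head fixed): every reachable `y` satisfies `y = x` or the conclusion.
Step `y → z` with `z ∈ X`: if `z = x` left alternative; if `y = x` take `u = z` (refl in
`X.erase x`); otherwise the old `u` and one more step inside `X.erase x`.
(8) Take `u ∈ U` with `(Reach A d X u).card` maximal (`Finset.exists_max_image`); for `v ∈ U`
by (5) and (3) either `Reach v ⊆ Reach u` or `Reach u ⊆ Reach v`, in the second case the
cardinalities force equality (`Finset.eq_of_subset_of_card_le`). -/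
def REA_stmt : Prop :=
  ∀ (V : Type) [DecidableEq V] (A : V → V → Prop), Tour A → ∀ (d : Bool) (X : Finset V),
    (∀ x, Reach A d X x ⊆ X) ∧
    (∀ x ∈ X, x ∈ Reach A d X x) ∧
    (∀ x ∈ X, ∀ y ∈ X, y ∈ Reach A d X x → Reach A d X y ⊆ Reach A d X x) ∧
    (∀ x ∈ X, ∀ y ∈ Reach A d X x, ∀ z ∈ X, Arc A d y z → z ∈ Reach A d X x) ∧
    (∀ x ∈ X, ∀ y ∈ X, y ∈ Reach A d X x ∨ x ∈ Reach A d X y) ∧
    (∀ x, ∀ X' : Finset V, X' ⊆ X → Reach A d X' x ⊆ Reach A d X x) ∧
    (∀ x ∈ X, ∀ y ∈ Reach A d X x, y ≠ x →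
      ∃ u ∈ X.erase x, Arc A d x u ∧ y ∈ Reach A d (X.erase x) u) ∧
    (∀ U : Finset V, U ⊆ X → U.Nonempty → ∃ u ∈ U, ∀ v ∈ U, Reach A d X v ⊆ Reach A d X u)

/-- The strong form of the path theorem (Havet and Thomasse) for paths with `m + 2` vertices in
tournaments with `m + 3` vertices: if `blk d s + 2` vertices are reachable (direction `d`) from
`x` or `y`, then `x` or `y` is an origin of the path with signs `d :: s`. -/
def SPT (m : ℕ) : Prop :=
  ∀ (V : Type) [DecidableEq V] (A : V → V → Prop), Tour A →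
    ∀ (d : Bool) (s : List Bool) (X : Finset V), s.length = m → X.card = s.length + 3 →
      ∀ x ∈ X, ∀ y ∈ X, x ≠ y → blk d s + 2 ≤ (Reach A d X x ∪ Reach A d X y).card →
        Orig A (d :: s) X x ∨ Orig A (d :: s) X y

/-- SUB (small tool used again and again). Under `SPT k`: if `X` has `k + 3` vertices and
`W ⊆ X` has at least two vertices and some `w ∈ W` reaches at least `blk d s + 2` vertices
(e.g. because `W.card ≥ blk d s + 2`, by REA (8) the best vertex of `W` reaches all of `W`), then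
some vertex of `W` is an origin of `d :: s` in `X`.

PROOF. Second alternative: take `w` and any other `w' ∈ W`, apply `SPT k` to the pair.
First alternative: `w` from REA (8) with `U = W`: `W ⊆ Reach w` as `v ∈ Reach v ⊆ Reach w`. -/
def SUB_stmt : Prop :=
  ∀ k : ℕ, SPT k → ∀ (V : Type) [DecidableEq V] (A : V → V → Prop), Tour A →
    ∀ (d : Bool) (s : List Bool) (X W : Finset V), s.length = k → X.card = s.length + 3 →
      W ⊆ X → 2 ≤ W.card →
      (blk d s + 2 ≤ W.card ∨ ∃ w ∈ W, blk d s + 2 ≤ (Reach A d X w).card) →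
      ∃ w ∈ W, Orig A (d :: s) X w

/-- PTL. The path theorem follows from the strong form: if `SPT k` holds for all `k < m`, then
every set `X` with at least `s.length + 2` vertices contains an origin of the path `s`, for every
`s` with `s.length ≤ m`.

PROOF. `s = []`: any element. `s = d :: s'`, `s'.length = k < m`: choose `X' ⊆ X` with exactly
`s'.length + 3` elements, apply SUB with `W = X'` (`blk d s' ≤ s'.length`, so the first
alternative holds), and use that `Orig` is monotone in the set (induction on the list). -/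
def PTL_stmt : Prop :=
  ∀ m : ℕ, (∀ k < m, SPT k) → ∀ (V : Type) [DecidableEq V] (A : V → V → Prop), Tour A →
    ∀ (s : List Bool) (X : Finset V), s.length ≤ m → s.length + 2 ≤ X.card → ∃ x, Orig A s X x

/-- SPA. Induction step for a first block of length at least two (path `d :: d :: s`, `n` = number
of its vertices `= s.length + 3`, `X.card = n + 1`). You may assume REA, SUB, PTL.

PROOF. Write `N(v) = {u : Arc A d v u}`, `R_Y(v) = Reach A d Y v`, `B = blk d (d :: s) =
blk d s + 1`, `x → y` means `Arc A d x y`. `y ∈ R_X(x)` so `R_X(y) ⊆ R_X(x)` and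
`|R_X(x)| ≥ B + 2`.
Case 1: `x` has at least two out-neighbours in `X`. Put `Y = X.erase x`. By REA (7)
`R_X(x) \ {x}` is covered by the sets `R_Y(u)`, `u ∈ N(x)`, these form a chain (REA (8) in `Y`
with `U = N(x) ∩ Y`), so the largest one `R_Y(z)` has at least `B + 1 = blk d s + 2` elements.
SUB (for the path `d :: s`, length of `s` is `m - 1`, `W = N(x) ∩ Y`) gives an origin of
`d :: s` in `Y` inside `N(x)`, so `x` is an origin of `d :: d :: s` in `X`.
Case 2: `N(x) ∩ X = {y}`. Then every other vertex of `X` dominates `x` (`Arc A d v x`), and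
`R_X(x) ⊆ {x} ∪ R_Y(y)`, so `|R_Y(y)| ≥ B + 1 ≥ 2`, `y` has an out-neighbour in `Y`. Let
`Z = X \ {x, y}` (so `|Z| = n - 1`); the out-neighbours of `y` lie in `Z`. By REA (7),(8) again
the best out-neighbour `z` of `y` satisfies `|R_Z(z)| ≥ B` and (`z → x`, REA (4),(6))
`R_{X \ y}(z) ⊇ R_Z(z) ∪ {x}` has at least `B + 1` elements.
Case 2a: `y` has at least two out-neighbours in `Z`: SUB in `X.erase y` with `W = N(y) ∩ Z` gives
an origin of `d :: s` in `X.erase y` inside `N(y)`: `y` is an origin of `d :: d :: s` in `X`.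
Case 2b: `N(y) ∩ X = {z}`. Show that `z` is an origin of `d :: s` in `X.erase y`.
 - `s = []`: the path `d :: s` has one arc: `z → x`, done.
 - `s = (!d) :: s'`: `z → x` and `x` is dominated by all vertices of `Z' = X \ {x, y, z}`
 (`|Z'| = n - 2 = s'.length + 2`). PTL gives an origin `v` of `s'` in `Z'`, and
 `Arc A (!d) x v`, so `z → x ← v ...` is a path with signs `d :: (!d) :: s'` in `X \ y`
 (use monotonicity of `Orig` in the set: the set required after `z, x` is `X \ {y, z, x}`).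
 - `s = d :: s'`: now `blk d s ≥ 1`, `B ≥ 2`, so `|R_Z(z)| ≥ B ≥ 2` and `z` has an out-neighbour
 in `Z'`; the best one `w` has `|R_{Z'}(w)| ≥ B - 1`; `w → x` so in `X'' = X \ {y, z}` it reaches
 at least `B = blk d s' + 2` vertices (`B = blk d s + 1 = blk d s' + 2`). SUB in `X''`
 (`|X''| = n - 1 = s'.length + 3`) for the path `d :: s'` with `W = {x, w}`: `x` or `w` is an
 origin of `d :: s'` in `X''`, both are out-neighbours of `z`, so `z` is an origin of
 `d :: d :: s'` in `X \ y`. -/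
def SPA_stmt : Prop :=
  ∀ m : ℕ, (∀ k < m, SPT k) →
    ∀ (V : Type) [DecidableEq V] (A : V → V → Prop), Tour A →
      ∀ (d : Bool) (s : List Bool) (X : Finset V), (d :: s).length = m →
        X.card = (d :: s).length + 3 →
        ∀ x ∈ X, ∀ y ∈ X, Arc A d x y →
          blk d (d :: s) + 2 ≤ (Reach A d X x ∪ Reach A d X y).card →
          Orig A (d :: d :: s) X x ∨ Orig A (d :: d :: s) X y

/-- SPB. Induction step for a first block of length one (path `d :: e :: s` with `e = !d`,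
`n = s.length + 3` vertices, `X.card = n + 1`; no condition on reachable sets is needed).
You may assume REA, SUB, PTL.

PROOF. `x → y` means `Arc A d x y`, `N(v)` the out-neighbours of `v` in this sense,
`I_Y(v) = Reach A e Y v` (vertices of `Y` that reach `v` by `→`), `b2 = blk e s + 1`
(length of the second block; `b2 ≤ s.length + 1 = n - 2`). An origin of `e :: s` in `Y` is
guaranteed by SUB in any `W ⊆ Y`, `|Y| = n`, `|W| ≥ 2` if some `w ∈ W` has
`|I_Y(w)| ≥ b2 + 1`.
Case 1: `|N(x) ∩ X| ≥ 2`, `Y = X.erase x`, `U = N(x) ∩ Y`.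
 1a: some `u ∈ U` has `|I_Y(u)| ≥ b2 + 1`: SUB gives an origin of `e :: s` in `Y` inside `U`: `x`
 is an origin.
 1b: otherwise let `A0` be the union of the `I_Y(u)`, `u ∈ U` (it is the largest of them, REA (8)),
 `|A0| ≤ b2 ≤ n - 2`, `U ⊆ A0`, `B0 = Y \ A0`, `|B0| ≥ 2`. No vertex of `B0` dominates a vertex of
 `A0` (REA (4)), so `a → b` for all `a ∈ A0`, `b ∈ B0`; and `b → x` for `b ∈ B0`. `y ∈ U ⊆ A0`. In
 `Y' = X.erase y` (n vertices) let `b` be the vertex of `B0` with `B0 ⊆ I_{Y'}(b)` (REA (8));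
 `I_{Y'}(b)` contains `B0`, `A0 \ y` and `x` (because `x → u → b` for some `u ∈ U`, `u ≠ y`), so it
 is all of `Y'`, `n ≥ b2 + 1`. SUB with `W = B0`: some vertex of `B0` is an origin of `e :: s` in
 `Y'`, and `y → b` for all `b ∈ B0`: `y` is an origin.
Case 2: `N(x) ∩ X = {y}`; `Z = X \ {x, y}`, `|Z| = n - 1`, `z → x` for all `z ∈ Z`,
 `U = N(y) ∩ Z`, `Wy = Z \ U` (these dominate `y`).
 Observation (x-origin): if some `w ∈ Wy` is an origin of `s` in `Z`, then `x → y ← w ...` shows
 that `x` is an origin.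
 Observation (y-origin): an origin of `e :: s` in `X \ y` inside `U` makes `y` an origin.
 2a: `U` empty: PTL for `s` in `Z` (`|Z| = s.length + 2`) and the x-observation.
 2b: `U = {u}`: `Wy = Z \ u` has `n - 2 = s.length + 1` elements. `s = []`: any `w ∈ Wy`,
 x-observation. `s = f :: s'`: `|Wy| = s'.length + 2 ≥ blk f s' + 2`: SUB for `f :: s'` in `Z`
 (`|Z| = s'.length + 3`) with `W = Wy`, first alternative, x-observation.
 2c: `|U| ≥ 2` and some `u ∈ U` has `|I_Z(u)| ≥ b2 + 1` (then also in `X \ y`, REA (6)): SUB in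
 `X \ y` with `W = U`, y-observation.
 2d: `|U| ≥ 2` and `|I_Z(u)| ≤ b2` for all `u ∈ U`. Let `A0` be the largest of these sets (REA (8)),
 so `U ⊆ A0`, `2 ≤ |A0| ≤ b2`, hence `b2 ≥ 2` and `s = e :: s'`. `B0 = Z \ A0 ⊆ Wy`, `a → b` for
 `a ∈ A0`, `b ∈ B0` (REA (4)), `|B0| ≥ n - 1 - b2 ≥ 1`.
 2d1: `|B0| ≥ 2`: some `b ∈ B0` has `B0 ⊆ I_Z(b)` (REA (8)) and `A0 ⊆ I_Z(b)`, so `I_Z(b) = Z`,
 `n - 1 ≥ b2 = blk e s' + 2`: SUB for `e :: s'` in `Z` (`|Z| = s'.length + 3`) with `W = B0`;
 x-observation.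
 2d2: `B0 = {b}`: then `|A0| = n - 2 = s'.length + 2`. PTL: an origin `a` of `s'` in `A0`;
 `a → b`, i.e. `Arc A e b a`, so `b` is an origin of `e :: s'` in `Z`; x-observation. -/
def SPB_stmt : Prop :=
  ∀ m : ℕ, (∀ k < m, SPT k) →
    ∀ (V : Type) [DecidableEq V] (A : V → V → Prop), Tour A →
      ∀ (d : Bool) (s : List Bool) (X : Finset V), ((!d) :: s).length = m →
        X.card = ((!d) :: s).length + 3 →
        ∀ x ∈ X, ∀ y ∈ X, Arc A d x y →
          Orig A (d :: (!d) :: s) X x ∨ Orig A (d :: (!d) :: s) X y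

/-- The strong form of the path theorem. -/
def SPT_stmt : Prop := ∀ m : ℕ, SPT m

/-- PTF. Every tournament with `b + 1` vertices contains every oriented path with `b` vertices.
Prove `PTF_stmt` from `REA_stmt`, `SUB_stmt`, `PTL_stmt`, `SPA_stmt`, `SPB_stmt`.

PROOF. First `SPT_stmt` by strong induction on `m`. `s = []` (`m = 0`, `X.card = 3`): `Arc A d x y`
or `Arc A d y x`, and `[d]` has the origin `x` resp. `y`. `s = e :: s'`: the statement is symmetric
in `x, y` (union, disjunction), so assume `Arc A d x y`; `e = d`: SPA; `e = !d`: SPB.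
Then PTL with `m` large gives an origin of `List.ofFn`/`List.map s (List.range (b-1))` in `X`
(`b ≥ 1`, length `b - 1`, `b - 1 + 2 ≤ X.card`); convert by induction on the number of signs:
`Orig A t X x` implies `∃ g, g 0 = x ∧ (∀ i ≤ t.length, g i ∈ X) ∧ injective there ∧
∀ i < t.length, Arc A (t.getD i true) (g i) (g (i+1))` (the rest of the path lies in `X.erase x`).
`b = 0`: `X` is nonempty, constant function. -/
def PTF_stmt : Prop :=
  ∀ (V : Type) [DecidableEq V] (A : V → V → Prop), Tour A →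
    ∀ (b : ℕ) (s : ℕ → Bool) (X : Finset V), b + 1 ≤ X.card →
      ∃ g : ℕ → V, (∀ i < b, g i ∈ X) ∧ (∀ i < b, ∀ j < b, g i = g j → i = j) ∧
        (∀ i, i + 1 < b → Arc A (s i) (g i) (g (i + 1)))

/-! ### The equilibrium and the rounding -/

/-- EQ. The equilibrium of the two reservation measures.

PROOF. `Pool.Agent.Helper30.Brouwer.brouwer_fd` (Brouwer for compact convex sets in finite
dimensional normed spaces) for `K = {(P, Q) : P, Q ≥ 0, P + Q ≤ 1 pointwise}` in
`(V → ℝ) × (V → ℝ)`. Put `F x = p - (wt A true P x + P x / 2)`,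
`G x = q - (wt A false Q x + Q x / 2)` (continuous in `(P, Q)`), `F⁺ = max F 0` etc. Use the Nash
map, vertex by vertex: the player `x` has the three pure strategies `P`, `Q`, `0` with payoffs
`F x, G x, 0`, mean payoff `a = P x * F x + Q x * G x`, gains `gP = max (F - a) 0`,
`gQ = max (G - a) 0`, `g0 = max (0 - a) 0`, `D = 1 + gP + gQ + g0`,
new `P = (P + gP)/D`, new `Q = (Q + gQ)/D` (and `(1 - P - Q + g0)/D` for the third).
At a fixed point `P * (gP + gQ + g0) = gP`, etc. (three equations). Let `G0 = gP + gQ + g0`. If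
`G0 > 0`: every strategy with positive weight has positive gain, i.e. payoff `> a`, and the mean of
the payoffs would be `> a`, contradiction. So all gains vanish: `F ≤ a`, `G ≤ a`, `0 ≤ a`. As `a`
is the mean, a strategy with positive weight has payoff exactly `a`. Hence: `P x > 0` gives
`F x = a ≥ 0`; `Q x > 0` gives `G x = a ≥ 0`; `P x + Q x < 1` gives `a = 0` and `F x ≤ 0`,
`G x ≤ 0`. (Any other proof, e.g. via the variational inequality, is welcome.) -/
def EQ_stmt : Prop :=
  ∀ (V : Type) [Fintype V] [DecidableEq V] (A : V → V → Prop), Tour A →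
    ∀ p q : ℝ, 0 ≤ p → 0 ≤ q → ∃ P Q : V → ℝ,
      (∀ x, 0 ≤ P x) ∧ (∀ x, 0 ≤ Q x) ∧ (∀ x, P x + Q x ≤ 1) ∧
      (∀ x, 0 < P x → wt A true P x + P x / 2 ≤ p) ∧
      (∀ x, 0 < Q x → wt A false Q x + Q x / 2 ≤ q) ∧
      (∀ x, P x + Q x < 1 → p ≤ wt A true P x + P x / 2 ∧ q ≤ wt A false Q x + Q x / 2)

/-- MASS. The mass of a reservation measure is at most twice the threshold.

PROOF. `S = ∑ P`. `∑_x P x * (wt A d P x + P x / 2) = S^2 / 2`: the left side is
`∑_x ∑_y [Arc A d x y] P x P y + ∑ P x ^2 / 2`; swapping `x, y` and using that exactly one of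
`Arc A d x y`, `Arc A d y x` holds for `x ≠ y` and none for `x = y`, twice the double sum is
`∑_{x ≠ y} P x P y = S^2 - ∑ P x^2`. Termwise `P x * (...) ≤ p * P x`. So `S^2/2 ≤ p S`, hence
`S ≤ 2 p` (`S = 0` or divide by `S > 0`). -/
def MASS_stmt : Prop :=
  ∀ (V : Type) [Fintype V] [DecidableEq V] (A : V → V → Prop), Tour A →
    ∀ (d : Bool) (p : ℝ), 0 ≤ p → ∀ P : V → ℝ, (∀ x, 0 ≤ P x) →
      (∀ x, 0 < P x → wt A d P x + P x / 2 ≤ p) → ∑ x, P x ≤ 2 * p

open Classical in
/-- TAIL. The lower tail of the number of labels `l` in a set `B` (independent labels,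
`w x l` = probability that `x` gets the label `l`).

PROOF. Product weights `W(o) = ∏ x, w x (o x)`, `∑_o W(o) ∏_x f x (o x) = ∏_x ∑_l w x l * f x l`
(`Finset.prod_univ_sum`, `Fintype.piFinset_univ`). `S(o) = card {y ∈ B : o y = l}`,
`u = ∑_{y ∈ B} w y l` the mean. If `r = 0` the sum is `0`. If `L = 0` the total is at most `1`.
Otherwise let `e = 1/2` if `r < 4 L` and `e = √(L/r)` (`≤ 1/2`) if `4 L ≤ r`.
`[S < r] ≤ (1-e)^(S - r)` (as `0 < 1 - e ≤ 1` and `S < r`; write it as
`(1-e)^S ≥ (1-e)^r`), so the sum is at most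
`(1-e)^(-r) ∑_o W(o) (1-e)^S = (1-e)^(-r) ∏_{y ∈ B} (1 - e w y l)
≤ (1-e)^(-r) exp(-e u)`. Here `(1-e)^S = ∏_{y ∈ B} (if o y = l then 1 - e else 1)`.
With `-log(1-e) ≤ e + e^2` for `0 ≤ e ≤ 1/2` (i.e. `exp(-(e+e^2)) ≤ 1 - e`) the bound is
`exp((e + e^2) r - e u) ≤ exp(e^2 r - e (2 √(L r) + 4 L))`.
Case `4L ≤ r`: `e^2 r = L`, `e √(L r) = L`: exponent `≤ L - 2L = -L`. Case `r < 4 L`: exponent
`≤ r/4 - √(L r) - 2 L ≤ L - 2 L = -L`. -/
def TAIL_stmt : Prop :=
  ∀ (V : Type) [Fintype V] [DecidableEq V] (w : V → Fin 3 → ℝ),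
    (∀ x l, 0 ≤ w x l) → (∀ x, ∑ l, w x l = 1) →
    ∀ (B : Finset V) (l : Fin 3) (r : ℕ) (L : ℝ), 0 ≤ L →
      (r : ℝ) + 2 * Real.sqrt (L * r) + 4 * L ≤ ∑ y ∈ B, w y l →
      ∑ o : V → Fin 3, (if (B.filter (fun y => o y = l)).card < r then ∏ x, w x (o x) else 0)
        ≤ Real.exp (-L)

open Classical in
/-- PMQ. The reservation lemma on a whole vertex set. You may assume EQ, MASS, TAIL.

PROOF. `p' = 0` if `p = 0`, else `p' = p + 2 √(L p) + 4 L + 1/2`; so `2 p' = 2 p + err L p`; same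
for `q'`. EQ with `(p', q')` gives `P0, Q0`; `m x = 1 - P0 x - Q0 x`; MASS gives
`∑ P0 ≤ 2 p'`, `∑ Q0 ≤ 2 q'`, so `∑ m ≥ |V| - 2 p' - 2 q'`. Labels `0, 1, 2` with weights
`w x = ![P0 x, Q0 x, m x]`. For an assignment `o` let `P = {o = 0}`, `Q = {o = 1}`,
`F = {x : o x = 2 and (card (P ∩ N⁺ x) < p or card (Q ∩ N⁻ x) < q)}`, `M = {o = 2} \ F`. These
satisfy everything except perhaps the size bound. Expectation over `o` with weights
`W(o) = ∏ w x (o x)` (total `1`): `E card {o = 2} = ∑ m x`, and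
`E card F ≤ ∑_x P(o x = 2 and failure)`. If `m x = 0` the term is `0` (the factor `w x 2 = 0` kills
`W(o)`). If `m x > 0` then `P0 x + Q0 x < 1`, so `wt A true P0 x ≥ p' - P0 x/2 ≥ p' - 1/2` which
is `≥ p + 2 √(L p) + 4 L` if `p > 0`, and TAIL with `B = {y : A x y}`, `l = 0`, `r = p` bounds the
probability that `card (P ∩ N⁺ x) < p` by `exp(-L)` (if `p = 0` this is impossible);
the same for `Q` with `B = {y : A y x}`, `l = 1`. So `E card F ≤ 2 |V| exp(-L) ≤ 1`. Hence
`E (card {o = 2} - card F) ≥ |V| - 2 p' - 2 q' - 1` and some `o` attains at least the mean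
(e.g. by contradiction: if `card M(o) < c` for all `o` then the mean is `< c`, as the weights are
nonnegative with sum `1`). -/
def PMQ_stmt : Prop :=
  ∀ (V : Type) [Fintype V] [DecidableEq V] (A : V → V → Prop), Tour A →
    ∀ (p q : ℕ) (L : ℝ), 0 ≤ L → 2 * (Fintype.card V : ℝ) ≤ Real.exp L →
      ∃ P Q M : Finset V, Disjoint P Q ∧ Disjoint P M ∧ Disjoint Q M ∧
        (∀ x ∈ M, p ≤ (P.filter (fun y => A x y)).card ∧ q ≤ (Q.filter (fun y => A y x)).card) ∧
        (Fintype.card V : ℝ) ≤ M.card + 2 * p + 2 * q + err L p + err L q + 1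

open Classical in
/-- PMQX. The reservation lemma inside a finite set. Assume PMQ.

PROOF. Apply PMQ to the subtype `X` (i.e. `↥X`) with `fun a b => A a b` and map the three sets with
`Function.Embedding.subtype`. -/
def PMQX_stmt : Prop :=
  ∀ (V : Type) [DecidableEq V] (A : V → V → Prop), Tour A →
    ∀ (X : Finset V) (p q : ℕ) (L : ℝ), 0 ≤ L → 2 * (X.card : ℝ) ≤ Real.exp L →
      ∃ P Q M : Finset V, P ⊆ X ∧ Q ⊆ X ∧ M ⊆ X ∧ Disjoint P Q ∧ Disjoint P M ∧ Disjoint Q M ∧
        (∀ x ∈ M, p ≤ (P.filter (fun y => A x y)).card ∧ q ≤ (Q.filter (fun y => A y x)).card) ∧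
        (X.card : ℝ) ≤ M.card + 2 * p + 2 * q + err L p + err L q + 1

/-! ### The tree -/

/-- LEV. The level function of the heavy path decomposition.

PROOF. `desc v = {w : ∃ k, par^[k] w = v}`, `sz v = card (desc v)`, `s = |W| - |K|`.
Facts: (a) `v ∈ desc v`; (b) if `par v = u`, `v ≠ r` then `desc v ⊂ desc u`; for two different
children `v, v'` of `u` (not `r`), `desc v` and `desc v'` are disjoint and do not contain `u`
(depths: `dep (par^[k] w) = dep w - k` as long as this is positive; every `w ∈ desc v`, `v ≠ r`,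
has `par^[dep w - dep v] w = v`); so `sz v + sz v' + 1 ≤ sz u`. (c) if `v ∉ K` then `desc v` is
disjoint from `K` (`K` is closed under `par`), so `sz v ≤ s`.
For every `u` choose a heavy child `h u`: a `v` with `par v = u`, `v ≠ r`, `sz v` maximal (if there
is a child; otherwise `h u = r`, irrelevant). Define `lev` by recursion on the depth:
`lev v = 0` if `v ∈ K`; for `v ∉ K` (so `v ≠ r`): `lev v = 1` if `par v ∈ K`;
`lev v = lev (par v)` if `v = h (par v)`, `lev v = lev (par v) + 1` otherwise. (E.g.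
`lev v = L (dep v) v` with `L : ℕ → W → ℕ` by recursion on the first argument.)
LevOK: the first two items are immediate; for the third `lev v = lev (par v)` with `v ∉ K` forces
`par v ∉ K` and `v = h (par v)`. Bound: by induction on the depth
`2^(lev v - 1) * sz v ≤ s` for `v ∉ K`: `par v ∈ K`: (c). `v` heavy: `sz v ≤ sz (par v)`. `v` light:
`2 sz v ≤ sz v + sz (h (par v)) ≤ sz (par v)` by (b) and the choice of `h`, and
`lev v - 1 = (lev (par v) - 1) + 1`. Finally `1 ≤ sz v`. -/
def LEV_stmt : Prop :=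
  ∀ (W : Type) [Fintype W] [DecidableEq W] (r : W) (par : W → W) (dep : W → ℕ),
    Rooted r par dep → ∀ K : Finset W, r ∈ K → (∀ v ∈ K, par v ∈ K) →
      ∃ lev : W → ℕ, LevOK par K lev ∧ ∀ v, v ∉ K → 2 ^ (lev v - 1) ≤ Fintype.card W - K.card

/-- COL. The colouring.

PROOF. Recursion on the depth (`v ∉ K` implies `v ≠ r`, so `dep (par v) < dep v`):
`col v = col (par v)` if `v ∉ K` and `lev v = lev (par v)`, else `col v = sgn v`. -/
def COL_stmt : Prop :=
  ∀ (W : Type) [Fintype W] [DecidableEq W] (r : W) (par : W → W) (dep : W → ℕ),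
    Rooted r par dep → ∀ K : Finset W, r ∈ K → (∀ v ∈ K, par v ∈ K) →
      ∀ (lev : W → ℕ) (sgn : W → Bool), ∃ col : W → Bool, ColOK par K lev sgn col

/-- CHA. A maximal chain below a vertex `t ∉ K`, of constant level.

PROOF. Call `(b, c)` good if `1 ≤ b`, `c 0 = t`, `par (c (i+1)) = c i` for `i + 1 < b` and
`lev (c i) = lev t`, `c i ∉ K` for `i < b`. `(1, const t)` is good. For a good pair
`dep (c i) = dep t + i` (`c (i+1) ≠ r` as it is not in `K`), so `c` is injective below `b` and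
`b ≤ card W`. Take a good pair with `b` maximal. Last item: `i + 1 < b`: `v` and `c (i+1)` are both
outside `K`, with the same parent `c i`, and `lev v = lev t = lev (c i) = lev (par v)`, so
`v = c (i+1)` by the third part of `LevOK`. `i = b - 1`: appending `v` would give a longer good
pair. -/
def CHA_stmt : Prop :=
  ∀ (W : Type) [Fintype W] [DecidableEq W] (r : W) (par : W → W) (dep : W → ℕ),
    Rooted r par dep → ∀ K : Finset W, r ∈ K → (∀ v ∈ K, par v ∈ K) →
      ∀ lev : W → ℕ, LevOK par K lev → ∀ t : W, t ∉ K →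
        ∃ (b : ℕ) (c : ℕ → W), 1 ≤ b ∧ c 0 = t ∧
          (∀ i, i + 1 < b → par (c (i + 1)) = c i) ∧
          (∀ i < b, lev (c i) = lev t ∧ c i ∉ K) ∧
          (∀ i < b, ∀ j < b, c i = c j → i = j) ∧
          (∀ i < b, ∀ v, v ∉ K → par v = c i → lev v = lev t → ∃ j < b, v = c j)

/-- ONE. Adding one chain. Assume PTF.

PROOF. PTF for `Y` with signs `s i = sgn (c (i + 1))` gives `g : ℕ → V`. Put
`f' v = g i` if `v = c i` with `i < b` (such `i` is unique), `f' v = f v` otherwise. Membership and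
injectivity: `f` maps `S` injectively outside `Y`, `g` is injective into `Y`. Arcs: for `v ∈ S` the
parent is in `S`; `par (c 0) ∈ S` and `f' (c 0) ∈ Y`; `par (c (i+1)) = c i`. -/
def ONE_stmt : Prop :=
  ∀ (W V : Type) [DecidableEq W] [DecidableEq V] (A : V → V → Prop), Tour A →
    ∀ (r : W) (par : W → W) (sgn : W → Bool) (S : Finset W) (X Y : Finset V) (f : W → V),
      Emb A r par sgn S X f → (∀ v ∈ S, par v ∈ S) →
      ∀ (b : ℕ) (c : ℕ → W), 1 ≤ b → (∀ i < b, c i ∉ S) → par (c 0) ∈ S →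
        (∀ i, i + 1 < b → par (c (i + 1)) = c i) →
        (∀ i < b, ∀ j < b, c i = c j → i = j) →
        b + 1 ≤ Y.card → (∀ v ∈ S, f v ∉ Y) →
        (∀ y ∈ Y, Arc A (sgn (c 0)) (f (par (c 0))) y) →
        ∃ f' : W → V, (∀ v ∈ S, f' v = f v) ∧ (∀ i < b, f' (c i) ∈ Y) ∧
          Emb A r par sgn (S ∪ (Finset.range b).image c) (X ∪ Y) f'

open Classical in
/-- LST. Adding one level. Assume CHA and ONE.

PROOF. `U = upTo lev j`, `U' = upTo lev (j+1)`. Call a pair `(S, f')` good if `U ⊆ S ⊆ U'`, `S` is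
closed under `par`, `S` is chain closed (`v ∈ S`, `lev v = j + 1`, `u ∉ K`, `par u = v`,
`lev u = j + 1` imply `u ∈ S`), `f' = f` on `U`, `f' v ∈ P (col v)` for `v ∈ S \ U`, and
`Emb A r par sgn S (M ∪ P true ∪ P false) f'`. `(U, f)` is good (`U` is closed under `par` by
LevOK; chain closed vacuously). Take a good pair with `S.card` maximal; claim `S = U'`. Otherwise
let `t ∈ U' \ S` with `dep t` minimal; `lev t = j + 1`, `t ∉ K`, `t ≠ r`. `par t ∈ S`: `par t ∈ U'`
by LevOK (`lev (par t) ≤ lev t`) and it has smaller depth. `lev (par t) ≠ j + 1` by chain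
closedness, so `par t ∈ U`, and `col t = sgn t =: d`. Chain `(b, c)` from CHA with `c 0 = t`: all
`c i ∉ S` (otherwise closedness under `par` gives `t ∈ S`), all of level `j + 1` and colour `d`
(ColOK along the chain). `x = f' (par t) = f (par t) ∈ M`, so
`Y0 = {y ∈ P d : Arc A d x y}` has at least `need (cnt lev col (j+1) d) = cnt + 1` elements
(`cnt ≥ b ≥ 1`). Let `Y = Y0 \ f'(S)`. Elements of `Y0 ⊆ P d` in `f'(S)` are images of
vertices of `S \ U` of colour `d` (images of `U` are in `M`, disjoint from `P d`; images of colour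
`!d` are in `P (!d)`, disjoint), there are at most `cnt - b` of these, so `Y.card ≥ b + 1`. ONE
(with `X = M ∪ P true ∪ P false`, `X ∪ Y = X`) gives `f''` on `S ∪ {c i}`, and this pair is good
again (chain closed by the last item of CHA and because no vertex outside `S ∪ {c i}` can enter:
for `v ∈ S` use the old property), contradiction to maximality. -/
def LST_stmt : Prop :=
  ∀ (W V : Type) [Fintype W] [DecidableEq W] [DecidableEq V] (A : V → V → Prop), Tour A →
    ∀ (r : W) (par : W → W) (dep : W → ℕ), Rooted r par dep →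
      ∀ K : Finset W, r ∈ K → (∀ v ∈ K, par v ∈ K) →
      ∀ (lev : W → ℕ) (sgn col : W → Bool), LevOK par K lev → ColOK par K lev sgn col →
      ∀ (j : ℕ) (P : Bool → Finset V) (M : Finset V) (f : W → V),
        Disjoint (P true) (P false) → (∀ d, Disjoint (P d) M) →
        Emb A r par sgn (upTo lev j) M f →
        (∀ x ∈ M, ∀ d, need (cnt lev col (j + 1) d) ≤ ((P d).filter (fun y => Arc A d x y)).card) →
        ∃ f' : W → V, Emb A r par sgn (upTo lev (j + 1)) (M ∪ P true ∪ P false) f'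

/-- EMB. All levels. Assume PMQX and LST.

PROOF. Induction on `j`. `j = 0`: `upTo lev 0 = K` by LevOK. Step: apply PMQX to `X` with
`p = need (cnt lev col (j+1) true)`, `q = need (cnt lev col (j+1) false)`: the size inequality says
exactly `|X| ≤ |M| + cost L (cnt .. true) (cnt .. false)`, so `|M|` is large enough for the
induction hypothesis (`2 |M| ≤ 2 |X| ≤ exp L`), which gives `f` on `upTo lev j` into `M`; LST
with `P true = P`, `P false = Q` (`Arc A true x y = A x y`, `Arc A false x y = A y x`), and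
`M ∪ P ∪ Q ⊆ X` (Emb is monotone in the target set). -/
def EMB_stmt : Prop :=
  ∀ (W V : Type) [Fintype W] [DecidableEq W] [DecidableEq V] (A : V → V → Prop), Tour A →
    ∀ (r : W) (par : W → W) (dep : W → ℕ), Rooted r par dep →
      ∀ K : Finset W, r ∈ K → (∀ v ∈ K, par v ∈ K) →
      ∀ (lev : W → ℕ) (sgn col : W → Bool), LevOK par K lev → ColOK par K lev sgn col →
      ∀ F : ℕ, (∀ X : Finset V, F ≤ X.card → ∃ f : W → V, Emb A r par sgn K X f) →
      ∀ L : ℝ, 0 ≤ L → ∀ (j : ℕ) (X : Finset V), 2 * (X.card : ℝ) ≤ Real.exp L →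
        (F : ℝ) + ∑ i ∈ Finset.range j, cost L (cnt lev col (i + 1) true)
          (cnt lev col (i + 1) false) ≤ X.card →
        ∃ f : W → V, Emb A r par sgn (upTo lev j) X f

/-- SUM. The sum of the costs.

PROOF. For `p ≥ 1`: `2 (p+1) + 4 √(L (p+1)) + 8 L + 1 ≤ 2 p + 13 L + 4 √(L p)` because
`√(p+1) ≤ √p + 1/2` and `2 √L ≤ 2 L`, `3 ≤ 3 L`. For `p = 0` the contribution is `0`. So
`cost L p q ≤ 2 (p + q) + 27 L + 4 √L (√p + √q)`, and by Cauchy and Schwarz
`∑ (√(p i) + √(q i)) ≤ √(2 R) √(∑ (p i + q i)) ≤ √(2 R s)`. -/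
def SUM_stmt : Prop :=
  ∀ (R : ℕ) (p q : ℕ → ℕ) (s : ℕ) (L : ℝ), 1 ≤ L → ∑ i ∈ Finset.range R, (p i + q i) ≤ s →
    ∑ i ∈ Finset.range R, cost L (p i) (q i) ≤
      2 * (s : ℝ) + 27 * L * R + 4 * Real.sqrt (2 * L * R * s)

/-- TRA. The transfer theorem for rooted data. Assume LEV, COL, EMB, SUM.

PROOF. `lev` from LEV, `col` from COL. For `v ∉ K`: `2^(lev v - 1) ≤ s < 2^R`, so `lev v ≤ R`, and
`upTo lev R = univ`. The classes of level `i + 1`, `i < R`, are pairwise disjoint and contained in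
the complement of `K`, so `∑_{i<R} (cnt (i+1) true + cnt (i+1) false) ≤ s`; SUM and EMB. -/
def TRA_stmt : Prop :=
  ∀ (W V : Type) [Fintype W] [DecidableEq W] [DecidableEq V] (A : V → V → Prop), Tour A →
    ∀ (r : W) (par : W → W) (dep : W → ℕ), Rooted r par dep →
      ∀ K : Finset W, r ∈ K → (∀ v ∈ K, par v ∈ K) → ∀ sgn : W → Bool,
      ∀ F : ℕ, (∀ X : Finset V, F ≤ X.card → ∃ f : W → V, Emb A r par sgn K X f) →
      ∀ (s R : ℕ) (L : ℝ), 1 ≤ L → s + K.card = Fintype.card W → s < 2 ^ R →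
        ∀ X : Finset V, 2 * (X.card : ℝ) ≤ Real.exp L →
        (F : ℝ) + 2 * s + 27 * L * R + 4 * Real.sqrt (2 * L * R * s) ≤ X.card →
        ∃ f : W → V, Emb A r par sgn Finset.univ X f

/-- ROOT. Rooting a tree.

PROOF. For every `v` let `p v` be the unique path from `v` to `r`; `dep v` its length;
`par v = (p v).snd` (`= r` if `v = r`). For `v ≠ r` the tail of `p v` is the path of `par v`, so
`dep (par v) + 1 = dep v`. Adjacency: `v ≠ r` gives `G.Adj v (par v)`; conversely if `G.Adj u v`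
then either `v` is on `p u` (then the edge `u v` followed by the rest of `p u` is a path, by
uniqueness `v` is the second vertex of `p u`, `par u = v`, `u ≠ r`) or it is not, and then
`cons v u (p u)` is a path, so it is `p v` and `par v = u`, `v ≠ r`. `K`: for `v ∈ K`, `v ≠ r`, a
path from `v` to `r` in the induced graph maps to a path of `G`, which is `p v`, so its second
vertex `par v` is in `K`; `par r = r`. Paths from `r`: for a path `w` from `r` to `b` and
`i < w.length` the reverse of `w.take (i+1)` is the path of `w.getVert (i+1)`, and its second vertex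
is `w.getVert i`; `w.getVert (i+1) ≠ r` by injectivity. (Or: `dep (w.getVert i) = i` and the
adjacency characterisation.) -/
def ROOT_stmt : Prop :=
  ∀ (W : Type) [Fintype W] [DecidableEq W] (G : SimpleGraph W), G.IsTree → ∀ r : W,
    ∃ (par : W → W) (dep : W → ℕ), Rooted r par dep ∧
      (∀ u v, G.Adj u v ↔ (u ≠ r ∧ par u = v) ∨ (v ≠ r ∧ par v = u)) ∧
      (∀ K : Finset W, r ∈ K → (G.induce (K : Set W)).Preconnected → ∀ v ∈ K, par v ∈ K) ∧
      (∀ (b : W) (w : G.Walk r b), w.IsPath → ∀ i, i < w.length →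
        w.getVert (i + 1) ≠ r ∧ par (w.getVert (i + 1)) = w.getVert i)

/-! ### The final theorems -/

/-- The error term. -/
noncomputable def erf (n s : ℕ) : ℝ :=
  8 * Real.sqrt s * (Real.log n + 3) + 54 * Real.log n * (Real.log n + 6)

/-- NUM. The numbers.

PROOF. `R = Nat.size s` if `s ≥ 1` (then `s < 2^R` and `R ≤ 2 log n`: `2^(R-1) ≤ s ≤ n - 1`; `R = 1`:
`2 log 2 ≥ 1`; `R = 2`: `n ≥ 3`, `2 log 3 ≥ 2`; `R = 3`: `n ≥ 5`, `2 log 5 ≥ 3`; `R ≥ 4`:
`2 log n ≥ 2 (R-1) log 2 ≥ 1.386 (R-1) ≥ R`), `R = 0` if `s = 0`. `L = log n + 6`.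
First part: `27 L R ≤ 54 log n (log n + 6)` and `4 √(2 L R s) ≤ 8 √s √(log n (log n + 6)) ≤
8 √s (log n + 3)`. Second part: `2 (F + 2 s + erf n s + 1) ≤ e^6 n`: with `log n ≤ 2 √n / e`,
`log n ≤ n / e`, (`log t ≤ t / e`, applied to `√n` and `n`) `√s ≤ √n ≤ n/√2`:
`54 log² n ≤ 54 * 4 n / e² ≤ 29.3 n`, `324 log n ≤ 119.3 n`, `8 √s log n ≤ 16 n / e ≤ 5.9 n`,
`24 √s ≤ 17 n`, `F + 2 s ≤ 5 n`, `1 ≤ n / 2`, sum `≤ 177 n`, and `e^6 ≥ 400`. -/
def NUM_stmt : Prop :=
  ∀ n s F : ℕ, 2 ≤ n → s < n → F ≤ 3 * n → ∃ (R : ℕ) (L : ℝ), 1 ≤ L ∧ s < 2 ^ R ∧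
    (F : ℝ) + 2 * s + 27 * L * R + 4 * Real.sqrt (2 * L * R * s) ≤ F + 2 * s + erf n s ∧
    2 * ((F : ℝ) + 2 * s + erf n s + 1) ≤ Real.exp L

/-- FTR. The transfer theorem, final form. Assume TRA, ROOT, NUM.

PROOF. `n ≤ 1`: `D` has no arcs (`D.Adj a a` is impossible) and `Fin N` is nonempty
(`N ≥ F ≥ 1`: `K` nonempty excludes `F = 0`; `erf ≥ 0` for `n ≥ 1`; `n = 0` is impossible since
`K` is nonempty). `n ≥ 2`: pick `r ∈ K`, ROOT for `G = SimpleGraph.fromRel D.Adj` gives
`par, dep`, closedness of `K`. `sgn v = true` iff `D.Adj (par v) v`. For `u → v` in `D`: adjacent in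
`G`, so `par v = u`, `v ≠ r` (then `sgn v = true`) or `par u = v`, `u ≠ r` (then
`sgn u = false` as `D.Adj u (par u)` excludes `D.Adj (par u) u`), so an embedding in the sense of
`Emb` preserves all arcs. Core hypothesis of TRA: for `X : Finset (Fin N)` with `F ≤ X.card` take
`X' ⊆ X` with `F` elements, an equivalence `e : Fin F ≃ X'`, the tournament `T.comap` on `Fin F`
(`Adj i j = T.Adj (e i) (e j)`), and the `f` of the hypothesis. Then `Emb` for `K`: for `v ∈ K`,
`v ≠ r`, `par v ∈ K`: `G.Adj`, so `D.Adj (par v) v` or `D.Adj v (par v)`.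
Now with `R, L` from NUM (`s = n - K.card < n`) choose `X ⊆ univ` with
`X.card = ⌈F + 2 s + erf n s⌉₊ ≤ N` elements; then `2 X.card ≤ 2 (F + 2 s + erf + 1) ≤ exp L`. -/
def FTR_stmt : Prop :=
  ∀ (n : ℕ) (D : Digraph (Fin n)), (∀ a b, D.Adj a b → ¬ D.Adj b a) →
    (SimpleGraph.fromRel D.Adj).IsTree →
    ∀ K : Finset (Fin n), K.Nonempty →
    ((SimpleGraph.fromRel D.Adj).induce (K : Set (Fin n))).Preconnected →
    ∀ F : ℕ, F ≤ 3 * n →
    (∀ T : Digraph (Fin F), (∀ u v, T.Adj u v → ¬ T.Adj v u) →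
      (∀ u v, u ≠ v → T.Adj u v ∨ T.Adj v u) →
      ∃ f : Fin n → Fin F, (∀ a ∈ K, ∀ b ∈ K, f a = f b → a = b) ∧
        ∀ a ∈ K, ∀ b ∈ K, D.Adj a b → T.Adj (f a) (f b)) →
    ∀ N : ℕ, (F : ℝ) + 2 * (n - K.card : ℕ) + erf n (n - K.card) ≤ N →
    ∀ T : Digraph (Fin N), (∀ u v, T.Adj u v → ¬ T.Adj v u) →
      (∀ u v, u ≠ v → T.Adj u v ∨ T.Adj v u) →
      ∃ f : Fin n → Fin N, Function.Injective f ∧ ∀ a b, D.Adj a b → T.Adj (f a) (f b)

/-- FPA. The version with a path. Assume FTR, ROOT, PTF.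

PROOF. `K = w.support.toFinset`, `K.card = w.length + 1`, connected
(e.g. `w.toSubgraph`/`Walk.connected_induce_support`), `F = w.length + 2 ≤ n + 1 ≤ 3 n`. For a
tournament `T` on `Fin F` PTF (`b = w.length + 1`, signs `s i = decide (D.Adj (w.getVert i)
(w.getVert (i+1)))`) gives `g`; `f (w.getVert i) = g i`. Every arc of `D` inside `K` joins
consecutive vertices of `w` (ROOT at the starting vertex `a` of `w`: `par (w.getVert (i+1)) =
w.getVert i`, adjacent vertices are parent and child). `n - K.card + ...`: the inequality of FTR is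
the given one, with `n - K.card = n - (w.length + 1)` and
`F + 2 (n - K.card) = 2 n - (w.length + 1) + 1`. -/
def FPA_stmt : Prop :=
  ∀ (n : ℕ) (D : Digraph (Fin n)), (∀ a b, D.Adj a b → ¬ D.Adj b a) →
    (SimpleGraph.fromRel D.Adj).IsTree →
    ∀ (a b : Fin n) (w : (SimpleGraph.fromRel D.Adj).Walk a b), w.IsPath →
    ∀ N : ℕ, 2 * (n : ℝ) - (w.length + 1) + 1 + erf n (n - (w.length + 1)) ≤ N →
    ∀ T : Digraph (Fin N), (∀ u v, T.Adj u v → ¬ T.Adj v u) →
      (∀ u v, u ≠ v → T.Adj u v ∨ T.Adj v u) →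
      ∃ f : Fin n → Fin N, Function.Injective f ∧ ∀ a b, D.Adj a b → T.Adj (f a) (f b)

end Pool.Agent.Helper18.SU
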