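import Pool.Agent.Helper18.SU.Goals3

/-!
Oriented trees in tournaments, part 2: placing items.
-/

set_option autoImplicit false

namespace Pool.Agent.Helper18.SU

theorem CAN (h1 : SUBT_stmt) : CAN_stmt := by
  classical
  intro W V _ _ _ A hA r par dep hR sgn S c X hX
  obtain ⟨f, hf1, hf2, hf3⟩ := h1 W V A hA r par dep hR sgn (dsi par S c) X hX
  refine ⟨(dsi par S c).image f, ?_, ?_, f, ?_, hf2, hf3⟩
  · intro x hx
    obtain ⟨w, hw, rfl⟩ := Finset.mem_image.1 hx
    exact hf1 w hw
  · rw [Finset.card_image_of_injOn]
    · rfl
    · intro u hu v hv huv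
      exact hf2 u hu v hv huv
  · intro v hv
    exact Finset.mem_image_of_mem _ hv

theorem GRE : GRE_stmt := by
  classical
  intro ι V _ _ b good hcan O I β hβ hO
  have key : ∀ J : Finset ι, J ⊆ I → ∃ U, Plc b good O J U := by
    intro J
    induction J using Finset.induction_on with
    | empty =>
      intro _
      refine ⟨fun _ => ∅, ?_, ?_⟩
      · intro c hc; exact absurd hc (Finset.notMem_empty _)
      · intro c hc; exact absurd hc (Finset.notMem_empty _)
    | insert c J hc ih =>
      intro hJ
      have hcI : c ∈ I := hJ (Finset.mem_insert_self _ _)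
      have hJI : J ⊆ I := (Finset.subset_insert _ _).trans hJ
      obtain ⟨U, hU1, hU2⟩ := ih hJI
      have hF : (J.biUnion U).card ≤ ∑ i ∈ J, b i := by
        refine Finset.card_biUnion_le.trans (Finset.sum_le_sum fun i hi => ?_)
        rw [(hU1 i hi).2.1]
      have hs : ∑ i ∈ J, b i + b c ≤ ∑ i ∈ I, b i := by
        have h3 := Finset.sum_le_sum_of_subset (f := b) hJ
        rw [Finset.sum_insert hc] at h3
        omega
      have h4 := hO c hcI
      have h5 := hβ c hcI
      have h6 := Finset.le_card_sdiff (J.biUnion U) (O c)
      obtain ⟨U', hU', hU'c, hU'g⟩ := hcan c (O c \ J.biUnion U) (by omega)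
      have hdis : ∀ i ∈ J, Disjoint U' (U i) := by
        intro i hi
        rw [Finset.disjoint_left]
        intro x hx hx'
        exact (Finset.mem_sdiff.1 (hU' hx)).2 (Finset.mem_biUnion.2 ⟨i, hi, hx'⟩)
      have hupd : ∀ i ∈ J, Function.update U c U' i = U i := by
        intro i hi
        rw [Function.update_of_ne]
        rintro rfl
        exact hc hi
      refine ⟨Function.update U c U', ?_, ?_⟩
      · intro i hi
        rcases Finset.mem_insert.1 hi with h | h
        · rw [h, Function.update_self]
          exact ⟨hU'.trans Finset.sdiff_subset, hU'c, hU'g⟩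
        · rw [hupd i h]
          exact hU1 i h
      · intro i hi j hj hij
        rcases Finset.mem_insert.1 hi with h | h <;> rcases Finset.mem_insert.1 hj with h' | h'
        · exact absurd (h.trans h'.symm) hij
        · rw [h, Function.update_self, hupd j h']
          exact hdis j h'
        · rw [h', Function.update_self, hupd i h]
          exact (hdis i h).symm
        · rw [hupd i h, hupd j h']
          exact hU2 i h j h' hij
  exact key I (Finset.Subset.refl _)

end Pool.Agent.Helper18.SU
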