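import Pool.Agent.Helper18.SU.Goals3
import Pool.Agent.Helper2.SU.CII2

/-!
Oriented trees in tournaments, part 2: the concentrated case with sharper constants (adapted
from the file by helper2).
-/

set_option autoImplicit false

namespace Pool.Agent.Helper18.SU

open Pool.Agent.Helper2.SU (pick bsz_univ card_sdiff_ge plc_mono)

theorem CIB3 (h1 : SUBT_stmt) (h2 : CAN_stmt) (h3 : GRE_stmt) (_h4 : DSC_stmt) (h5 : DEG_stmt)
    (h6 : GLU_stmt) (h7 : ASZ_stmt) (h8 : TYP_stmt) (h9 : IND3_stmt) (h10 : GZ3_stmt)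
    (h11 : TOPK_stmt) (h12 : EXK_stmt) (_h13 : WGT_stmt) : CIB3_stmt := by
  intro W V _ _ _ _ A r par dep sgn K u m g e hC2 v hv hwv h2v
  obtain ⟨hctx, hmβ, hC0, hpβ, halt, hg1, hg2, hg3, hmid⟩ := hC2
  have hCe : C0 = 10000000 := rfl
  obtain ⟨β, hβu⟩ : ∃ β, β = 100 * u := ⟨_, rfl⟩
  rw [← hβu] at hctx
  obtain ⟨hT, hR, hrK, hK, hβ, hKm, hVW⟩ := hctx
  have hC1 : 1 ≤ C0 := by unfold C0; norm_num
  have hu1 : 1 ≤ u := by omega
  set p := mas par sgn K true with hp
  obtain ⟨hA1, hA2, hA3⟩ := h7 W V A r par dep sgn K β m (701 * u) (1501 * u)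
    ⟨hT, hR, hrK, hK, hβ, hKm, hVW⟩ (by omega) hmid
  rw [← hp] at hA1 hA2 hA3
  set X := low A true (p + 701 * u) with hX
  -- typical vertices
  have hA1' : 2 * p ≤ X.card + 2903 * u := by omega
  have htyp := h8 V A hT X p (701 * u) (2903 * u) (6200 * u) (fun x hx => (hA3 x hx).1.le) hA1'
  set Ty := typ A X p (6200 * u) with hTy
  have hTyX : Ty ⊆ X := by
    rw [hTy]
    unfold typ
    exact Finset.filter_subset _ _
  have hk : 13802 * (X \ Ty).card ≤ 4306 * X.card := by
    apply Nat.le_of_mul_le_mul_right (c := u) _ hu1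
    calc 13802 * (X \ Ty).card * u = 2 * (X \ Ty).card * (6200 * u + 701 * u) := by ring
      _ ≤ X.card * (2 * (701 * u) + 2903 * u + 1) := htyp
      _ ≤ X.card * (4306 * u) := by
          apply Nat.mul_le_mul_left
          omega
      _ = 4306 * X.card * u := by ring
  have hTyc : (X \ Ty).card + Ty.card = X.card := Finset.card_sdiff_add_card_eq_card hTyX
  have hTyp : p ≤ Ty.card := by omega
  -- the core
  obtain ⟨f₀, hf₀⟩ := h1 W V A hT r par dep hR sgn K Ty (by omega)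
  have hf₀u : Emb A r par sgn K Finset.univ f₀ :=
    ⟨fun w _ => Finset.mem_univ _, hf₀.2.1, hf₀.2.2⟩
  have htyx : ∀ x ∈ Ty, p ≤ (nb A true X x).card + 6200 * u := by
    intro x hx
    rw [hTy] at hx
    unfold typ at hx
    exact (Finset.mem_filter.1 hx).2
  set y := f₀ v with hy
  have hyT : y ∈ Ty := hf₀.1 v hv
  have hyX : y ∈ X := hTyX hyT
  set P := nb A true X y with hP
  set Q := nb A false X y with hQ
  have hnbX : ∀ (d : Bool) (Y : Finset V) (x : V), nb A d Y x ⊆ Y := by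
    intro d Y x z hz
    simp only [nb, Finset.mem_filter] at hz
    exact hz.1
  have hPX : P ⊆ X := hnbX _ _ _
  have hQX : Q ⊆ X := hnbX _ _ _
  obtain ⟨-, -, -, -, -, hD6, hD7, -⟩ := h5 V A hT
  have hPQ : Disjoint P Q := hD7 X y
  have hPc : p ≤ P.card + 6200 * u := htyx y hyT
  have hPc' : p ≤ (nb A true X y).card + 6200 * u := htyx y hyT
  -- the components of sign `false`
  obtain ⟨U₀, hU₀, hU₀c⟩ := h9 W V A r par dep sgn K β m (701 * u) (2903 * u) (6200 * u) (e)
    ⟨hT, hR, hrK, hK, hβ, hKm, hVW⟩ hA1' hA2 (by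
      rcases halt with ⟨q1, q2⟩ | ⟨q1, q2, q3⟩
      · left; omega
      · right; exact ⟨by omega, by omega⟩) f₀ hf₀
  rw [← hX] at hU₀c
  set B₀ := (topd par sgn K false).biUnion U₀ with hB₀
  set F₁ := K.image f₀ ∪ B₀ with hF₁
  have hF₁c : (F₁ ∩ X).card ≤ m + e := by
    have e1 : F₁ ∩ X ⊆ K.image f₀ ∪ (B₀ ∩ X) := by
      intro x hx
      rw [hF₁, Finset.mem_inter, Finset.mem_union] at hx
      rw [Finset.mem_union, Finset.mem_inter]
      tauto
    have e2 := (Finset.card_le_card e1).trans (Finset.card_union_le _ _)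
    have e3 : (K.image f₀).card ≤ K.card := Finset.card_image_le
    omega
  have hcan := h2 W V A hT r par dep hR sgn Finset.univ
  have hbβ : ∀ c ∈ tops par K, bsz par Finset.univ c ≤ β := by
    intro c hc
    rw [bsz_univ]
    exact hβ c hc
  have htopd : ∀ d, topd par sgn K d ⊆ tops par K := by
    intro d
    unfold topd
    exact Finset.filter_subset _ _
  have hparK : ∀ c ∈ tops par K, par c ∈ K := by
    intro c hc
    simp only [tops, Finset.mem_filter] at hc
    exact hc.2.2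
  -- step 1
  set I₁ := (topd par sgn K true).filter (fun c => par c ≠ v) with hI₁
  set I₂ := (topd par sgn K true).filter (fun c => par c = v) with hI₂
  have hI₂v : topv par sgn K {v} = I₂ := by
    ext c
    rw [hI₂]
    unfold topv
    simp
  have hmass : ∑ c ∈ I₂, (dsc par c).card + ∑ c ∈ I₁, (dsc par c).card = p := by
    rw [hI₁, hI₂, hp]
    exact Finset.sum_filter_add_sum_filter_not _ _ _
  have hwI : wgt par sgn K {v} = ∑ c ∈ I₂, (dsc par c).card := by
    unfold wgt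
    rw [hI₂v]
  have hm1 : ∑ c ∈ I₁, (dsc par c).card ≤ 20403 * u + 3 * e := by omega
  have hI₁t : I₁ ⊆ topd par sgn K true := Finset.filter_subset _ _
  have hI₂t : I₂ ⊆ topd par sgn K true := Finset.filter_subset _ _
  have hsum : ∀ I : Finset W, ∑ i ∈ I, bsz par Finset.univ i = ∑ i ∈ I, (dsc par i).card :=
    fun I => Finset.sum_congr rfl fun c _ => bsz_univ par c
  obtain ⟨U₁, hU₁⟩ := h3 W V (bsz par Finset.univ) (itm A r par sgn Finset.univ) hcan
    (fun c => nb A true X (f₀ (par c)) \ F₁) I₁ β (fun c hc => hbβ c (htopd _ (hI₁t hc))) (by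
      intro c hc
      rw [hsum]
      have e1 : f₀ (par c) ∈ Ty := hf₀.1 _ (hparK c (htopd _ (hI₁t hc)))
      have e2 := htyx _ e1
      have e3 := card_sdiff_ge (F := F₁) (hnbX true X (f₀ (par c)))
      omega)
  set B₁ := I₁.biUnion U₁ with hB₁
  have hB₁c : B₁.card ≤ ∑ c ∈ I₁, (dsc par c).card := by
    refine Finset.card_biUnion_le.trans (Finset.sum_le_sum fun c hc => ?_)
    rw [(hU₁.1 c hc).2.1, bsz_univ]
  set F₂ := F₁ ∪ B₁ with hF₂
  have hF₂c : (F₂ ∩ X).card ≤ m + e + ∑ c ∈ I₁, (dsc par c).card := by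
    have e1 : F₂ ∩ X ⊆ (F₁ ∩ X) ∪ B₁ := by
      intro x hx
      rw [hF₂, Finset.mem_inter, Finset.mem_union] at hx
      rw [Finset.mem_union, Finset.mem_inter]
      tauto
    have e2 := (Finset.card_le_card e1).trans (Finset.card_union_le _ _)
    omega
  -- step 2
  rw [hI₂v] at h2v
  obtain ⟨C₂, hC₂, hC₂a, hC₂b⟩ := pick (fun c => (dsc par c).card) β
    (I₂.filter (fun c => 2 ≤ (dsc par c).card))
    (fun c hc => hβ c (htopd _ (hI₂t (Finset.mem_filter.1 hc).1))) (13002 * u + 2 * e) h2v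
  have hC₂I : C₂ ⊆ I₂ := hC₂.trans (Finset.filter_subset _ _)
  have hC₂c : C₂.card * 2 ≤ ∑ c ∈ C₂, (dsc par c).card := by
    rw [← smul_eq_mul]
    exact Finset.card_nsmul_le_sum _ _ _ fun c hc => (Finset.mem_filter.1 (hC₂ hc)).2
  obtain ⟨Z, hZP, hZc, hZ⟩ := h10 V A hT X y hyX (p + 701 * u - 1) (4305 * u) (34006 * u + 6 * e)
    (fun x hx => by have := (hA3 x hx).1; omega) (by omega) (by omega) (by omega)
  rw [← hQ] at hZ
  have hZX : Z ⊆ X := hZP.trans hPX
  obtain ⟨f', hf', hf'K, hf'C⟩ := h12 W V A hT r par dep hR sgn K hrK hK v hv C₂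
    (by rw [hI₂v]; exact hC₂I) f₀ hf₀u F₂ Z Q β (13102 * u + 2 * e)
    (by
      intro x hx
      rw [hF₂, hF₁, Finset.mem_union, Finset.mem_union]
      exact Or.inl (Or.inl hx))
    (hZP.trans (hD6 true X Finset.univ y (Finset.subset_univ _)))
    (fun c hc => hβ c (htopd _ (hI₂t (hC₂I hc)))) (by omega)
    (by
      have e1 := card_sdiff_ge (F := F₂) hZX
      omega)
    (Finset.disjoint_of_subset_left hZP hPQ)
    (by
      intro z hz
      obtain ⟨z1, z2⟩ := hZ z hz
      have e1 := card_sdiff_ge (F := F₂) ((hnbX true Q z).trans hQX)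
      have e2 := card_sdiff_ge (F := F₂) ((hnbX false Q z).trans hQX)
      omega)
  have hC₂t : C₂ ⊆ tops par K := hC₂I.trans (hI₂t.trans (htopd _))
  obtain ⟨hK'cl, -, hK'topd, -⟩ := h11 W r par dep hR sgn K C₂ hrK hK hC₂t
  set K' := K ∪ C₂.biUnion (dsc par) with hK'
  have hKK' : K ⊆ K' := Finset.subset_union_left
  -- the image of the new part
  have hnew : ∀ w ∈ K', w ∉ K → f' w ∉ F₂ ∧ (f' w ∈ P → f' w ∈ C₂.image f') := by
    intro w hw hwK
    rw [hK', Finset.mem_union, Finset.mem_biUnion] at hw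
    rcases hw with hw | ⟨c, hc, hwc⟩
    · exact absurd hw hwK
    · by_cases hwc' : w = c
      · subst hwc'
        exact ⟨(Finset.mem_sdiff.1 (hf'C w hc).1).2, fun _ => Finset.mem_image_of_mem _ hc⟩
      · have := Finset.mem_sdiff.1 ((hf'C c hc).2 w hwc hwc')
        refine ⟨this.2, fun hmem => ?_⟩
        exact absurd this.1 (Finset.disjoint_left.1 hPQ hmem)
  have hKimg : ∀ w ∈ K, f' w ∈ F₁ := by
    intro w hw
    rw [hf'K w hw, hF₁, Finset.mem_union]
    exact Or.inl (Finset.mem_image_of_mem _ hw)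
  -- step 3
  set I₃ := I₂ \ C₂ with hI₃
  set F₃ := F₂ ∪ K'.image f' with hF₃
  have hF₃c : (F₃ ∩ P).card ≤ m + e + ∑ c ∈ I₁, (dsc par c).card + C₂.card := by
    have e1 : F₃ ∩ P ⊆ (F₂ ∩ X) ∪ C₂.image f' := by
      intro x hx
      rw [hF₃, Finset.mem_inter, Finset.mem_union] at hx
      rw [Finset.mem_union, Finset.mem_inter]
      obtain ⟨hx1 | hx1, hx2⟩ := hx
      · exact Or.inl ⟨hx1, hPX hx2⟩
      · obtain ⟨w, hw, rfl⟩ := Finset.mem_image.1 hx1
        by_cases hwK : w ∈ K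
        · left
          refine ⟨?_, hPX hx2⟩
          rw [hF₂, Finset.mem_union]
          exact Or.inl (hKimg w hwK)
        · right
          exact (hnew w hw hwK).2 hx2
    have e2 := (Finset.card_le_card e1).trans (Finset.card_union_le _ _)
    have e3 : (C₂.image f').card ≤ C₂.card := Finset.card_image_le
    omega
  have hmass3 : ∑ c ∈ I₃, (dsc par c).card + ∑ c ∈ C₂, (dsc par c).card =
      ∑ c ∈ I₂, (dsc par c).card := Finset.sum_sdiff hC₂I
  obtain ⟨U₃, hU₃⟩ := h3 W V (bsz par Finset.univ) (itm A r par sgn Finset.univ) hcan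
    (fun _ => P \ F₃) I₃ β
    (fun c hc => hbβ c (htopd _ (hI₂t (Finset.mem_sdiff.1 hc).1))) (by
      intro c hc
      rw [hsum]
      have e3 := card_sdiff_ge (F := F₃) (Finset.Subset.refl P)
      omega)
  -- gluing
  have hF₁₂ : F₁ ⊆ F₂ := Finset.subset_union_left
  have hF₂₃ : F₂ ⊆ F₃ := Finset.subset_union_left
  have hU₀F : ∀ c ∈ topd par sgn K false, U₀ c ⊆ F₁ := by
    intro c hc x hx
    rw [hF₁, Finset.mem_union]
    exact Or.inr (Finset.mem_biUnion.2 ⟨c, hc, hx⟩)
  have hU₁F : ∀ c ∈ I₁, U₁ c ⊆ F₂ := by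
    intro c hc x hx
    rw [hF₂, Finset.mem_union]
    exact Or.inr (Finset.mem_biUnion.2 ⟨c, hc, hx⟩)
  have hU₁F₁ : ∀ c ∈ I₁, Disjoint (U₁ c) F₁ := by
    intro c hc
    rw [Finset.disjoint_left]
    intro x hx
    exact (Finset.mem_sdiff.1 ((hU₁.1 c hc).1 hx)).2
  have hU₃F₃ : ∀ c ∈ I₃, Disjoint (U₃ c) F₃ := by
    intro c hc
    rw [Finset.disjoint_left]
    intro x hx
    exact (Finset.mem_sdiff.1 ((hU₃.1 c hc).1 hx)).2
  -- a place inside `F₂` which avoids the image of `K` avoids the image of `K'`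
  have himg : ∀ x ∈ F₂, x ∉ K.image f₀ → x ∉ K'.image f' := by
    intro x hx hxK hxK'
    obtain ⟨w, hw, rfl⟩ := Finset.mem_image.1 hxK'
    by_cases hwK : w ∈ K
    · rw [hf'K w hwK] at hxK
      exact hxK (Finset.mem_image_of_mem _ hwK)
    · exact (hnew w hw hwK).1 hx
  have hmemT : ∀ c ∈ topd par sgn K' true, (c ∈ I₁ ∧ par c ≠ v) ∨ (c ∈ I₃ ∧ par c = v) := by
    intro c hc
    rw [hK'topd, Finset.mem_sdiff] at hc
    by_cases hcv : par c = v
    · right
      refine ⟨?_, hcv⟩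
      rw [hI₃, Finset.mem_sdiff, hI₂, Finset.mem_filter]
      exact ⟨⟨hc.1, hcv⟩, hc.2⟩
    · left
      refine ⟨?_, hcv⟩
      rw [hI₁, Finset.mem_filter]
      exact ⟨hc.1, hcv⟩
  have hmemF : topd par sgn K' false ⊆ topd par sgn K false := by
    rw [hK'topd]
    exact Finset.sdiff_subset
  let U : W → Finset V := fun c => if par c = v then U₃ c else U₁ c
  refine h6 W V A r par dep hR sgn K' (hKK' hrK) hK'cl f' hf' U U₀
    (fun c => nb A true Finset.univ (f' (par c)) \ K'.image f')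
    (fun c => nb A false Finset.univ (f' (par c)) \ K'.image f') ?_ ?_
    (fun c _ => Finset.Subset.refl _) (fun c _ => Finset.Subset.refl _) ?_
  · constructor
    · intro c hc
      rcases hmemT c hc with ⟨hcI, hcv⟩ | ⟨hcI, hcv⟩
      · have hUc : U c = U₁ c := if_neg hcv
        rw [hUc]
        obtain ⟨a1, a2, a3⟩ := hU₁.1 c hcI
        refine ⟨?_, a2, a3⟩
        intro x hx
        have hx' := Finset.mem_sdiff.1 (a1 hx)
        rw [Finset.mem_sdiff, hf'K _ (hparK c (htopd _ (hI₁t hcI)))]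
        refine ⟨hD6 true X Finset.univ _ (Finset.subset_univ _) hx'.1, ?_⟩
        apply himg x (hU₁F c hcI hx)
        intro hxK
        apply hx'.2
        rw [hF₁, Finset.mem_union]
        exact Or.inl hxK
      · have hUc : U c = U₃ c := if_pos hcv
        rw [hUc]
        obtain ⟨a1, a2, a3⟩ := hU₃.1 c hcI
        refine ⟨?_, a2, a3⟩
        intro x hx
        have hx' := Finset.mem_sdiff.1 (a1 hx)
        rw [Finset.mem_sdiff, hcv, hf'K v hv]
        refine ⟨hD6 true X Finset.univ _ (Finset.subset_univ _) hx'.1, ?_⟩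
        intro hxK
        apply hx'.2
        rw [hF₃, Finset.mem_union]
        exact Or.inr hxK
    · intro c hc c' hc' hne
      rcases hmemT c hc with ⟨hcI, hcv⟩ | ⟨hcI, hcv⟩ <;>
        rcases hmemT c' hc' with ⟨hcI', hcv'⟩ | ⟨hcI', hcv'⟩
      · have e1 : U c = U₁ c := if_neg hcv
        have e2 : U c' = U₁ c' := if_neg hcv'
        rw [e1, e2]
        exact hU₁.2 c hcI c' hcI' hne
      · have e1 : U c = U₁ c := if_neg hcv
        have e2 : U c' = U₃ c' := if_pos hcv'
        rw [e1, e2]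
        exact (Finset.disjoint_of_subset_right ((hU₁F c hcI).trans hF₂₃) (hU₃F₃ c' hcI')).symm
      · have e1 : U c = U₃ c := if_pos hcv
        have e2 : U c' = U₁ c' := if_neg hcv'
        rw [e1, e2]
        exact Finset.disjoint_of_subset_right ((hU₁F c' hcI').trans hF₂₃) (hU₃F₃ c hcI)
      · have e1 : U c = U₃ c := if_pos hcv
        have e2 : U c' = U₃ c' := if_pos hcv'
        rw [e1, e2]
        exact hU₃.2 c hcI c' hcI' hne
  · constructor
    · intro c hc
      have hc' := hmemF hc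
      obtain ⟨a1, a2, a3⟩ := hU₀.1 c hc'
      refine ⟨?_, a2, a3⟩
      intro x hx
      have hx' := Finset.mem_sdiff.1 (a1 hx)
      rw [Finset.mem_sdiff, hf'K _ (hparK c (htopd _ hc'))]
      exact ⟨hx'.1, himg x (hF₁₂ (hU₀F c hc' hx)) hx'.2⟩
    · intro c hc c' hc' hne
      exact hU₀.2 c (hmemF hc) c' (hmemF hc') hne
  · intro c hc c' hc'
    have hc'F := hU₀F c' (hmemF hc')
    rcases hmemT c hc with ⟨hcI, hcv⟩ | ⟨hcI, hcv⟩
    · have hUc : U c = U₁ c := if_neg hcv
      rw [hUc]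
      exact Finset.disjoint_of_subset_right hc'F (hU₁F₁ c hcI)
    · have hUc : U c = U₃ c := if_pos hcv
      rw [hUc]
      exact Finset.disjoint_of_subset_right (hc'F.trans (hF₁₂.trans hF₂₃)) (hU₃F₃ c hcI)

end Pool.Agent.Helper18.SU
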