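import Mathlib

/-!
Oriented trees in tournaments: basic definitions.
-/

set_option autoImplicit false

namespace Pool.Agent.Helper18.SU

open Classical in
/-- `A` is the arc relation of a tournament. -/
def Tour {V : Type} (A : V → V → Prop) : Prop :=
  (∀ u v, A u v → ¬ A v u) ∧ (∀ u v, u ≠ v → A u v ∨ A v u)

/-- `Arc A true u v` is the arc from `u` to `v`; `Arc A false u v` is the arc from `v` to `u`. -/
def Arc {V : Type} (A : V → V → Prop) : Bool → V → V → Prop
  | true, u, v => A u v
  | false, u, v => A v u

/-- `x` is the origin of an oriented path with signs `s` inside `X`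
(the path has `s.length + 1` vertices). -/
def Orig {V : Type} [DecidableEq V] (A : V → V → Prop) : List Bool → Finset V → V → Prop
  | [], X, x => x ∈ X
  | d :: s, X, x => x ∈ X ∧ ∃ y ∈ X.erase x, Arc A d x y ∧ Orig A s (X.erase x) y

/-- The number of leading entries of `s` equal to `d`. -/
def blk (d : Bool) : List Bool → ℕ
  | [] => 0
  | e :: s => if e = d then blk d s + 1 else 0

open Classical in
/-- The vertices of `X` reachable from `x` inside `X` along arcs of direction `d`. -/
noncomputable def Reach {V : Type} (A : V → V → Prop) (d : Bool) (X : Finset V) (x : V) :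
    Finset V :=
  X.filter (fun y => Relation.ReflTransGen (fun a b => a ∈ X ∧ b ∈ X ∧ Arc A d a b) x y)

open Classical in
/-- The weight of the neighbourhood of `x` in direction `d`. -/
noncomputable def wt {V : Type} [Fintype V] (A : V → V → Prop) (d : Bool) (P : V → ℝ) (x : V) :
    ℝ :=
  ∑ y, if Arc A d x y then P y else 0

/-- The rounding error. -/
noncomputable def err (L : ℝ) (p : ℕ) : ℝ :=
  if p = 0 then 0 else 4 * Real.sqrt (L * p) + 8 * L + 1

/-- Rooted tree data: root `r`, parent map `par`, depth `dep`. -/
def Rooted {W : Type} (r : W) (par : W → W) (dep : W → ℕ) : Prop :=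
  dep r = 0 ∧ par r = r ∧ ∀ v, v ≠ r → dep (par v) + 1 = dep v

/-- `f` embeds the part `S` of the tree into the set `X` of vertices of the tournament `A`;
the arc between `par v` and `v` has the sign `sgn v` (`true`: from `par v` to `v`). -/
def Emb {W V : Type} (A : V → V → Prop) (r : W) (par : W → W) (sgn : W → Bool)
    (S : Finset W) (X : Finset V) (f : W → V) : Prop :=
  (∀ v ∈ S, f v ∈ X) ∧ (∀ u ∈ S, ∀ v ∈ S, f u = f v → u = v) ∧
  (∀ v ∈ S, v ≠ r → par v ∈ S → Arc A (sgn v) (f (par v)) (f v))

/-- `lev` is a level function relative to the core `K`: level zero is the core, the level of a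
vertex outside the core is the level of its parent or one more, and every vertex outside the core
has at most one child of the same level. -/
def LevOK {W : Type} (par : W → W) (K : Finset W) (lev : W → ℕ) : Prop :=
  (∀ v, lev v = 0 ↔ v ∈ K) ∧
  (∀ v, v ∉ K → lev v = lev (par v) ∨ lev v = lev (par v) + 1) ∧
  (∀ u v, u ∉ K → v ∉ K → par u = par v → lev u = lev (par u) → lev v = lev (par v) → u = v)

/-- `col` records the sign with which the chain of a vertex is attached. -/
def ColOK {W : Type} (par : W → W) (K : Finset W) (lev : W → ℕ) (sgn col : W → Bool) : Prop :=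
  ∀ v, v ∉ K → (lev v ≠ lev (par v) → col v = sgn v) ∧ (lev v = lev (par v) → col v = col (par v))

/-- The number of vertices of level `j` and colour `d`. -/
def cnt {W : Type} [Fintype W] (lev : W → ℕ) (col : W → Bool) (j : ℕ) (d : Bool) : ℕ :=
  (Finset.univ.filter (fun v => lev v = j ∧ col v = d)).card

/-- The vertices of level at most `j`. -/
def upTo {W : Type} [Fintype W] (lev : W → ℕ) (j : ℕ) : Finset W :=
  Finset.univ.filter (fun v => lev v ≤ j)

/-- The reservation for a class with `p` vertices. -/
def need (p : ℕ) : ℕ := if p = 0 then 0 else p + 1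

/-- The cost of one level. -/
noncomputable def cost (L : ℝ) (p q : ℕ) : ℝ :=
  2 * (need p : ℝ) + 2 * (need q : ℝ) + err L (need p) + err L (need q) + 1

end Pool.Agent.Helper18.SU
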