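import Pool.Agent.Helper18.SU.Goals

/-!
Oriented trees in tournaments, part 2 (the exact bound `2 n - 2` for all `n ≥ 10 ^ 250`):
definitions.
-/

set_option autoImplicit false

namespace Pool.Agent.Helper18.SU

/-- The additive constant. -/
def C0 : ℕ := 10000000

/-- The reversed relation. -/
def Op {V : Type} (A : V → V → Prop) : V → V → Prop := fun x y => A y x

open Classical in
/-- The neighbours of `x` in direction `d` inside `X`. -/
noncomputable def nb {V : Type} (A : V → V → Prop) (d : Bool) (X : Finset V) (x : V) : Finset V :=
  X.filter (fun y => Arc A d x y)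

open Classical in
/-- The vertices whose degree in direction `d` is less than `c`. -/
noncomputable def low {V : Type} [Fintype V] (A : V → V → Prop) (d : Bool) (c : ℕ) : Finset V :=
  Finset.univ.filter (fun x => (nb A d Finset.univ x).card < c)

open Classical in
/-- The vertices with out-degree at least `a` and in-degree at least `b`. -/
noncomputable def mid {V : Type} [Fintype V] (A : V → V → Prop) (a b : ℕ) : Finset V :=
  Finset.univ.filter (fun x => a ≤ (nb A true Finset.univ x).card ∧
    b ≤ (nb A false Finset.univ x).card)

open Classical in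
/-- The vertices of `X` with at least `p - E` out-neighbours in `X`. -/
noncomputable def typ {V : Type} (A : V → V → Prop) (X : Finset V) (p E : ℕ) : Finset V :=
  X.filter (fun x => p ≤ (nb A true X x).card + E)

open Classical in
/-- The subtree at `c`. -/
noncomputable def dsc {W : Type} [Fintype W] (par : W → W) (c : W) : Finset W :=
  Finset.univ.filter (fun w => ∃ k : ℕ, par^[k] w = c)

open Classical in
/-- The part of the subtree at `c` inside `S`. -/
noncomputable def dsi {W : Type} [Fintype W] (par : W → W) (S : Finset W) (c : W) : Finset W :=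
  (dsc par c).filter (fun w => w ∈ S)

open Classical in
/-- The tops of the components outside `K`. -/
noncomputable def tops {W : Type} [Fintype W] (par : W → W) (K : Finset W) : Finset W :=
  Finset.univ.filter (fun c => c ∉ K ∧ par c ∈ K)

open Classical in
/-- The tops attached with sign `d`. -/
noncomputable def topd {W : Type} [Fintype W] (par : W → W) (sgn : W → Bool) (K : Finset W)
    (d : Bool) : Finset W :=
  (tops par K).filter (fun c => sgn c = d)

/-- The number of vertices in components attached with sign `d`. -/
noncomputable def mas {W : Type} [Fintype W] (par : W → W) (sgn : W → Bool) (K : Finset W)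
    (d : Bool) : ℕ :=
  ∑ c ∈ topd par sgn K d, (dsc par c).card

open Classical in
/-- The tops attached with sign `true` to vertices of `S`. -/
noncomputable def topv {W : Type} [Fintype W] (par : W → W) (sgn : W → Bool) (K S : Finset W) :
    Finset W :=
  (topd par sgn K true).filter (fun c => par c ∈ S)

/-- The number of vertices in components attached with sign `true` to vertices of `S`. -/
noncomputable def wgt {W : Type} [Fintype W] (par : W → W) (sgn : W → Bool) (K S : Finset W) : ℕ :=
  ∑ c ∈ topv par sgn K S, (dsc par c).card

open Classical in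
/-- The part of `K` in the subtrees at the vertices of `C`. -/
noncomputable def cut {W : Type} [Fintype W] (par : W → W) (K C : Finset W) : Finset W :=
  K.filter (fun w => ∃ c ∈ C, w ∈ dsc par c)

/-- Every item can be placed inside every set with `3 b + C0` elements. -/
def Can {ι V : Type} (b : ι → ℕ) (good : ι → Finset V → Prop) : Prop :=
  ∀ (c : ι) (X : Finset V), 3 * b c + C0 ≤ X.card → ∃ U ⊆ X, U.card = b c ∧ good c U

/-- `U` is a disjoint placement of the items of `I`, the item `c` inside `O c`. -/
def Plc {ι V : Type} (b : ι → ℕ) (good : ι → Finset V → Prop) (O : ι → Finset V)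
    (I : Finset ι) (U : ι → Finset V) : Prop :=
  (∀ c ∈ I, U c ⊆ O c ∧ (U c).card = b c ∧ good c (U c)) ∧
  (∀ c ∈ I, ∀ c' ∈ I, c ≠ c' → Disjoint (U c) (U c'))

/-- The size of the item `c`. -/
noncomputable def bsz {W : Type} [Fintype W] (par : W → W) (S : Finset W) (c : W) : ℕ :=
  (dsi par S c).card

/-- The item `c` (the subtree at `c`, inside `S`) fits into `U`. -/
def itm {W V : Type} [Fintype W] (A : V → V → Prop) (r : W) (par : W → W) (sgn : W → Bool)
    (S : Finset W) (c : W) (U : Finset V) : Prop :=
  ∃ f : W → V, Emb A r par sgn (dsi par S c) U f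

/-- The whole tree embeds. -/
def Full {W V : Type} [Fintype W] [Fintype V] (A : V → V → Prop) (r : W) (par : W → W)
    (sgn : W → Bool) : Prop :=
  ∃ f : W → V, Emb A r par sgn Finset.univ Finset.univ f

/-- The general setting: tournament with `2 n - 2` vertices, rooted tree with `n` vertices, core
`K` with at most `m` vertices, components outside the core with at most `β` vertices. -/
def Ctx {W V : Type} [Fintype W] [Fintype V] (A : V → V → Prop) (r : W) (par : W → W)
    (dep : W → ℕ) (K : Finset W) (β m : ℕ) : Prop :=
  Tour A ∧ Rooted r par dep ∧ r ∈ K ∧ (∀ v ∈ K, par v ∈ K) ∧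
  (∀ c ∈ tops par K, (dsc par c).card ≤ β) ∧ K.card ≤ m ∧
  Fintype.card V + 2 = 2 * Fintype.card W

open Classical in
/-- The ancestors of the root: vertices from which all arcs on the way to the root point to the
root. -/
noncomputable def anc {W : Type} [Fintype W] (r : W) (par : W → W) (sgn : W → Bool) : Finset W :=
  Finset.univ.filter (fun w => ∀ k : ℕ, par^[k] w ≠ r → sgn (par^[k] w) = false)

open Classical in
/-- The children of `v` with sign `d`. -/
noncomputable def chd {W : Type} [Fintype W] (r : W) (par : W → W) (sgn : W → Bool) (v : W)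
    (d : Bool) : Finset W :=
  Finset.univ.filter (fun c => c ≠ r ∧ par c = v ∧ sgn c = d)

/-- `LO` is a set of leaves attached to the root with sign `true`, `LI` is a set of leaves
attached to `u` with sign `false`. -/
def Brm {W : Type} (r u : W) (par : W → W) (sgn : W → Bool) (LO LI : Finset W) : Prop :=
  (∀ c ∈ LO, c ≠ r ∧ par c = r ∧ sgn c = true) ∧
  (∀ c ∈ LI, c ≠ r ∧ par c = u ∧ sgn c = false) ∧
  (∀ w, w ≠ r → par w ∉ LO ∧ par w ∉ LI) ∧ u ∉ LO ∧ u ∉ LI

/-- `D` is an oriented tree. -/
def OT {W : Type} (D : W → W → Prop) : Prop :=
  (∀ a b, D a b → ¬ D b a) ∧ (SimpleGraph.fromRel D).IsTree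

/-- `D` is contained in `A`. -/
def Cont {W V : Type} (A : V → V → Prop) (D : W → W → Prop) : Prop :=
  ∃ f : W → V, Function.Injective f ∧ ∀ a b, D a b → A (f a) (f b)

/-- The rooted data `r, par, sgn` describe `D`. -/
def Rep {W : Type} (D : W → W → Prop) (r : W) (par : W → W) (sgn : W → Bool) : Prop :=
  ∀ x y, D x y ↔ (y ≠ r ∧ par y = x ∧ sgn y = true) ∨ (x ≠ r ∧ par x = y ∧ sgn x = false)

open Classical in
/-- The out-leaves at `v`. -/
noncomputable def OL {W : Type} [Fintype W] (D : W → W → Prop) (v : W) : Finset W :=
  Finset.univ.filter (fun c => D v c ∧ ∀ w, D w c ∨ D c w → w = v)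

open Classical in
/-- The out-neighbours of `v`. -/
noncomputable def OD {W : Type} [Fintype W] (D : W → W → Prop) (v : W) : Finset W :=
  Finset.univ.filter (fun c => D v c)

end Pool.Agent.Helper18.SU
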