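import Pool.Agent.Helper18.SU.FIN3

/-!
Oriented trees in tournaments, part 2: the two-sided case.
-/

set_option autoImplicit false

namespace Pool.Agent.Helper18.SU

open Finset

theorem brn_sub {W : Type} [Fintype W] (par : W → W) (sgn : W → Bool) (S : Finset W) (c : W)
    (d : Bool) : brn par sgn S c d ⊆ S := by
  intro x hx
  simp only [brn, mem_filter] at hx
  exact hx.1

theorem brn_neg {W : Type} [Fintype W] (par : W → W) (sgn : W → Bool) (S : Finset W) (c : W)
    (d : Bool) : brn par (fun w => !sgn w) S c d = brn par sgn S c (!d) := by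
  ext x
  simp only [brn, mem_filter]
  constructor
  · rintro ⟨h, c', h1, h2, h3, h4⟩
    refine ⟨h, c', h1, h2, ?_, h4⟩
    rw [← h3]; simp
  · rintro ⟨h, c', h1, h2, h3, h4⟩
    refine ⟨h, c', h1, h2, ?_, h4⟩
    show (!sgn c') = d
    rw [h3]; simp

/-- The two rootings. -/
theorem twoRoot (h5 : BRG_stmt) (h6 : REP_stmt) (W : Type) [Fintype W] [DecidableEq W]
    (D : W → W → Prop) (hD : OT D) (v u : W) :
    ∃ (par : W → W) (dep : W → ℕ) (sgn : W → Bool) (par' : W → W) (dep' : W → ℕ)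
      (sgn' : W → Bool), Rooted v par dep ∧ Rep D v par sgn ∧ Rooted u par' dep' ∧
      Rep (Op D) u par' sgn' ∧ (u = v → par' = par ∧ sgn' = fun w => !sgn w) := by
  obtain ⟨par, dep, sgn, hR, hrep⟩ := h5 W D hD v
  by_cases huv : u = v
  · subst huv
    have h := h6 W W (fun _ _ => True) D u par dep sgn hD.1 hR hrep
    exact ⟨par, dep, sgn, par, dep, fun w => !sgn w, hR, hrep, hR, h.2.1, fun _ => ⟨rfl, rfl⟩⟩
  · obtain ⟨par', dep', sgn', hR', hrep'⟩ := h5 W (Op D) (ot_op hD) u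
    exact ⟨par, dep, sgn, par', dep', sgn', hR, hrep, hR', hrep', fun h => absurd h huv⟩

theorem E23 (h1 : E2H3_stmt) (h2 : E2M3_stmt) (h3 : E2P_stmt) (h4 : COUNT_stmt) (h5 : BRG_stmt)
    (h6 : REP_stmt) (h7 : REV_stmt) (h8 : SIZ_stmt) (h9 : DEG_stmt) (h10 : DSJ3_stmt)
    (h11 : BRN_stmt) : E23_stmt := by
  intro W V _ _ _ _ A hA hc D hD v u s s1 L R hs hs1 hL ha hb hR
  have hC : C0 = 10000000 := rfl
  have hD' : OT (Op D) := ot_op hD
  have hA' : Tour (Op A) := ⟨fun x y h h' => hA.1 y x h h', fun x y h => hA.2 y x h.symm⟩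
  obtain ⟨par, dep, sgn, par', dep', sgn', hro, hrep, hro', hrep', hsame⟩ :=
    twoRoot h5 h6 W D hD v u
  have P1 := h6 W V A D v par dep sgn hD.1 hro hrep
  have P2 := h6 W V (Op A) (Op D) u par' dep' sgn' hD'.1 hro' hrep'
  set LO := OL D v with hLO
  set LI := OL (Op D) u with hLI
  set a := LO.card with haa
  set b := LI.card with hbb
  have ha2 : 2 ≤ a := by omega
  have hb2 : 2 ≤ b := by omega
  have B1 := P1.2.2.2.1 u ha2 hb2
  have B2 := P2.2.2.2.1 v hb2 ha2
  rw [op_op] at B2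
  change Brm u v par' sgn' LI LO ∧ _ at B2
  -- the reversed tournament
  have rmid : ∀ x y, mid (Op A) x y = mid A y x := (h7 W V A v par dep sgn ∅ 0 0).2.2.2.2.1
  have rlow : ∀ d c, low (Op A) d c = low A (!d) c := (h7 W V A v par dep sgn ∅ 0 0).2.2.2.1
  have rnb : ∀ d (X : Finset V) x, nb (Op A) d X x = nb A (!d) X x :=
    (h7 W V A v par dep sgn ∅ 0 0).2.2.1
  -- the paths are directed
  by_cases hdir : ∃ k : ℕ, par^[k] u ≠ v ∧ sgn (par^[k] u) = true
  · apply P1.1
    exact h2 W V A hA hc v u par dep hro sgn LO LI B1.1 hdir s L R (by omega) (by omega)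
      (by omega) hR
  by_cases hdir' : ∃ k : ℕ, par'^[k] v ≠ u ∧ sgn' (par'^[k] v) = true
  · apply cont_op
    apply P2.1
    refine h2 W V (Op A) hA' hc u v par' dep' hro' sgn' LI LO B2.1 hdir' s L R (by omega)
      (by omega) (by omega) ?_
    rw [rmid]; exact hR
  have hd1 : ∀ k : ℕ, par^[k] u ≠ v → sgn (par^[k] u) = false := by
    intro k hk
    by_contra h
    exact hdir ⟨k, hk, by simpa using h⟩
  have hd2 : ∀ k : ℕ, par'^[k] v ≠ u → sgn' (par'^[k] v) = false := by
    intro k hk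
    by_contra h
    exact hdir' ⟨k, hk, by simpa using h⟩
  -- the set `S`
  have hdis : Disjoint LO LI := ol_disj D hD.1 v u
  set S : Finset W := univ \ (LO ∪ LI) with hS
  have hScard : S.card = s := by
    rw [hS, card_sdiff_of_subset (subset_univ _), card_union_of_disjoint hdis, card_univ]
    omega
  have hS' : (univ : Finset W) \ (LI ∪ LO) = S := by rw [union_comm]
  have huS : u ∈ S := by
    rw [hS, mem_sdiff, mem_union]
    exact ⟨mem_univ _, fun h => h.elim B1.1.2.2.2.1 B1.1.2.2.2.2⟩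
  have hs0 : 1 ≤ s := by rw [← hScard]; exact card_pos.mpr ⟨u, huS⟩
  obtain ⟨so, hso⟩ : ∃ k, k = (brn par sgn S v true).card := ⟨_, rfl⟩
  obtain ⟨so', hso'⟩ : ∃ k, k = (brn par' sgn' S u true).card := ⟨_, rfl⟩
  have e1 : u = v → (brn par sgn S v false).card = so' := by
    intro huv
    obtain ⟨q1, q2⟩ := hsame huv
    rw [hso', q1, q2, huv, brn_neg]
    rfl
  have e2 : u = v → (brn par' sgn' S u false).card = so := by
    intro huv
    obtain ⟨q1, q2⟩ := hsame huv
    rw [hso, q1, q2, huv, brn_neg]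
    rfl
  have hsum : so + so' ≤ s := by
    by_cases huv : u = v
    · have := (h11 W v par dep hro sgn S v).2.2.2
      rw [e1 huv, ← hso, hScard] at this
      exact this
    · have hdj := h10 W D hD.1 v u huv par dep sgn hro hrep hd1 par' dep' sgn' hro' hrep' S
      rw [hso, hso', ← card_union_of_disjoint hdj, ← hScard]
      exact card_le_card (union_subset (brn_sub _ _ _ _ _) (brn_sub _ _ _ _ _))
  obtain ⟨Go, hGo⟩ : ∃ k, k = max (3 * so + C0) L := ⟨_, rfl⟩
  obtain ⟨Gi, hGi⟩ : ∃ k, k = max (3 * so' + C0) L := ⟨_, rfl⟩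
  have g1 : 3 * so + C0 ≤ Go := by rw [hGo]; exact le_max_left _ _
  have g2 : L ≤ Go := by rw [hGo]; exact le_max_right _ _
  have g3 : 3 * so' + C0 ≤ Gi := by rw [hGi]; exact le_max_left _ _
  have g4 : L ≤ Gi := by rw [hGi]; exact le_max_right _ _
  have g5 : Go = 3 * so + C0 ∨ Go = L := by rw [hGo]; exact max_choice _ _
  have g6 : Gi = 3 * so' + C0 ∨ Gi = L := by rw [hGi]; exact max_choice _ _
  clear hGo hGi
  have g7 : 2 * (Go + Gi) + R ≤ 2 * s + (4 * s1 + 2 * L + 4 * C0 + R) := by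
    rcases g5 with g5 | g5 <;> rcases g6 with g6 | g6 <;> omega
  have hmid : (mid A (a + Go) (b + Gi)).card ≤ R :=
    le_trans (card_le_card (mid_mono A (by omega) (by omega))) hR
  -- the two halves
  have H1 := h1 W V A hA hc v u par dep hro sgn LO LI B1.1 hd1 s Go Gi R
    (4 * s1 + 2 * L + 4 * C0 + R) (3 * s1 + C0) (by omega) (by rw [← hS, ← hso]; exact g1)
    (fun huv => by rw [← hS, e1 huv]; exact g3) (by omega) (by omega) (by omega) (by omega)
    g7 (by omega) (by omega) hmid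
  have H2 := h1 W V (Op A) hA' hc u v par' dep' hro' sgn' LI LO B2.1 hd2 s Gi Go R
    (4 * s1 + 2 * L + 4 * C0 + R) (3 * s1 + C0) (by omega) (by rw [hS', ← hso']; exact g3)
    (fun huv => by rw [hS', e2 huv.symm]; exact g1) (by omega) (by omega) (by omega) (by omega)
    (by omega) (by omega) (by omega) (by rw [rmid]; exact hmid)
  rcases H1 with H1 | ⟨H1a, H1b⟩
  · exact P1.1 H1
  rcases H2 with H2 | ⟨H2a, H2b⟩
  · exact cont_op (P2.1 H2)
  rw [rmid, rlow] at H2a
  rw [rlow] at H2b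
  simp only [rnb, Bool.not_true, Bool.not_false] at H2a H2b
  obtain ⟨X, hX⟩ : ∃ X, X = low A true (a + Go) := ⟨_, rfl⟩
  obtain ⟨B, hB⟩ : ∃ B, B = low A false (b + Gi) := ⟨_, rfl⟩
  obtain ⟨M, hM⟩ : ∃ M, M = mid A (a + Go) (b + Gi) := ⟨_, rfl⟩
  rw [← hX] at H1b
  rw [← hX, ← hM] at H1a
  rw [← hB] at H2b
  rw [← hB, ← hM] at H2a
  rw [← hM] at hmid
  obtain ⟨siz1, siz2, siz3⟩ := h8 V A hA
  obtain ⟨deg1, deg2, deg3, deg4, deg5, deg6, deg7, deg8⟩ := h9 V A hA
  obtain ⟨dv, hdv⟩ : ∃ k, k = (chd v par sgn v true).card := ⟨_, rfl⟩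
  obtain ⟨du, hdu⟩ : ∃ k, k = (chd u par' sgn' u true).card := ⟨_, rfl⟩
  rw [← hdv] at H1b
  rw [← hdu] at H2b
  have hdva : a ≤ dv := by rw [hdv]; exact card_le_card P1.2.2.1.1
  have hdub : b ≤ du := by rw [hdu]; exact card_le_card P2.2.2.1.1
  have hXc : X.card ≤ 2 * (dv - 1) + 1 := deg5 true X (dv - 1) (fun x hx => by
    have := H1b x hx; omega)
  have hBc : B.card ≤ 2 * (du - 1) + 1 := deg5 false B (du - 1) (fun x hx => by
    have := H2b x hx; omega)
  have hcov : Fintype.card V ≤ X.card + B.card + M.card := by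
    rw [hX, hB, hM]; exact siz2 _ _
  have hXc2 : X.card + 1 ≤ 2 * (a + Go) := by rw [hX]; exact siz1 true (a + Go) (by omega)
  have hBc2 : B.card + 1 ≤ 2 * (b + Gi) := by rw [hB]; exact siz1 false (b + Gi) (by omega)
  -- the count
  have hcnt := (h4 W v u par dep hro sgn LO LI B1.1 P1.2.2.1.2.1).1 hd1 B1.2
  have hchd : (chd v par sgn u false).card = du := by
    rw [hdu, P1.2.2.2.2.2 u ?_, P2.2.2.2.2.1]
    by_cases huv : u = v
    · exact Or.inl huv
    · exact Or.inr (hd1 0 huv)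
  rw [hchd, ← hdv] at hcnt
  have hMc : dep u + 2 ≤ M.card := by omega
  obtain ⟨z0, hz0⟩ : M.Nonempty := card_pos.mp (by omega)
  have huv : u ≠ v := (H1a z0 hz0).1
  -- membership
  have mX : ∀ x, x ∈ X ↔ (nb A true univ x).card < a + Go := by
    intro x; rw [hX]; simp [low]
  have mB : ∀ x, x ∈ B ↔ (nb A false univ x).card < b + Gi := by
    intro x; rw [hB]; simp [low]
  have mM : ∀ x, x ∈ M ↔ (a + Go ≤ (nb A true univ x).card ∧ b + Gi ≤ (nb A false univ x).card) := by
    intro x; rw [hM]; simp [mid]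
  have hMX : Disjoint M X := by
    rw [disjoint_left]
    intro x hx hx'
    have := (mM x).1 hx
    have := (mX x).1 hx'
    omega
  have hMB : Disjoint M B := by
    rw [disjoint_left]
    intro x hx hx'
    have := (mM x).1 hx
    have := (mB x).1 hx'
    omega
  have hXB : Disjoint X B := by
    rw [disjoint_left]
    intro x hx hx'
    have := (mX x).1 hx
    have := (mB x).1 hx'
    have := siz3 x
    omega
  apply P1.1
  refine h3 W V A hA v u par dep hro sgn LO LI B1.1 s (by omega) hd1 M X B hMX hMB hXB hMc ?_ ?_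
  · intro x hx
    have q1 := deg1 X x (fun h => disjoint_left.1 hMX hx h)
    have q2 := (H1a x hx).2
    omega
  · intro x hx
    have q1 := deg1 B x (fun h => disjoint_left.1 hMB hx h)
    have q2 := (H2a x hx).2
    omega

end Pool.Agent.Helper18.SU
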