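import Pool.Agent.Helper18.SU.Goals3

/-!
Oriented trees in tournaments, part 2: the two-sided case, two steps.
-/

set_option autoImplicit false

namespace Pool.Agent.Helper18.SU

open Finset

theorem E2M3 (h1 : E2N_stmt) (h5 : SIZ_stmt) (h6 : DEG_stmt) : E2M3_stmt := by
  intro W V _ _ _ _ A hT hVW r u par dep hroot sgn LO LI hBrm hk s L R hsum hRa hRb hR
  obtain ⟨siz1, siz2, siz3⟩ := h5 V A hT
  obtain ⟨deg1, deg2, deg3, deg4, deg5, deg6, deg7, deg8⟩ := h6 V A hT
  set a := LO.card with ha
  set b := LI.card with hb
  set X := low A true (a + L) with hX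
  set B := low A false (b + L) with hB
  set M := mid A (a + L) (b + L) with hM
  have hC : C0 = 10000000 := rfl
  have hXc : X.card + 1 ≤ 2 * (a + L) := siz1 true (a + L) (by omega)
  have hBc : B.card + 1 ≤ 2 * (b + L) := siz1 false (b + L) (by omega)
  have hcov : Fintype.card V ≤ X.card + B.card + M.card := siz2 (a + L) (b + L)
  have hXd : ∀ x ∈ X, (nb A true univ x).card < a + L := by
    intro x hx
    rw [hX] at hx
    simp only [low, mem_filter, mem_univ, true_and] at hx
    exact hx
  have hBd : ∀ x ∈ B, (nb A false univ x).card < b + L := by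
    intro x hx
    rw [hB] at hx
    simp only [low, mem_filter, mem_univ, true_and] at hx
    exact hx
  have hXin : ∀ x ∈ X, a + b + s ≤ (nb A false univ x).card := by
    intro x hx
    have e1 := hXd x hx
    have e2 := siz3 x
    omega
  have hBout : ∀ x ∈ B, a + b + s ≤ (nb A true univ x).card := by
    intro x hx
    have e1 := hBd x hx
    have e2 := siz3 x
    omega
  have hdisj : Disjoint X B := by
    rw [disjoint_left]
    intro x hx hx'
    have e1 := hXd x hx
    have e2 := hBout x hx'
    omega
  have hnbX : ∀ x, (nb A true X x).card ≤ (nb A true univ x).card := fun x =>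
    card_le_card (deg6 true X univ x (subset_univ _))
  classical
  set B' := B.filter (fun x => 3 * s + C0 ≤ (nb A true X x).card) with hB'
  have hBB : B' ⊆ B := filter_subset _ _
  refine h1 W V A hT r u par dep hroot sgn LO LI hBrm s hsum hk B' X
    (disjoint_of_subset_left hBB hdisj.symm) ?_ ?_ (fun x hx => hBout x (hBB hx)) hXin
  · -- the count
    by_contra hlt
    push Not at hlt
    have hsum3 := deg3 true X B
    have hbnot : (!true) = false := rfl
    rw [hbnot] at hsum3
    -- lower bound
    have hlow : (B.card - B'.card) * (X.card - (3 * s + C0)) ≤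
        ∑ y ∈ B, (nb A false X y).card := by
      have hsd : (B \ B').card = B.card - B'.card := by
        rw [card_sdiff_of_subset hBB]
      calc (B.card - B'.card) * (X.card - (3 * s + C0))
          = ∑ y ∈ B \ B', (X.card - (3 * s + C0)) := by
            rw [sum_const, hsd, smul_eq_mul]
        _ ≤ ∑ y ∈ B \ B', (nb A false X y).card := by
            apply sum_le_sum
            intro y hy
            rw [mem_sdiff] at hy
            have hyX : y ∉ X := fun h => (disjoint_left.1 hdisj) h hy.1
            have e1 := deg1 X y hyX
            have e2 : ¬ (3 * s + C0 ≤ (nb A true X y).card) := by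
              intro h
              exact hy.2 (mem_filter.2 ⟨hy.1, h⟩)
            omega
        _ ≤ ∑ y ∈ B, (nb A false X y).card :=
            sum_le_sum_of_subset sdiff_subset
    -- upper bound
    have hup : ∑ x ∈ X, (nb A true B x).card + ∑ x ∈ X, (nb A true X x).card
        ≤ X.card * (a + L - 1) := by
      rw [← sum_add_distrib]
      calc ∑ x ∈ X, ((nb A true B x).card + (nb A true X x).card)
          ≤ ∑ x ∈ X, (a + L - 1) := by
            apply sum_le_sum
            intro x hx
            have e1 := hXd x hx
            have hd : Disjoint (nb A true B x) (nb A true X x) := by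
              rw [disjoint_left]
              intro y hy hy'
              unfold nb at hy hy'
              rw [mem_filter] at hy hy'
              exact (disjoint_left.1 hdisj) hy'.1 hy.1
            have hsub : nb A true B x ∪ nb A true X x ⊆ nb A true univ x :=
              union_subset (deg6 true B univ x (subset_univ _))
                (deg6 true X univ x (subset_univ _))
            have e2 := card_le_card hsub
            rw [card_union_of_disjoint hd] at e2
            omega
        _ = X.card * (a + L - 1) := by rw [sum_const, smul_eq_mul]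
    have h4X := deg4 true X
    -- numbers
    set x := X.card with hxdef
    set S1 := ∑ x ∈ X, (nb A true B x).card with hS1
    set S2 := ∑ x ∈ X, (nb A true X x).card with hS2
    have hxl : 2 * (3 * s + C0) ≤ x := by omega
    have hxlow : 2 * a + 2 * L ≤ x + 1 + (4 * L + R) := by omega
    have hbl : b + B'.card ≤ B.card := by omega
    have hb4 : 4 * L + R < b := by omega
    have hxpos : 0 < x := by omega
    -- 2 S1 ≤ x (4 L + R)
    obtain ⟨q, hq⟩ : ∃ q, a + L - 1 = q := ⟨_, rfl⟩
    have hq2 : 2 * q ≤ x + (4 * L + R) := by omega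
    rw [hq] at hup
    have hS1up : 2 * S1 + x * x ≤ x * (x + (4 * L + R)) + x := by
      have e1 : x ^ 2 = x * x := sq x
      have e2 : x * (2 * q) ≤ x * (x + (4 * L + R)) := Nat.mul_le_mul le_rfl hq2
      have e3 : x * (2 * q) = 2 * (x * q) := by ring
      omega
    have hS1lo : b * (x - (3 * s + C0)) ≤ S1 := by
      rw [hsum3]
      refine le_trans ?_ hlow
      exact Nat.mul_le_mul (by omega) le_rfl
    have e5 : x ≤ 2 * (x - (3 * s + C0)) := by omega
    have e6 : b * x ≤ 2 * (b * (x - (3 * s + C0))) := by
      calc b * x ≤ b * (2 * (x - (3 * s + C0))) := Nat.mul_le_mul le_rfl e5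
        _ = 2 * (b * (x - (3 * s + C0))) := by ring
    have e7 : (4 * L + R + 2) * x ≤ b * x := Nat.mul_le_mul (by omega) le_rfl
    have e8 : x * (x + (4 * L + R)) = x * x + (4 * L + R) * x := by ring
    have e9 : (4 * L + R + 2) * x = (4 * L + R) * x + 2 * x := by ring
    omega
  · intro x hx
    exact (mem_filter.1 hx).2

theorem E2H3 (h1 : OPV3_stmt) (h2 : OPA3_stmt) (h4 : GZ3_stmt) (h5 : SIZ_stmt)
    (h6 : DEG_stmt) (h7 : DSC_stmt) : E2H3_stmt := by
  intro W V _ _ _ _ A hT hVW r u par dep hroot sgn LO LI hBrm hpath s Go Gi R e l hsum hGo hGi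
    hGi1 hl hGol hGil hGe ha5 hb5 hR
  obtain ⟨siz1, siz2, siz3⟩ := h5 V A hT
  obtain ⟨deg1, deg2, deg3, deg4, deg5, deg6, deg7, deg8⟩ := h6 V A hT
  set a := LO.card with ha
  set b := LI.card with hb
  set X := low A true (a + Go) with hX
  set B := low A false (b + Gi) with hB
  set M := mid A (a + Go) (b + Gi) with hM
  have hC : C0 = 10000000 := rfl
  have hXc : X.card + 1 ≤ 2 * (a + Go) := siz1 true (a + Go) (by omega)
  have hBc : B.card + 1 ≤ 2 * (b + Gi) := siz1 false (b + Gi) (by omega)
  have hcov : Fintype.card V ≤ X.card + B.card + M.card := siz2 (a + Go) (b + Gi)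
  have hXd : ∀ x ∈ X, (nb A true univ x).card < a + Go := by
    intro x hx
    rw [hX] at hx
    simp only [low, mem_filter, mem_univ, true_and] at hx
    exact hx
  have hXin : ∀ x ∈ X, a + b + s ≤ (nb A false univ x).card := by
    intro x hx
    have e1 := hXd x hx
    have e2 := siz3 x
    omega
  have hnbX : ∀ x, (nb A true X x).card ≤ (nb A true univ x).card := fun x =>
    card_le_card (deg6 true X univ x (subset_univ _))
  by_cases hF : Full (V := V) A r par sgn
  · exact Or.inl hF
  right
  have hMd : ∀ z ∈ M, a + Go ≤ (nb A true univ z).card ∧ b + Gi ≤ (nb A false univ z).card := by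
    intro z hz
    rw [hM] at hz
    simp only [mid, mem_filter, mem_univ, true_and] at hz
    exact hz
  obtain ⟨hOPV1, hOPV2⟩ := h1 W V A hT r u par dep hroot sgn LO LI hBrm s hsum
  obtain ⟨-, -, -, -, hdscr, -, -⟩ := h7 W r par dep hroot
  refine ⟨?_, ?_⟩
  · intro z hz
    obtain ⟨hz1, hz2⟩ := hMd z hz
    have hur : u ≠ r := by
      intro h
      have := hGi h
      exact hF (hOPV1 h z (by omega) (by omega))
    refine ⟨hur, ?_⟩
    by_contra hge
    push Not at hge
    apply hF
    -- the vertex below the root
    classical
    have hex : ∃ k : ℕ, par^[k] u = r := by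
      have := hdscr u
      simpa [dsc] using this
    have hk0 : Nat.find hex ≠ 0 := by
      intro h0
      have := Nat.find_spec hex
      rw [h0] at this
      exact hur this
    obtain ⟨k, hk⟩ : ∃ k, Nat.find hex = k + 1 := Nat.exists_eq_succ_of_ne_zero hk0
    have hkr : par^[k + 1] u = r := by
      rw [← hk]; exact Nat.find_spec hex
    have hkne : par^[k] u ≠ r := by
      apply Nat.find_min hex
      omega
    refine hOPV2 (par^[k] u) hkne ?_ (hpath k hkne) ?_ z X (by omega) hge ?_
    · rw [← hkr, Function.iterate_succ_apply']
    · simp only [dsc, mem_filter, mem_univ, true_and]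
      exact ⟨k, rfl⟩
    · intro y hy
      exact hXin y hy
  · intro y hy
    by_contra hge
    push Not at hge
    apply hF
    have hLOchd : LO ⊆ chd r par sgn r true := by
      intro c hc
      have := hBrm.1 c hc
      simp only [chd, mem_filter, mem_univ, true_and]
      exact this
    have hdv : a ≤ (chd r par sgn r true).card := card_le_card hLOchd
    have hyd := hXd y hy
    have hnby := hnbX y
    obtain ⟨Z, hZ, hZc, hZp⟩ := h4 V A hT X y hy (a + Go - 1) e l
      (fun x hx => by
        have e1 := hXd x hx
        have e2 := hnbX x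
        omega)
      (by omega) (by omega) (by omega)
    have hdeg2 := deg2 X y hy
    exact h2 W V A hT r u par dep hroot sgn LO LI hBrm s hsum X y hy hge (by omega)
      (Or.inr hXin) Z hZ (by omega)
      (fun z hz => ⟨le_trans hl (hZp z hz).1, le_trans hl (hZp z hz).2⟩)

end Pool.Agent.Helper18.SU
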