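import Pool.Agent.Helper18.SU.Goals3

/-!
Oriented trees in tournaments, part 2: the final assembly.
-/

set_option autoImplicit false

namespace Pool.Agent.Helper18.SU

theorem op_op {V : Type} (A : V → V → Prop) : Op (Op A) = A := rfl

theorem ot_op {W : Type} {D : W → W → Prop} (h : OT D) : OT (Op D) := by
  refine ⟨fun a b hab hba => h.1 b a hab hba, ?_⟩
  have : SimpleGraph.fromRel (Op D) = SimpleGraph.fromRel D := by
    ext a b
    simp only [SimpleGraph.fromRel_adj, Op]
    tauto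
  rw [this]
  exact h.2

theorem cont_op {W V : Type} {A : V → V → Prop} {D : W → W → Prop} (h : Cont (Op A) (Op D)) :
    Cont A D := by
  obtain ⟨f, hf, h2⟩ := h
  exact ⟨f, hf, fun a b hab => h2 b a hab⟩

/-- The one-sided case. -/
theorem oneSided (h2 : E13_stmt) (h4 : BRG_stmt) (h5 : REP_stmt)
    (W V : Type) [Fintype W] [DecidableEq W] [Fintype V] [DecidableEq V] (A : V → V → Prop)
    (hA : Tour A) (hc : Fintype.card V + 2 = 2 * Fintype.card W) (D : W → W → Prop) (hD : OT D)
    (v : W) (s : ℕ) (hs : (OL D v).card + s = Fintype.card W)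
    (hb : 41 * (s + C0) ≤ (OL D v).card) : Cont A D := by
  obtain ⟨par, dep, sgn, hR, hrep⟩ := h4 W D hD v
  have h := h5 W V A D v par dep sgn hD.1 hR hrep
  apply h.1
  exact h2 W V A hA hc v par dep hR sgn (OL D v) h.2.2.1.2.2 h.2.2.1.2.1 s hs hb

theorem ol_disj {W : Type} [Fintype W] [DecidableEq W] (D : W → W → Prop)
    (hD : ∀ a b, D a b → ¬ D b a) (v u : W) : Disjoint (OL D v) (OL (Op D) u) := by
  rw [Finset.disjoint_left]
  intro c hc hc'
  simp only [OL, Finset.mem_filter, Finset.mem_univ, true_and, Op] at hc hc'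
  have h1 : u = v := hc.2 u (Or.inr hc'.1)
  subst h1
  exact hD _ _ hc.1 hc'.1

theorem ol_add {W : Type} [Fintype W] [DecidableEq W] (D : W → W → Prop)
    (hD : ∀ a b, D a b → ¬ D b a) (v u : W) :
    (OL D v).card + (OL (Op D) u).card ≤ Fintype.card W := by
  rw [← Finset.card_union_of_disjoint (ol_disj D hD v u)]
  exact Finset.card_le_univ _

theorem mid_mono {V : Type} [Fintype V] (A : V → V → Prop) {a b a' b' : ℕ} (ha : a ≤ a')
    (hb : b ≤ b') : mid A a' b' ⊆ mid A a b := by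
  intro x hx
  simp only [mid, Finset.mem_filter, Finset.mem_univ, true_and] at hx ⊢
  exact ⟨ha.trans hx.1, hb.trans hx.2⟩

theorem FIN3 (h1 : HVY3_stmt) (h2 : E13_stmt) (h3 : E23_stmt) (h4 : BRG_stmt) (h5 : REP_stmt)
    (_h6 : REV_stmt) : FIN3_stmt := by
  intro n hn T hT1 hT2 D hD1 hD2
  have hA : Tour T.Adj := ⟨hT1, hT2⟩
  have hD : OT D.Adj := ⟨hD1, hD2⟩
  suffices hmain : Cont T.Adj D.Adj from hmain
  have hA' : Tour (Op T.Adj) := ⟨fun u v h h' => hT1 v u h h', fun u v huv => hT2 v u huv.symm⟩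
  have hD' : OT (Op D.Adj) := ot_op hD
  have hc : Fintype.card (Fin (2 * n - 2)) + 2 = 2 * Fintype.card (Fin n) := by
    simp only [Fintype.card_fin]; omega
  obtain ⟨w, hw⟩ : ∃ w, w = n / 129930000 := ⟨_, rfl⟩
  have hw1 : 129930000 * w ≤ n := by omega
  have hw2 : 10 ^ 21 ≤ w := by omega
  have hC : C0 = 10000000 := rfl
  have hcf : Fintype.card (Fin n) = n := Fintype.card_fin n
  rcases h1 n hn T.Adj hA D.Adj hD with h | ⟨P, Q, hPQ, hPQ2, hmid, i1, i2, i3, i4⟩
  · exact h
  rw [← hw] at hPQ2 hmid i1 i2 i3 i4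
  have one : ∀ (v : Fin n), 42 * (n - (OL D.Adj v).card) + 41 * C0 ≤ n → Cont T.Adj D.Adj := by
    intro v hv
    have hle : (OL D.Adj v).card ≤ n := by
      have := Finset.card_le_univ (OL D.Adj v); rwa [hcf] at this
    refine oneSided h2 h4 h5 _ _ T.Adj hA hc D.Adj hD v (n - (OL D.Adj v).card) ?_ ?_
    · rw [hcf]; omega
    · omega
  have one' : ∀ (v : Fin n), 42 * (n - (OL (Op D.Adj) v).card) + 41 * C0 ≤ n →
      Cont T.Adj D.Adj := by
    intro v hv
    have hle : (OL (Op D.Adj) v).card ≤ n := by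
      have := Finset.card_le_univ (OL (Op D.Adj) v); rwa [hcf] at this
    apply cont_op
    refine oneSided h2 h4 h5 _ _ (Op T.Adj) hA' hc (Op D.Adj) hD' v
      (n - (OL (Op D.Adj) v).card) ?_ ?_
    · rw [hcf]; omega
    · omega
  by_cases hP : 3060000 * w ≤ P
  · by_cases hQ : 3060000 * w ≤ Q
    · obtain ⟨v, hv⟩ := i1 hP (by omega)
      obtain ⟨u, hu⟩ := i3 hQ (by omega)
      have hdis := ol_add D.Adj hD.1 v u
      rw [hcf] at hdis
      refine h3 _ _ T.Adj hA hc D.Adj hD v u (n - (OL D.Adj v).card - (OL (Op D.Adj) u).card)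
        (66910 * w) (34106 * w) (1501 * w) ?_ ?_ ?_ ?_ ?_ ?_
      · rw [hcf]; omega
      · omega
      · omega
      · omega
      · omega
      · refine le_trans (Finset.card_le_card (mid_mono T.Adj ?_ ?_)) hmid
        · omega
        · omega
    · by_cases hQ2 : 8504 * w ≤ Q
      · obtain ⟨v, hv⟩ := i1 hP hQ2
        exact one v (by omega)
      · obtain ⟨v, hv⟩ := i2 (by omega) (by omega)
        exact one v (by omega)
  · by_cases hQ : 3060000 * w ≤ Q
    · by_cases hP2 : 8504 * w ≤ P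
      · obtain ⟨v, hv⟩ := i3 hQ hP2
        exact one' v (by omega)
      · obtain ⟨v, hv⟩ := i4 (by omega) (by omega)
        exact one' v (by omega)
    · omega

end Pool.Agent.Helper18.SU
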