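import Pool.Agent.Helper18.SU.Defs2

/-!
Oriented trees in tournaments, part 2: for all `n ≥ 10 ^ 250` every oriented tree with `n`
vertices is contained in every tournament with `2 n - 2` vertices. The statements of the packets,
each with its complete paper proof.

Conventions: `r, par, dep` is a rooted tree on `W` (`Rooted r par dep`: `par r = r`), `sgn c` is
the sign of the edge between `par c` and `c` (`true`: the arc goes from `par c` to `c`).
`Emb A r par sgn S X f` (SU/Defs) : `f` embeds the part `S` of the tree into `X`. `dsc par c` is the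
subtree at `c`, `dsi par S c` its part in `S`, `tops par K` the vertices outside `K` with parent in
`K`. `nb A d X x` : the neighbours of `x` in `X` in direction `d`.
-/

set_option autoImplicit false

namespace Pool.Agent.Helper18.SU

/-! ### Tools -/

/-- SUBT. Every part `S` of the tree embeds in every set with `3 |S| + C0` vertices. Assume
`TRA_stmt`, `NUM_stmt` (both in SU/Goals).

PROOF. `S = ∅`: `X` is nonempty, take a constant function. Otherwise let `s = |S| ≥ 1`,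
`W' = Option {w // w ∈ S}`, root `none`, `par' (some w) = some (par w)` if `w ≠ r` and
`par w ∈ S`, and `par' _ = none` otherwise; `sgn' (some w) = sgn w`, `sgn' none = true`. A depth
`dep'` with `dep' none = 0`, `dep' (par' v) + 1 = dep' v` for `v ≠ none`: define it by strong
induction on `dep w` (`dep (par w) < dep w` for `w ≠ r`); for instance `dep' (some w)` = one plus
the number of steps until `par^[k] w` leaves `S` or reaches `r`. `|W'| = s + 1 =: n'`. Every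
nonempty set embeds the core `{none}`, so `F = 1` in TRA. NUM for `n', s, F = 1` gives `L, R` with
`1 + 2 s + 27 L R + 4 √(2 L R s) ≤ 1 + 2 s + erf n' s` and `2 (1 + 2 s + erf n' s + 1) ≤ exp L`. Choose
`X' ⊆ X` with `|X'| = ⌈1 + 2 s + erf n' s⌉`; possible as
`1 + 2 s + erf n' s + 1 ≤ 3 s + C0`. TRA gives `f'`, put `f w = f' (some w)` on `S` (arbitrary
elsewhere); for `v ∈ S`, `v ≠ r`, `par v ∈ S` we have `par' (some v) = some (par v)`.
Numbers: with `u = (s+1)^(1/4) ≥ 1`: `log (s+1) = 4 log u ≤ 4 (u - 1)`, so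
`erf n' s ≤ 8 u² (4 u - 1) + 54 (4 u - 4) (4 u + 2) = 32 u³ + 856 u² - 432 u - 432`, and this is
`≤ u⁴ + 9999997 - 1` for all `u ≥ 1` (for `u ≥ 60`: `u⁴ ≥ 32 u³ + 856 u²` as `u² - 32 u - 856 ≥ 0`; for
`u ≤ 60`: `32 u³ + 856 u² ≤ 32 · 216000 + 856 · 3600 ≤ 9993600`). -/
def SUBT_stmt : Prop :=
  ∀ (W V : Type) [Fintype W] [DecidableEq W] [DecidableEq V] (A : V → V → Prop), Tour A →
    ∀ (r : W) (par : W → W) (dep : W → ℕ), Rooted r par dep → ∀ (sgn : W → Bool)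
      (S : Finset W) (X : Finset V), 3 * S.card + C0 ≤ X.card →
      ∃ f : W → V, Emb A r par sgn S X f

/-- CAN. Assume `SUBT_stmt`.

PROOF. `f` from SUBT for `dsi par S c` and `X`; `U` = the image of `dsi par S c` under `f`:
`U ⊆ X`, `U.card = (dsi par S c).card = bsz par S c` by injectivity (`Finset.card_image_of_injOn`),
and `f` embeds `dsi par S c` into `U`. -/
def CAN_stmt : Prop :=
  ∀ (W V : Type) [Fintype W] [DecidableEq W] [DecidableEq V] (A : V → V → Prop), Tour A →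
    ∀ (r : W) (par : W → W) (dep : W → ℕ), Rooted r par dep → ∀ (sgn : W → Bool) (S : Finset W),
      Can (bsz par S) (itm A r par sgn S)

/-- GRE. Greedy placement.

PROOF. Induction over subsets `J ⊆ I` (`Finset.induction_on`): there is `U` with
`Plc b good O J U`. Step `insert c J`: the set `F = J.biUnion U` has at most `∑ i ∈ J, b i`
elements, so `|O c \ F| ≥ ∑ i ∈ I, b i + 2 β + C0 - ∑ i ∈ J, b i ≥ b c + 2 β + C0 ≥ 3 b c + C0`
(`c ∈ I \ J`). `Can` gives `U' ⊆ O c \ F`; take `Function.update U c U'`. -/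
def GRE_stmt : Prop :=
  ∀ (ι V : Type) [DecidableEq ι] [DecidableEq V] (b : ι → ℕ) (good : ι → Finset V → Prop),
    Can b good → ∀ (O : ι → Finset V) (I : Finset ι) (β : ℕ), (∀ c ∈ I, b c ≤ β) →
      (∀ c ∈ I, ∑ i ∈ I, b i + 2 * β + C0 ≤ (O c).card) → ∃ U, Plc b good O I U

/-- TG. The exchange lemma for two groups. Assume `GRE_stmt`.

PROOF. Let `T = ∑ i ∈ I ∪ J, b i = ∑ I + ∑ J`. Show by induction on `J' ⊆ J`: there is `U` with
`Plc b good O (I ∪ J') U`. `J' = ∅`: GRE for `I`: `|O i| ≥ T - κ = ∑ I + (∑ J - κ) ≥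
∑ I + 2 β + C0`. Step: `U` for `I ∪ J'`, `j ∈ J \ J'`. Let `F = ⋃ U c` over `c ∈ I ∪ J'`;
`|F| = ∑ (I ∪ J') ≤ T - b j`. If `|O j \ F| ≥ 3 b j + C0`, place `j` in `O j \ F` (`Can`). Otherwise
`|O j \ F| < 3 b j + C0`, so `|F ∩ O j| > |O j| - 3 b j - C0 ≥ T - κ - 3 b j - C0` and
`|F \ O j| = |F| - |F ∩ O j| ≤ κ + 2 b j + C0 ≤ κ + 2 β + C0` (*).
Hence `∑ i ∈ I, |U i ∩ O j| ≥ ∑ I - (κ + 2 β + C0) ≥ 3 β + C0`. Choose `M ⊆ I` of minimal
cardinality with `∑ i ∈ M, |U i ∩ O j| ≥ 3 β + C0`; removing one element of `M` makes the sum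
`< 3 β + C0`, so `∑ i ∈ M, |U i ∩ O j| ≤ 4 β + C0` (if `M = ∅` then trivially). With (*):
`∑ i ∈ M, b i = ∑ i ∈ M, |U i| ≤ (4 β + C0) + (κ + 2 β + C0) = κ + 6 β + 2 C0`.
Keep the places of `(I \ M) ∪ J'`, with union `F' ⊆ F`. Place `M` anew with GRE and
`O' i = (O i \ O j) \ F'`: `|O' i| ≥ τ - |F \ O j| ≥ 2 κ + 11 β + 4 C0 - (κ + 2 β + C0) =
κ + 9 β + 3 C0 ≥ ∑ M + 2 β + C0`. The new places of `M` avoid `O j` and `F'`.
Finally `|O j \ (new union)| ≥ ∑ i ∈ M, |U i ∩ O j| ≥ 3 β + C0 ≥ 3 b j + C0` (the sets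
`U i ∩ O j`, `i ∈ M`, are disjoint, contained in `O j`, and now free), so `j` can be placed. -/
def TG_stmt : Prop :=
  ∀ (ι V : Type) [DecidableEq ι] [DecidableEq V] (b : ι → ℕ) (good : ι → Finset V → Prop),
    Can b good → ∀ (O : ι → Finset V) (I J : Finset ι) (β κ τ : ℕ), Disjoint I J →
      (∀ c ∈ I ∪ J, b c ≤ β) →
      (∀ c ∈ I ∪ J, ∑ i ∈ I ∪ J, b i ≤ (O c).card + κ) →
      (∀ i ∈ I, ∀ j ∈ J, τ ≤ (O i \ O j).card) →
      κ + 5 * β + 2 * C0 ≤ ∑ i ∈ I, b i → κ + 2 * β + C0 ≤ ∑ j ∈ J, b j →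
      2 * κ + 11 * β + 4 * C0 ≤ τ → ∃ U, Plc b good O (I ∪ J) U

/-- DSC. Facts about subtrees.

PROOF. (1) `k = 0`. (2) `par^[k] w = c`, `w ≠ c`, so `k = k' + 1` and `par^[k'] (par w) = c`.
(3) `Function.iterate_succ_apply`. (4) by induction on `k`: `w = r` would give `c = r = w`; so
`w ≠ r`, `dep (par w) < dep w`, and `par w ∈ dsc par c` by (2), `dep c ≤ dep (par w)`.
(5a) induction on `dep w`: `w ≠ r`; if `par w ∈ S` then `c = w`, otherwise the `c` of `par w`, (3).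
(5b) `c ≠ r` because `r ∈ S`. If `w ∈ S` and `par^[k] w = c` then `c ∈ S` by closedness.
(5c) `par^[i] w = c`, `par^[j] w = c'`, say `i < j`: `c' = par^[j-i-1] (par c) ∈ S`, contradiction;
`i = j` gives `c = c'`. (5d) `univ` is the disjoint union of `S` and the `dsc par c`. (5e) split
(5d) by the sign. (6) `par^[dep w] w = r` by induction on `dep w`. (7) compose iterates. -/
def DSC_stmt : Prop :=
  ∀ (W : Type) [Fintype W] [DecidableEq W] (r : W) (par : W → W) (dep : W → ℕ),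
    Rooted r par dep →
    (∀ c, c ∈ dsc par c) ∧
    (∀ c w, w ∈ dsc par c → w ≠ c → par w ∈ dsc par c) ∧
    (∀ c w, par w ∈ dsc par c → w ∈ dsc par c) ∧
    (∀ c w, w ∈ dsc par c → w ≠ c → dep c < dep w) ∧
    (∀ w, w ∈ dsc par r) ∧
    (∀ a b c, a ∈ dsc par b → b ∈ dsc par c → a ∈ dsc par c) ∧
    (∀ S : Finset W, r ∈ S → (∀ v ∈ S, par v ∈ S) →
      (∀ w, w ∉ S → ∃ c ∈ tops par S, w ∈ dsc par c) ∧
      (∀ c ∈ tops par S, c ≠ r ∧ Disjoint (dsc par c) S) ∧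
      (∀ c ∈ tops par S, ∀ c' ∈ tops par S, c ≠ c' → Disjoint (dsc par c) (dsc par c')) ∧
      S.card + ∑ c ∈ tops par S, (dsc par c).card = Fintype.card W ∧
      (∀ sgn : W → Bool, S.card + mas par sgn S true + mas par sgn S false = Fintype.card W))

/-- GLUE. Gluing embedded subtrees to an embedded core. Assume `DSC_stmt`.

PROOF. For `w ∈ S \ S₀` there is a unique `c ∈ tops par S₀` with `w ∈ dsc par c` (DSC), and `c ∈ S`
by closedness of `S` (`c = par^[k] w`). Choose for every `c` an embedding `g c` of `dsi par S c` into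
`U c` (from `itm`). `f w = f₀ w` for `w ∈ S₀`, `f w = g c w` for `w ∈ S \ S₀`. Injectivity: inside
`S₀` and inside one `c` clear, different tops: disjoint `U`'s, core against component: `U c` avoids
`S₀.image f₀`. Arcs: `v ∈ S`, `v ≠ r`: if `v ∈ S₀` then `par v ∈ S₀`; if `v ∉ S₀`, `v ∈ dsc par c`:
for `v ≠ c` also `par v ∈ dsi par S c`, an arc of `g c` (`par v ∉ S₀` by disjointness); for `v = c`,
`f c ∈ U c ⊆ nb A (sgn c) univ (f₀ (par c))`, which is the required arc. -/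
def GLUE_stmt : Prop :=
  ∀ (W V : Type) [Fintype W] [DecidableEq W] [Fintype V] [DecidableEq V] (A : V → V → Prop)
    (r : W) (par : W → W) (dep : W → ℕ), Rooted r par dep → ∀ (sgn : W → Bool)
    (S₀ S : Finset W), r ∈ S₀ → (∀ v ∈ S₀, par v ∈ S₀) → S₀ ⊆ S → (∀ v ∈ S, par v ∈ S) →
    ∀ f₀ : W → V, Emb A r par sgn S₀ Finset.univ f₀ →
    ∀ U : W → Finset V,
      (∀ c ∈ tops par S₀, c ∈ S → itm A r par sgn S c (U c)) →
      (∀ c ∈ tops par S₀, c ∈ S →
        U c ⊆ nb A (sgn c) Finset.univ (f₀ (par c)) \ S₀.image f₀) →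
      (∀ c ∈ tops par S₀, c ∈ S → ∀ c' ∈ tops par S₀, c' ∈ S → c ≠ c' →
        Disjoint (U c) (U c')) →
      ∃ f : W → V, Emb A r par sgn S Finset.univ f ∧ (∀ w ∈ S₀, f w = f₀ w) ∧
        ∀ c ∈ tops par S₀, c ∈ S → ∀ w ∈ dsi par S c, f w ∈ U c

/-- GLU. The special case of the whole tree and two signs. Assume `DSC_stmt`, `GLUE_stmt`.

PROOF. GLUE with `S = univ`, `U c = U₁ c` if `sgn c = true` and `U₀ c` if `sgn c = false`
(`tops par K` is the disjoint union of `topd par sgn K true` and `topd par sgn K false`). Disjointness: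
inside one sign by `Plc`; for different signs by the hypothesis. -/
def GLU_stmt : Prop :=
  ∀ (W V : Type) [Fintype W] [DecidableEq W] [Fintype V] [DecidableEq V] (A : V → V → Prop)
    (r : W) (par : W → W) (dep : W → ℕ), Rooted r par dep → ∀ (sgn : W → Bool)
    (K : Finset W), r ∈ K → (∀ v ∈ K, par v ∈ K) →
    ∀ f₀ : W → V, Emb A r par sgn K Finset.univ f₀ →
    ∀ (U₁ U₀ O₁ O₀ : W → Finset V),
      Plc (bsz par Finset.univ) (itm A r par sgn Finset.univ) O₁ (topd par sgn K true) U₁ →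
      Plc (bsz par Finset.univ) (itm A r par sgn Finset.univ) O₀ (topd par sgn K false) U₀ →
      (∀ c ∈ topd par sgn K true,
        O₁ c ⊆ nb A true Finset.univ (f₀ (par c)) \ K.image f₀) →
      (∀ c ∈ topd par sgn K false,
        O₀ c ⊆ nb A false Finset.univ (f₀ (par c)) \ K.image f₀) →
      (∀ c ∈ topd par sgn K true, ∀ c' ∈ topd par sgn K false, Disjoint (U₁ c) (U₀ c')) →
      Full (V := V) A r par sgn

/-- DEG. Facts about neighbourhoods.

PROOF. (1), (2): for `y ≠ x` exactly one of `A x y`, `A y x` holds, and `A x x` never holds.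
(3) double counting of the pairs `(x, y) ∈ X × Y` with `Arc A d x y`, i.e. `Arc A (!d) y x`.
(4) sum of (2) over `x ∈ X` and (3) with `Y = X`: the two sums over `d = true` and `d = false` are
equal, and their sum plus `|X|` is `|X|²`. (5) from (4): `|X|² ≤ 2 |X| g + |X|`. (6) `nb` of a
union/subset: filters. -/
def DEG_stmt : Prop :=
  ∀ (V : Type) [DecidableEq V] (A : V → V → Prop), Tour A →
    (∀ (X : Finset V) (x : V), x ∉ X → (nb A true X x).card + (nb A false X x).card = X.card) ∧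
    (∀ (X : Finset V) (x : V), x ∈ X →
      (nb A true X x).card + (nb A false X x).card + 1 = X.card) ∧
    (∀ (d : Bool) (X Y : Finset V),
      ∑ x ∈ X, (nb A d Y x).card = ∑ y ∈ Y, (nb A (!d) X y).card) ∧
    (∀ (d : Bool) (X : Finset V), 2 * ∑ x ∈ X, (nb A d X x).card + X.card = X.card ^ 2) ∧
    (∀ (d : Bool) (X : Finset V) (g : ℕ), (∀ x ∈ X, (nb A d X x).card ≤ g) →
      X.card ≤ 2 * g + 1) ∧
    (∀ (d : Bool) (X Y : Finset V) (x : V), X ⊆ Y → nb A d X x ⊆ nb A d Y x) ∧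
    (∀ (X : Finset V) (x : V), Disjoint (nb A true X x) (nb A false X x)) ∧
    (∀ (d : Bool) (X : Finset V) (x : V), x ∉ nb A d X x)

/-- SIZ. Sizes of the classes. Assume `DEG_stmt`.

PROOF. (1) for `x ∈ X = low A d c`: `|nb A d X x| ≤ |nb A d univ x| ≤ c - 1`; DEG (5). (2) every
`x` is in one of the three sets. (3) DEG (2). -/
def SIZ_stmt : Prop :=
  ∀ (V : Type) [Fintype V] [DecidableEq V] (A : V → V → Prop), Tour A →
    (∀ (d : Bool) (c : ℕ), 1 ≤ c → (low A d c).card + 1 ≤ 2 * c) ∧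
    (∀ a b : ℕ, Fintype.card V ≤
      (low A true a).card + (low A false b).card + (mid A a b).card) ∧
    (∀ x : V, (nb A true Finset.univ x).card + (nb A false Finset.univ x).card + 1 =
      Fintype.card V)

/-- REV. Reversal.

PROOF. Unfold; `Arc (Op A) d x y` is `Arc A (!d) x y` (cases on `d`). For `Emb` the arc condition
at `v` is `Arc (Op A) (!sgn v) (f (par v)) (f v) ↔ Arc A (sgn v) (f (par v)) (f v)`. `topd` and
`mas` with the opposite sign: `(!sgn c) = d ↔ sgn c = !d`. -/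
def REV_stmt : Prop :=
  ∀ (W V : Type) [Fintype W] [Fintype V] (A : V → V → Prop) (r : W)
    (par : W → W) (dep : W → ℕ) (sgn : W → Bool) (K : Finset W) (β m : ℕ),
    (Tour A → Tour (Op A)) ∧
    (∀ d x y, Arc (Op A) d x y ↔ Arc A (!d) x y) ∧
    (∀ d (X : Finset V) x, nb (Op A) d X x = nb A (!d) X x) ∧
    (∀ d c, low (Op A) d c = low A (!d) c) ∧
    (∀ a b, mid (Op A) a b = mid A b a) ∧
    (∀ (S : Finset W) (X : Finset V) (f : W → V),
      Emb (Op A) r par (fun w => !sgn w) S X f ↔ Emb A r par sgn S X f) ∧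
    (Full (V := V) (Op A) r par (fun w => !sgn w) ↔ Full (V := V) A r par sgn) ∧
    (∀ d, topd par (fun w => !sgn w) K d = topd par sgn K (!d)) ∧
    (∀ d, mas par (fun w => !sgn w) K d = mas par sgn K (!d)) ∧
    (Ctx A r par dep K β m → Ctx (Op A) r par dep K β m)

/-! ### Case I: many vertices with both degrees large -/

/-- CI1. Core in `X`, then the components of sign `d`, then the others. Assume `SUBT_stmt`,
`CAN_stmt`, `GRE_stmt`, `DSC_stmt`, `GLU_stmt`.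

PROOF. SUBT: `f₀` embeds `K` into `X` (`|K| ≤ m`). GRE for `I = topd par sgn K d`,
`O c = nb A d univ (f₀ (par c)) \ K.image f₀` : `|O c| ≥ mas d + 2 β + m + C0 - |K| ≥
mas d + 2 β + C0` (`bsz par univ c = (dsc par c).card ≤ β`, `∑ = mas d`). Let `F` be the union of the
places, `|F| = mas d`. GRE for `I = topd par sgn K (!d)`, `O c = (nb A (!d) univ (f₀ (par c)) \
K.image f₀) \ F`: `|O c| ≥ |W| + 2 β + C0 - |K| - mas d = mas (!d) + 2 β + C0` by DSC. GLU (cases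
on `d`). -/
def CI1_stmt : Prop :=
  ∀ (W V : Type) [Fintype W] [DecidableEq W] [Fintype V] [DecidableEq V] (A : V → V → Prop)
    (r : W) (par : W → W) (dep : W → ℕ) (sgn : W → Bool) (K : Finset W) (β m : ℕ),
    Ctx A r par dep K β m → ∀ (d : Bool) (X : Finset V), 3 * m + C0 ≤ X.card →
      (∀ x ∈ X, mas par sgn K d + 2 * β + m + C0 ≤ (nb A d Finset.univ x).card) →
      (∀ x ∈ X, Fintype.card W + 2 * β + C0 ≤ (nb A (!d) Finset.univ x).card) →
      Full (V := V) A r par sgn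

/-- CI3. Core in a set whose vertices have pairwise many common out-neighbours. Assume
`SUBT_stmt`, `CAN_stmt`, `TG_stmt`, `DSC_stmt`, `DEG_stmt`, `GLU_stmt`.

PROOF. SUBT: `f₀` embeds `K` into `X`. TG with `I = topd true`, `J = topd false`,
`O c = nb A (sgn c) univ (f₀ (par c)) \ K.image f₀`, the given `β, κ, τ`. Total mass
`= |W| - |K|`, `|O c| ≥ |W| - κ - |K|`. For `i ∈ I`, `j ∈ J`, `x = f₀ (par i)`, `y = f₀ (par j)`:
`O i \ O j ⊇ (nb A true univ x ∩ nb A true univ y) \ K.image f₀` (a vertex of `nb A true univ y`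
is not in `nb A false univ y`), of size `≥ τ + m - |K| ≥ τ` if `x ≠ y`; if `x = y` the size is
`≥ |W| - κ - m ≥ τ`. `Plc` on `I ∪ J` gives `Plc` on `I` and on `J`; GLU with `U₁ = U₀ = U`
(disjointness across signs from `Plc` on the union, `I` and `J` are disjoint). -/
def CI3_stmt : Prop :=
  ∀ (W V : Type) [Fintype W] [DecidableEq W] [Fintype V] [DecidableEq V] (A : V → V → Prop)
    (r : W) (par : W → W) (dep : W → ℕ) (sgn : W → Bool) (K : Finset W) (β m : ℕ),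
    Ctx A r par dep K β m → ∀ (X : Finset V) (κ τ : ℕ), 3 * m + C0 ≤ X.card →
      (∀ x ∈ X, ∀ d : Bool, Fintype.card W ≤ (nb A d Finset.univ x).card + κ) →
      (∀ x ∈ X, ∀ y ∈ X, x ≠ y →
        τ + m ≤ (nb A true Finset.univ x ∩ nb A true Finset.univ y).card) →
      τ + κ + m ≤ Fintype.card W →
      κ + 5 * β + 2 * C0 ≤ mas par sgn K true → κ + 2 * β + C0 ≤ mas par sgn K false →
      2 * κ + 11 * β + 4 * C0 ≤ τ → Full (V := V) A r par sgn

/-- DRC. Dependent random choice.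

PROOF. `N = card V`. For `v : Fin t → V` let `X v = {x ∈ M : ∀ i, v i ∈ nb A d univ x}` and
`Z v` = the number of pairs `(x, y) ∈ X v × X v`, `x ≠ y`, with
`|nb x ∩ nb y| < τ`. `∑ v, |X v| = ∑ x ∈ M, |nb x| ^ t ≥ |M| a ^ t` (the functions with all
values in a set `S` number `|S| ^ t`: `Fintype.piFinset`, `Fintype.card_piFinset_const`), and
`∑ v, Z v = ∑ over bad pairs of |nb x ∩ nb y| ^ t ≤ |M|² τ ^ t`. If the claim fails, then for every
`v` either `|X v| ≤ μ - 1` or `Z v ≥ 1`, in both cases `|X v| ≤ (μ - 1) + |M| Z v`. Sum: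
`|M| a^t ≤ (μ - 1) N^t + |M|³ τ^t`, contradicting the hypothesis as `N^t ≥ 1` (`V` is nonempty). -/
def DRC_stmt : Prop :=
  ∀ (V : Type) [Fintype V] [DecidableEq V] (A : V → V → Prop) (d : Bool) (M : Finset V)
    (μ a τ t : ℕ), M.Nonempty → 1 ≤ μ → (∀ x ∈ M, a ≤ (nb A d Finset.univ x).card) →
    μ * Fintype.card V ^ t + M.card ^ 3 * τ ^ t ≤ M.card * a ^ t →
    ∃ X ⊆ M, μ ≤ X.card ∧ ∀ x ∈ X, ∀ y ∈ X, x ≠ y →
      τ ≤ (nb A d Finset.univ x ∩ nb A d Finset.univ y).card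

/-- C1. Case I. Assume `CI1_stmt`, `CI3_stmt`, `DRC_stmt`, `DSC_stmt`, `SIZ_stmt`.

PROOF. `n = |W|`, `N = |V| = 2 n - 2`, `p = mas true`, `q = mas false`, `p + q + |K| = n` (DSC),
`μ = 3 m + C0 ≤ β` by the hypothesis on `t` (`4^t ≥ 1`), `2 ≤ C0 ≤ β`. `M' = mid A (p + 16 β)
(q + 16 β)`, `H = 4 β`; degrees: `d⁺ + d⁻ = 2 n - 3` (SIZ). `R1 = {x ∈ M' : d⁺ + H + 1 ≤ n}`,
`R2 = {x ∈ M' : d⁻ + H + 1 ≤ n}`, `R3` the rest of `M'`.
`|R1| ≥ μ`: CI1 with `d = true`: `d⁺ ≥ p + 16 β ≥ p + 2 β + m + C0`,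
`d⁻ ≥ 2 n - 3 - (n - 4 β - 1) = n - 2 + 4 β ≥ n + 2 β + C0`. `|R2| ≥ μ`: CI1 with `d = false`.
Otherwise `|R3| ≥ 9 β - 2 μ ≥ β`; on `R3` both degrees are `≥ n - H`.
If `q ≤ 11 β`: CI1 with `d = false`, `X = R3` (`|R3| ≥ β ≥ μ`): `d⁻ ≥ q + 16 β`, and
`d⁺ ≥ p + 16 β ≥ n + 2 β + C0` because `n = p + q + |K| ≤ p + 12 β`. If `p ≤ 11 β`: CI1 with
`d = true` in the same way. Otherwise choose `M ⊆ R3` with `|M| = β` and apply DRC with `d = true`,
`a = n - 4 β`, `τ' = τ + m ≤ 24 β` where `τ = 2 κ + 11 β + 4 C0`, `κ = 4 β`: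
(i) `2 μ N^t ≤ β a^t`: `N ≤ 4 a`, `2 μ 4^t ≤ β`. (ii) `2 β³ τ'^t ≤ β a^t`: `8192 τ' ≤ a`
(`196608 β ≤ n - 4 β`), so `a^t ≥ 2^(13 t) τ'^t ≥ 8 n² τ'^t ≥ 2 β² τ'^t`. Then CI3 with the `X` of
DRC: `κ + 5 β + 2 C0 ≤ 11 β < p`, `κ + 2 β + C0 ≤ 11 β < q`, `τ + κ + m ≤ n`. -/
def C1_stmt : Prop :=
  ∀ (W V : Type) [Fintype W] [DecidableEq W] [Fintype V] [DecidableEq V] (A : V → V → Prop)
    (r : W) (par : W → W) (dep : W → ℕ) (sgn : W → Bool) (K : Finset W) (β m t : ℕ),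
    Ctx A r par dep K β m → C0 ≤ β → m ≤ β → 1000000000000 * β ≤ Fintype.card W →
    8 * Fintype.card W ^ 2 ≤ 2 ^ (13 * t) → 2 * (3 * m + C0) * 4 ^ t ≤ β →
    9 * β ≤ (mid A (mas par sgn K true + 16 * β) (mas par sgn K false + 16 * β)).card →
    Full (V := V) A r par sgn

/-! ### Case II: almost no vertex has both degrees large -/

/-- ASZ. The size of the set `X` of vertices of out-degree less than `p + G`. Assume `SIZ_stmt`,
`DSC_stmt`, `DEG_stmt`.

PROOF. `p + q + |K| = n`, `|K| ≥ 1`. `|V| = 2 n - 2 ≥ 2 p + 2 q`. SIZ: `|low A false (q + G)| ≤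
2 q + 2 G - 1`, so `|X| ≥ 2 p + 2 q - (2 q + 2 G) - R`. `|X| ≤ 2 (p + G)`. The last claim: `nb` in
`X` is contained in `nb` in `univ`. -/
def ASZ_stmt : Prop :=
  ∀ (W V : Type) [Fintype W] [DecidableEq W] [Fintype V] [DecidableEq V] (A : V → V → Prop)
    (r : W) (par : W → W) (dep : W → ℕ) (sgn : W → Bool) (K : Finset W) (β m G R : ℕ),
    Ctx A r par dep K β m → 1 ≤ G →
    (mid A (mas par sgn K true + G) (mas par sgn K false + G)).card ≤ R →
    2 * mas par sgn K true ≤ (low A true (mas par sgn K true + G)).card + (2 * G + R) ∧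
    (low A true (mas par sgn K true + G)).card ≤ 2 * mas par sgn K true + 2 * G ∧
    ∀ x ∈ low A true (mas par sgn K true + G),
      (nb A true (low A true (mas par sgn K true + G)) x).card < mas par sgn K true + G ∧
      (nb A true Finset.univ x).card < mas par sgn K true + G

/-- TYP. Few atypical vertices. Assume `DEG_stmt`.

PROOF. `k = |X \ typ|`. `2 ∑ x ∈ X, |nb A true X x| = |X|² - |X|` (DEG 4). Typical vertices
contribute at most `p + G` each, the others at most `p - E2` (their value is `< p - E2`), so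
`|X|² - |X| ≤ 2 (|X| - k) (p + G) + 2 k (p - E2) = 2 |X| (p + G) - 2 k (E2 + G)` and
`2 k (E2 + G) ≤ |X| (2 p + 2 G + 1 - |X|) ≤ |X| (2 G + E1 + 1)`. -/
def TYP_stmt : Prop :=
  ∀ (V : Type) [DecidableEq V] (A : V → V → Prop), Tour A → ∀ (X : Finset V) (p G E1 E2 : ℕ),
    (∀ x ∈ X, (nb A true X x).card ≤ p + G) → 2 * p ≤ X.card + E1 →
    2 * (X \ typ A X p E2).card * (E2 + G) ≤ X.card * (2 * G + E1 + 1)

/-- IND. Placing the components of sign `false` when the core is in the typical set. Assume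
`CAN_stmt`, `GRE_stmt`, `DSC_stmt`, `DEG_stmt`.

PROOF. `n = |W|`, `p = mas true`, `q = mas false`, `X = low A true (p + G)`, `Y = univ \ X`,
`|Y| = 2 n - 2 - |X| ≥ 2 q + 2 |K| - 2 - 2 G ≥ 2 q - 2 G`. For `x = f₀ (par c)` (in `typ ⊆ X`):
`|nb A true Y x| = |nb A true univ x| - |nb A true X x| ≤ (p + G - 1) - (p - E2) = G + E2 - 1`.
Case `q ≥ E3`: use `O' c = nb A false Y x` : `|O' c| ≥ |Y| - (G + E2 - 1) ≥ 2 q - 3 G - E2 + 1 ≥
q + 2 β + C0`. It is disjoint from `K.image f₀ ⊆ X`, GRE, the places are outside `X`.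
Case `q < E3`: `O' c = nb A false X x \ K.image f₀`: `|nb A false X x| = |X| - 1 - |nb A true X x| ≥
2 p - E1 - 1 - (p + G - 1) = p - E1 - G`, so `|O' c| ≥ p - E1 - G - m ≥ E3 + 2 β + C0 + 1 ≥
q + 2 β + C0`; GRE; all places together have `q < E3` vertices. In both cases `O' c ⊆ O c`. -/
def IND_stmt : Prop :=
  ∀ (W V : Type) [Fintype W] [DecidableEq W] [Fintype V] [DecidableEq V] (A : V → V → Prop)
    (r : W) (par : W → W) (dep : W → ℕ) (sgn : W → Bool) (K : Finset W)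
    (β m G E1 E2 E3 : ℕ), Ctx A r par dep K β m →
    2 * mas par sgn K true ≤ (low A true (mas par sgn K true + G)).card + E1 →
    (low A true (mas par sgn K true + G)).card ≤ 2 * mas par sgn K true + 2 * G →
    3 * G + E2 + 2 * β + C0 + 3 ≤ E3 →
    E1 + G + m + E3 + 2 * β + C0 + 1 ≤ mas par sgn K true →
    ∀ f₀ : W → V, Emb A r par sgn K
      (typ A (low A true (mas par sgn K true + G)) (mas par sgn K true) E2) f₀ →
    ∃ U : W → Finset V, Plc (bsz par Finset.univ) (itm A r par sgn Finset.univ)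
        (fun c => nb A false Finset.univ (f₀ (par c)) \ K.image f₀) (topd par sgn K false) U ∧
      (((topd par sgn K false).biUnion U) ∩ low A true (mas par sgn K true + G)).card ≤ E3

/-- FLX. Almost every vertex of `X` can be the image of `w`. Assume `SUBT_stmt`.

PROOF. Let `B` be the set in question. If `3 |S| + C0 ≤ |B|`, SUBT embeds `S` into `B`; the
embedding `f` is also one into `X ⊇ B`, and `f w ∈ B`, a contradiction. -/
def FLX_stmt : Prop :=
  ∀ (W V : Type) [Fintype W] [DecidableEq W] [DecidableEq V] (A : V → V → Prop), Tour A →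
    ∀ (r : W) (par : W → W) (dep : W → ℕ), Rooted r par dep → ∀ (sgn : W → Bool)
      (S : Finset W) (w : W), w ∈ S → ∀ (X B : Finset V), B ⊆ X →
      (∀ x ∈ B, ¬ ∃ f : W → V, Emb A r par sgn S X f ∧ f w = x) → B.card < 3 * S.card + C0

/-- KSPL. Splitting the core over two disjoint sets. Assume `SUBT_stmt`, `FLX_stmt`, `DSC_stmt`,
`DEG_stmt`.

PROOF. `K2 = cut par K C`, `K1 = K \ K2`. `v ∉ K2` (`v ∈ dsc par c` with `par c = v`, `c ≠ r`
contradicts `dep`), `r ∉ K2`, `K1` is closed under `par` (`par w ∈ K2` implies `w ∈ dsc par c`,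
DSC 3). For `w ∈ K2`: `par w ∈ K2` or `w ∈ C` (DSC 2), and then `par w = v`, `sgn w = σ`.
`c₀ = 3 |K| + C0`. By DEG: `∑ x ∈ X1, |nb A σ X2 x| + ∑ y ∈ X2, |nb A σ X1 y| = |X1| |X2|`
(second sum `= ∑ x ∈ X1, |nb A (!σ) X2 x|`). By symmetry let the first sum be at least half.
If every `x ∈ X1` either has `|nb A σ X2 x| < c₀` or belongs to the set `B` of the `x ∈ X1` which are
not the image of `v` under an embedding of `K1` in `X1` (FLX: `|B| < c₀`), then the first sum is at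
most `(c₀ - 1) |X2| + |X1| (c₀ - 1)`, twice of this is `< |X1| |X2|` because `|X_i| ≥ 4 c₀`: a
contradiction. So there are `x ∈ X1`, an embedding `f₁` of `K1` in `X1` with `f₁ v = x`, and
`|nb A σ X2 x| ≥ c₀`; SUBT embeds `K2` in `nb A σ X2 x` by `f₂`. Let `f₀ = f₂` on `K2` and `f₁` on
`K1`. -/
def KSPL_stmt : Prop :=
  ∀ (W V : Type) [Fintype W] [DecidableEq W] [DecidableEq V] (A : V → V → Prop), Tour A →
    ∀ (r : W) (par : W → W) (dep : W → ℕ), Rooted r par dep → ∀ (sgn : W → Bool)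
      (K : Finset W), r ∈ K → (∀ v ∈ K, par v ∈ K) →
      ∀ v ∈ K, ∀ (σ : Bool) (C : Finset W), (∀ c ∈ C, c ∈ K ∧ c ≠ r ∧ par c = v ∧ sgn c = σ) →
      ∀ (X1 X2 : Finset V), Disjoint X1 X2 → 4 * (3 * K.card + C0) ≤ X1.card →
        4 * (3 * K.card + C0) ≤ X2.card →
        ∃ f₀ : W → V, Emb A r par sgn K (X1 ∪ X2) f₀ ∧
          (((∀ w ∈ cut par K C, f₀ w ∈ X2) ∧ (∀ w ∈ K, w ∉ cut par K C → f₀ w ∈ X1)) ∨
           ((∀ w ∈ cut par K C, f₀ w ∈ X1) ∧ (∀ w ∈ K, w ∉ cut par K C → f₀ w ∈ X2)))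

/-- WT. A weighted separator. Assume `DSC_stmt`.

PROOF. `w(v) = ∑ x ∈ K ∩ dsc v, ω x`. `w(r) = ∑ x ∈ K, ω x =: p`. Choose `v ∈ K` of maximal depth
with `p ≤ w(v) + θ`. For a child `c ∈ K` of `v` (`c ≠ r`, `par c = v`) then `w(c) + θ < p`. If
some child `c` has `w(c) ≥ θ`, take `C = {c}`, `σ = sgn c`. Otherwise all children have
`w(c) < θ`. For a sign `σ` let `C_σ` be the children in `K` of sign `σ`. If
`∑ c ∈ C_σ, w(c) ≥ θ`, choose `C ⊆ C_σ` of minimal cardinality with `∑ c ∈ C, w(c) ≥ θ`; then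
`∑ c ∈ C, w(c) ≤ 2 θ` (delete one element), so `θ + ∑ ≤ 3 θ ≤ p`. The `dsc c`, `c ∈ C`, are
pairwise disjoint (children of the same vertex have the same depth), so the sum equals
`∑ x ∈ cut par K C, ω x`. If both sums are `< θ` then `w(v) ≤ ω v + 2 θ`, `p ≤ ω v + 3 θ`. -/
def WT_stmt : Prop :=
  ∀ (W : Type) [Fintype W] [DecidableEq W] (r : W) (par : W → W) (dep : W → ℕ),
    Rooted r par dep → ∀ (sgn : W → Bool) (K : Finset W), r ∈ K → (∀ v ∈ K, par v ∈ K) →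
    ∀ (ω : W → ℕ) (θ : ℕ), 3 * θ ≤ ∑ x ∈ K, ω x →
      ∃ v ∈ K, (∑ x ∈ K, ω x ≤ ω v + 3 * θ) ∨
        ∃ (σ : Bool) (C : Finset W), (∀ c ∈ C, c ∈ K ∧ c ≠ r ∧ par c = v ∧ sgn c = σ) ∧
          θ ≤ ∑ x ∈ cut par K C, ω x ∧ θ + ∑ x ∈ cut par K C, ω x ≤ ∑ x ∈ K, ω x

/-- WGT. The weights `ω v = wgt par sgn K {v}`.

PROOF. `wgt par sgn K S = ∑ x ∈ S, wgt par sgn K {x}`: partition `topv par sgn K S` by the parent
(`Finset.sum_fiberwise` or `Finset.sum_comm`). For `S = K` every `c ∈ topd par sgn K true` has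
`par c ∈ K`. -/
def WGT_stmt : Prop :=
  ∀ (W : Type) [Fintype W] [DecidableEq W] (par : W → W) (sgn : W → Bool) (K : Finset W),
    (∀ S : Finset W, wgt par sgn K S = ∑ x ∈ S, wgt par sgn K {x}) ∧
    wgt par sgn K K = mas par sgn K true ∧
    (∀ S ⊆ K, wgt par sgn K S + wgt par sgn K (K \ S) = mas par sgn K true)

/-- CII1. The split case. Assume `CAN_stmt`, `TG_stmt`, `DSC_stmt`, `DEG_stmt`, `GLU_stmt`,
`IND_stmt`, `KSPL_stmt`, `WGT_stmt`.

PROOF. `p = mas true`, `X = low A true (p + G)`, `κ = E2 + m + E3`. KSPL gives `f₀` embedding `K`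
into `X1 ∪ X2 ⊆ typ`. IND gives the places `U₀` of the components of sign `false`;
`F = K.image f₀ ∪ ⋃ U₀`, `|F ∩ X| ≤ m + E3`. For `c ∈ topd true` let
`O c = nb A true X (f₀ (par c)) \ F`; `|O c| ≥ p - E2 - m - E3 = p - κ`, and the total mass of
`topd true` is `p`. `I = {c ∈ topd true : f₀ (par c) ∈ X1}`, `J = {c ∈ topd true : f₀ (par c) ∈
X2}`: disjoint, union `topd true`. For `i ∈ I`, `j ∈ J`: `O i \ O j ⊇ (nb A true X x \
nb A true X y) \ F` with `x ∈ X1`, `y ∈ X2`, of size `≥ τ + m + E3 - (m + E3) = τ`. One of `I, J` is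
`topv par sgn K (cut par K C)`, of mass `wgt (cut) ≥ θ`, the other one is
`topv par sgn K (K \ cut)`, of mass `p - wgt (cut) ≥ θ`. Since `θ ≥ κ + 5 β + 2 C0`, TG applies and
gives `U₁`. The places avoid `F`. GLU. -/
def CII1_stmt : Prop :=
  ∀ (W V : Type) [Fintype W] [DecidableEq W] [Fintype V] [DecidableEq V] (A : V → V → Prop)
    (r : W) (par : W → W) (dep : W → ℕ) (sgn : W → Bool) (K : Finset W)
    (β m G E1 E2 E3 θ τ : ℕ), Ctx A r par dep K β m →
    2 * mas par sgn K true ≤ (low A true (mas par sgn K true + G)).card + E1 →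
    (low A true (mas par sgn K true + G)).card ≤ 2 * mas par sgn K true + 2 * G →
    3 * G + E2 + 2 * β + C0 + 3 ≤ E3 →
    E1 + G + m + E3 + 2 * β + C0 + 1 ≤ mas par sgn K true →
    (E2 + m + E3) + 5 * β + 2 * C0 ≤ θ →
    2 * (E2 + m + E3) + 11 * β + 4 * C0 ≤ τ →
    ∀ v ∈ K, ∀ (σ : Bool) (C : Finset W), (∀ c ∈ C, c ∈ K ∧ c ≠ r ∧ par c = v ∧ sgn c = σ) →
    θ ≤ wgt par sgn K (cut par K C) → θ + wgt par sgn K (cut par K C) ≤ mas par sgn K true →
    ∀ X1 X2 : Finset V,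
      X1 ⊆ typ A (low A true (mas par sgn K true + G)) (mas par sgn K true) E2 →
      X2 ⊆ typ A (low A true (mas par sgn K true + G)) (mas par sgn K true) E2 →
      Disjoint X1 X2 → 4 * (3 * m + C0) ≤ X1.card → 4 * (3 * m + C0) ≤ X2.card →
      (∀ x ∈ X1, ∀ y ∈ X2, τ + m + E3 ≤
        (nb A true (low A true (mas par sgn K true + G)) x \
          nb A true (low A true (mas par sgn K true + G)) y).card) →
      Full (V := V) A r par sgn

/-- DRC2. Dependent random choice for a pair of sets.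

PROOF. `δ(x, y) = |nb A true Y x \ nb A true Y y|`. For `v : Fin t → V` with all values in `Y` let
`X1 v = {x ∈ X0 : ∀ i, v i ∈ nb A true Y x}`, `X2 v = {y ∈ X0 : ∀ i, v i ∉ nb A true Y y}`, `Z v` =
the number of `(x, y) ∈ X1 v × X2 v` with `δ(x, y) < τ`. Then
`∑ v, |X1 v| |X2 v| = ∑_{x,y ∈ X0} δ^t`, `∑ v, Z v ≤ |X0|² τ^t`. By the power mean inequality
(`inner_le_nnorm_mul_nnorm` is not needed; use `inv_pow`-free form
`(∑ δ)^t ≤ (|X0|²)^(t-1) ∑ δ^t`, in Mathlib `inner`-free: `pow_sum_div_card_le_sum_pow`, or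
`Finset.pow_arith_mean_le_arith_mean_pow`-style lemmas) and the first hypothesis
`(|X0|² |Y|)^t ≤ a^t (∑ δ)^t ≤ a^t |X0|^(2(t-1)) ∑ δ^t`, hence `|X0|² |Y|^t ≤ a^t ∑ δ^t`.
If no `v` is as required, then for all `v` either `|X1 v| |X2 v| < μ |X0|` or `Z v ≥ 1`
(if `|X1 v| |X2 v| ≥ μ |X0|` then both sets have at least `μ` elements as they have at most `|X0|`),
so `|X1 v| |X2 v| ≤ (μ |X0| - 1) + |X0|² Z v`. Sum and multiply by `a^t`:
`|X0|² |Y|^t ≤ (μ |X0| - 1) (a |Y|)^t + |X0|⁴ (a τ)^t`, contradiction with the second hypothesis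
(`(a |Y|)^t ≥ 1`; `a ≥ 1` follows from the first hypothesis). `X1 v`, `X2 v` are disjoint because
`t ≥ 1`. -/
def DRC2_stmt : Prop :=
  ∀ (V : Type) [DecidableEq V] (A : V → V → Prop) (X0 Y : Finset V) (μ a τ t : ℕ),
    X0.Nonempty → Y.Nonempty → 1 ≤ μ → 1 ≤ t →
    X0.card ^ 2 * Y.card ≤ a * ∑ x ∈ X0, ∑ y ∈ X0, (nb A true Y x \ nb A true Y y).card →
    μ * X0.card * (a * Y.card) ^ t + X0.card ^ 4 * (a * τ) ^ t ≤ X0.card ^ 2 * Y.card ^ t →
    ∃ X1 ⊆ X0, ∃ X2 ⊆ X0, Disjoint X1 X2 ∧ μ ≤ X1.card ∧ μ ≤ X2.card ∧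
      ∀ x ∈ X1, ∀ y ∈ X2, τ ≤ (nb A true Y x \ nb A true Y y).card

/-- AVG. The neighbourhoods differ on average. Assume `DEG_stmt`.

PROOF. `T = typ A X p E2`, `k = |X \ T|`. `|N x \ N y| = |N x| - |N x ∩ N y|` with
`N x = nb A true X x`. `∑_{x ∈ T} ∑_{y ∈ T} |N x| ≥ |T|² (p - E2)`. `∑_{x,y ∈ T} |N x ∩ N y| =
∑_{z ∈ X} |{x ∈ T : z ∈ N x}|² = ∑_{z ∈ X} |nb A false T z|²`; for `z ∈ T`:
`|nb A false T z| ≤ |nb A false X z| = |X| - 1 - |nb A true X z| ≤ p + 2 G + E2`; for the `k` other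
`z`: `≤ |T|`. So the double sum in the claim is at least
`|T|² (p - E2) - |T| (p + 2 G + E2)² - k |T|²`. It remains to see
`|T| (p - E2 - k - |X| / 6) ≥ (p + 2 G + E2)²` : with `δ = E1 + E2 + 2 G + k + 2 ≤ p / 20`,
`|T| ≥ 2 p - E1 - k ≥ 2 p - δ`, `|X| / 6 ≤ (2 p + 2 G + 1) / 6`, the left side is at least
`(2 p - δ) (2 p / 3 - δ) ≥ 1.95 · 0.6166 p² ≥ 1.2 p²`, the right side at most
`(1.05 p)² ≤ 1.11 p²`. -/
def AVG_stmt : Prop :=
  ∀ (V : Type) [DecidableEq V] (A : V → V → Prop), Tour A → ∀ (X : Finset V) (p G E1 E2 : ℕ),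
    (∀ x ∈ X, (nb A true X x).card ≤ p + G) → 2 * p ≤ X.card + E1 →
    X.card ≤ 2 * p + 2 * G + 1 →
    20 * (E1 + E2 + 2 * G + (X \ typ A X p E2).card + 2) ≤ p →
    (typ A X p E2).card ^ 2 * X.card ≤ 6 * ∑ x ∈ typ A X p E2, ∑ y ∈ typ A X p E2,
      (nb A true X x \ nb A true X y).card

/-- CIIA. The split case, assembled. Assume `ASZ_stmt`, `TYP_stmt`, `AVG_stmt`, `DRC2_stmt`,
`CII1_stmt`, `DSC_stmt`, `SIZ_stmt`.

PROOF. `n = |W|`, `p = mas true`, `G = 16 β`, `R = 9 β`, `E1 = 41 β`, `E2 = 2000 β`, `E3 = 2100 β`,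
`θ = 4200 β`, `τ = 8300 β`, `X = low A true (p + G)`. ASZ: `2 p ≤ |X| + 41 β`, `|X| ≤ 2 p + 32 β`.
TYP: `k = |X \ typ|`: `2 k · 2016 β ≤ |X| · 74 β` (as `2 G + E1 + 1 ≤ 74 β`), `β ≥ 1`, so
`4032 k ≤ 74 |X| ≤ 74 (2 p + 32 β)`, `k ≤ 0.0368 p + β`. With `p ≥ 5 · 10^8 β`:
`20 (E1 + E2 + 2 G + k + 2) ≤ 20 (2075 β + k) ≤ p`. AVG. `|typ| = |X| - k ≥ p`. DRC2 with
`X0 = typ`, `Y = X`, `a = 6`, `μ = 4 (3 m + C0)`, `τ₂ = τ + m + E3 ≤ 10401 β`:
(i) `2 μ |X0| (6 |X|)^t ≤ |X0|² |X|^t` as `2 μ 6^t ≤ p ≤ |X0|`; (ii) `2 |X0|⁴ (6 τ₂)^t ≤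
|X0|² |X|^t` : `8192 · 6 τ₂ ≤ 511240 · 10^3 β ≤ |X|` (`|X| ≥ 2 p - 41 β ≥ 10^9 β - 41 β`), so
`|X|^t ≥ 2^(13 t) (6 τ₂)^t ≥ 8 n² (6 τ₂)^t` and `|X0| ≤ |V| ≤ 2 n`. CII1 with the sets of DRC2:
`3 G + E2 + 2 β + C0 + 3 ≤ 2054 β ≤ E3` (`3 ≤ β` from `C0 ≤ β`),
`κ = E2 + m + E3 ≤ 4101 β`, `κ + 5 β + 2 C0 ≤ 4108 β ≤ θ`, `2 κ + 11 β + 4 C0 ≤ 8217 β ≤ τ`. -/
def CIIA_stmt : Prop :=
  ∀ (W V : Type) [Fintype W] [DecidableEq W] [Fintype V] [DecidableEq V] (A : V → V → Prop)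
    (r : W) (par : W → W) (dep : W → ℕ) (sgn : W → Bool) (K : Finset W) (β m t : ℕ),
    Ctx A r par dep K β m → C0 ≤ β → m ≤ β → 500000000 * β ≤ mas par sgn K true → 1 ≤ t →
    8 * Fintype.card W ^ 2 ≤ 2 ^ (13 * t) → 8 * (3 * m + C0) * 6 ^ t ≤ mas par sgn K true →
    (mid A (mas par sgn K true + 16 * β) (mas par sgn K false + 16 * β)).card ≤ 9 * β →
    ∀ v ∈ K, ∀ (σ : Bool) (C : Finset W), (∀ c ∈ C, c ∈ K ∧ c ≠ r ∧ par c = v ∧ sgn c = σ) →
    4200 * β ≤ wgt par sgn K (cut par K C) →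
    4200 * β + wgt par sgn K (cut par K C) ≤ mas par sgn K true →
    Full (V := V) A r par sgn

/-- GZ. Many out-neighbours of `y` have many neighbours of both kinds in the in-neighbourhood of
`y`. Assume `DEG_stmt`.

PROOF. `P = nb A true X y`, `Q = nb A false X y`, `w = |Q|`, `|P| + w + 1 = |X| ≤ 2 g + 1`
(DEG 5), `w ≥ |X| - 1 - g ≥ g - e - 1`. All `z ∈ P` are outside `Q`.
`P1 = {z ∈ P : |nb A true Q z| < λ}`. For `z ∈ P1`: `|nb A false Q z| ≥ w - λ + 1`. Now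
`w g ≥ ∑_{x ∈ Q} |nb A true X x| ≥ ∑_{x ∈ Q} |nb A true Q x| + ∑_{x ∈ Q} |nb A true P1 x| =
w (w - 1) / 2 + ∑_{z ∈ P1} |nb A false Q z| ≥ w (w - 1) / 2 + |P1| (w - λ + 1)`, so
`2 |P1| (w - λ + 1) ≤ w (2 g - w + 1) ≤ w (g + e + 2)`. As `w ≥ g - e - 1`, `e ≤ g/64`,
`λ ≤ g/32`: `w ≤ (63/61) (w - λ + 1)`, so `|P1| ≤ (63/122) (65 g / 64 + 2) ≤ 0.5246 g + 1.04`.
`P2 = {z ∈ P : |nb A false Q z| < λ}`: for `z ∈ P2`: `|nb A true P2 z| ≤ |nb A true X z| -
|nb A true Q z| ≤ g - (w - λ + 1) ≤ e + λ`, so `|P2| ≤ 2 (e + λ) + 1 ≤ 0.09375 g + 1` (DEG 5).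
The good set has at least `|P| - |P1| - |P2| ≥ g - g/64 - 0.5246 g - 0.09375 g - 2.04 ≥ g/4`
elements (`g ≥ 64`). -/
def GZ_stmt : Prop :=
  ∀ (V : Type) [DecidableEq V] (A : V → V → Prop), Tour A → ∀ (X : Finset V) (y : V),
    y ∈ X → ∀ g e l : ℕ, (∀ x ∈ X, (nb A true X x).card ≤ g) → 2 * g ≤ X.card + e →
    g ≤ (nb A true X y).card + e → 64 * e ≤ g → 32 * l ≤ g → 64 ≤ g →
    ∃ Z ⊆ nb A true X y, g ≤ 4 * Z.card ∧ ∀ z ∈ Z,
      l ≤ (nb A true (nb A false X y) z).card ∧ l ≤ (nb A false (nb A false X y) z).card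

/-- STAR. A subtree with prescribed image of its top. Assume `SUBT_stmt`, `DSC_stmt`.

PROOF. For a sign `d` let `S_d = {w ∈ S : ∃ c' ∈ S, c' ≠ c ∧ par c' = c ∧ sgn c' = d ∧
w ∈ dsc par c'}`. `S \ {c}` is the disjoint union of `S_true` and `S_false` (go up from `w` to `c`
inside `S`; the last vertex before `c` is `c'`; different children of `c` have disjoint subtrees).
For `w ∈ S_d`, either `w = c'` and `par w = c`, `sgn w = d`, or `par w ∈ S_d`. SUBT: `f₁` embeds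
`S_true` in `T1`, `f₂` embeds `S_false` in `T0 \ image f₁` (size `≥ 4 |S| + C0 - |S|`). `f c = z`,
`f = f₁` on `S_true`, `f = f₂` on `S_false`. `z ∉ T1 ∪ T0` as `Arc A d z z` is impossible. For
`w = c`: either `c = r` (no condition) or `par c ∉ S` because `S ⊆ dsc par c` and
`par c ∈ dsc par c` would contradict DSC 4 (`dep c < dep (par c)`). -/
def STAR_stmt : Prop :=
  ∀ (W V : Type) [Fintype W] [DecidableEq W] [DecidableEq V] (A : V → V → Prop), Tour A →
    ∀ (r : W) (par : W → W) (dep : W → ℕ), Rooted r par dep → ∀ (sgn : W → Bool)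
      (S : Finset W) (c : W), c ∈ S → S ⊆ dsc par c → (∀ w ∈ S, w ≠ c → par w ∈ S) →
      ∀ (z : V) (T1 T0 : Finset V), (∀ y ∈ T1, Arc A true z y) → (∀ y ∈ T0, Arc A false z y) →
      4 * S.card + C0 ≤ T1.card → 4 * S.card + C0 ≤ T0.card →
      ∃ f : W → V, Emb A r par sgn S (insert z (T1 ∪ T0)) f ∧ f c = z ∧
        (∀ w ∈ S, w ≠ c → f w ∈ T1 ∪ T0) ∧
        ∀ c', c' ≠ c → par c' = c → ∀ w ∈ dsc par c', w ∈ S →
          (sgn c' = true → f w ∈ T1) ∧ (sgn c' = false → f w ∈ T0)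

/-- TOPK. Enlarging the core by whole components. Assume `DSC_stmt`.

PROOF. `K' = K ∪ ⋃_{c ∈ C} dsc c` with `C ⊆ tops par K`. Closed: `w ∈ dsc c`, `w ≠ c`: DSC 2; `w = c`:
`par c ∈ K`. `c₁ ∈ tops par K'`: `c₁ ∉ K'`, `par c₁ ∈ K'`; `par c₁ ∈ dsc c` would give `c₁ ∈ dsc c`
(DSC 3), so `par c₁ ∈ K`, `c₁ ∈ tops par K`, and `c₁ ∉ C` (`c₁ ∈ dsc c₁`). Conversely
`c₁ ∈ tops par K \ C` is not in `K` and not in `dsc c` for `c ∈ C` (disjointness of the subtrees of
different tops). Cardinality: disjoint unions. -/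
def TOPK_stmt : Prop :=
  ∀ (W : Type) [Fintype W] [DecidableEq W] (r : W) (par : W → W) (dep : W → ℕ),
    Rooted r par dep → ∀ (sgn : W → Bool) (K C : Finset W), r ∈ K → (∀ v ∈ K, par v ∈ K) →
    C ⊆ tops par K →
    (∀ v ∈ K ∪ C.biUnion (dsc par), par v ∈ K ∪ C.biUnion (dsc par)) ∧
    tops par (K ∪ C.biUnion (dsc par)) = tops par K \ C ∧
    (∀ d, topd par sgn (K ∪ C.biUnion (dsc par)) d = topd par sgn K d \ C) ∧
    (K ∪ C.biUnion (dsc par)).card = K.card + ∑ c ∈ C, (dsc par c).card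

/-- EXK. Adding components at `v` whose tops go to `Z` and whose other vertices go to `Q`.
Assume `STAR_stmt`, `DSC_stmt`, `TOPK_stmt`.

PROOF. Induction over subsets `C' ⊆ C` (`Finset.induction_on`): there is `f'` as claimed for `C'`. Step
`insert c C'`: let `I` be the image of `⋃_{c' ∈ C'} dsc c'` under `f'`, at most
`∑ c' ∈ C', |dsc c'| ≤ M - |dsc c|` elements. `|Z \ F| ≥ M > |I|`, so choose `z ∈ (Z \ F) \ I`. STAR with
`S = dsc c`, top `c`, `T1 = (nb A true Q z \ F) \ I`, `T0 = (nb A false Q z \ F) \ I`, of size at least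
`M + 4 β + C0 - M ≥ 4 |dsc c| + C0`. The new `f'` is the old one outside `dsc c` and the `f` of STAR on
`dsc c`. Injectivity: `f (dsc c) ⊆ {z} ∪ (Q \ F)` minus `I`, and the image of `K` is contained in `F`.
Arcs: at `c`: `par c = v`, `sgn c = true`, `z ∈ Z ⊆ nb A true univ (f₀ v)`. -/
def EXK_stmt : Prop :=
  ∀ (W V : Type) [Fintype W] [DecidableEq W] [Fintype V] [DecidableEq V] (A : V → V → Prop),
    Tour A → ∀ (r : W) (par : W → W) (dep : W → ℕ), Rooted r par dep → ∀ (sgn : W → Bool)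
    (K : Finset W), r ∈ K → (∀ v ∈ K, par v ∈ K) → ∀ v ∈ K, ∀ C ⊆ topv par sgn K {v},
    ∀ f₀ : W → V, Emb A r par sgn K Finset.univ f₀ →
    ∀ (F Z Q : Finset V) (β M : ℕ), K.image f₀ ⊆ F → Z ⊆ nb A true Finset.univ (f₀ v) →
      (∀ c ∈ C, (dsc par c).card ≤ β) → ∑ c ∈ C, (dsc par c).card ≤ M → M ≤ (Z \ F).card →
      Disjoint Z Q →
      (∀ z ∈ Z, M + 4 * β + C0 ≤ (nb A true Q z \ F).card ∧
        M + 4 * β + C0 ≤ (nb A false Q z \ F).card) →
      ∃ f' : W → V, Emb A r par sgn (K ∪ C.biUnion (dsc par)) Finset.univ f' ∧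
        (∀ w ∈ K, f' w = f₀ w) ∧
        ∀ c ∈ C, f' c ∈ Z \ F ∧ ∀ w ∈ dsc par c, w ≠ c → f' w ∈ Q \ F

/-- CII2. The concentrated case with many vertices in non-trivial components at `v`. Assume
`SUBT_stmt`, `CAN_stmt`, `GRE_stmt`, `DSC_stmt`, `DEG_stmt`, `GLU_stmt`, `ASZ_stmt`, `TYP_stmt`,
`IND_stmt`, `GZ_stmt`, `TOPK_stmt`, `EXK_stmt`, `WGT_stmt`.

PROOF. Constants and `X` as in CIIA: `G = 16 β`, `E1 = 41 β`, `E2 = 2000 β`, `E3 = 2100 β`, and
`E4 = E2 + m + E3 + 2 β + C0 ≤ 4104 β`. `|typ| ≥ p ≥ 3 m + C0` (as in CIIA from TYP). SUBT: `f₀`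
embeds `K` into `typ`. `y = f₀ v`, `P = nb A true X y`, `Q = nb A false X y`, `|P| ≥ p - E2`.
IND: places `U₀` of the components of sign `false`, `F₁ = K.image f₀ ∪ ⋃ U₀`,
`|F₁ ∩ X| ≤ m + E3 ≤ 2101 β`.
Step 1: `I₁ = {c ∈ topd true : par c ≠ v}`, mass `p - wgt {v} ≤ 12600 β`. GRE with
`O c = nb A true X (f₀ (par c)) \ F₁`, `|O c| ≥ p - E2 - m - E3`. `F₂ = F₁ ∪ places`,
`|F₂ ∩ X| ≤ 2101 β + 12600 β`.
Step 2: choose `C₂ ⊆ {c ∈ topv {v} : 2 ≤ |dsc c|}` of minimal cardinality with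
`∑ c ∈ C₂, |dsc c| ≥ 8208 β`; then `∑ ≤ 8209 β =: M`. GZ with `g = p + 16 β - 1`,
`e = 2073 β`, `l = 30000 β` gives `Z ⊆ P` with `4 |Z| ≥ g`. EXK with `F = F₂`, `Z`, `Q`, `M`:
`|Z \ F₂| ≥ |Z| - 14701 β ≥ M`, `|nb A _ Q z \ F₂| ≥ 30000 β - 14701 β ≥ M + 4 β + C0` (`Z, Q ⊆ X`).
This gives the embedding `f'` of the enlarged core `K' = K ∪ ⋃_{c ∈ C₂} dsc c` (TOPK:
`topd par sgn K' true = topd par sgn K true \ C₂`, `topd par sgn K' false = topd par sgn K false`,
since the elements of `C₂` have sign `true`).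
Step 3: `I₃ = topv {v} \ C₂`; `F₃ = F₂ ∪ K'.image f'`. GRE with `O c = P \ F₃`: `F₃ ∩ P` has at
most `(m + E3) + |places of I₁| + |C₂|` elements (each component of `C₂` uses one vertex of `P`, its
other vertices are in `Q`), and
`p = mass I₁ + mass C₂ + mass I₃`, `|C₂| ≤ (mass C₂) / 2`, so
`|P \ F₃| ≥ p - E2 - m - E3 - mass I₁ - |C₂| ≥ mass I₃ + (mass C₂) / 2 - E2 - m - E3 ≥
mass I₃ + 4104 β - E2 - m - E3 ≥ mass I₃ + 2 β + C0`.
GLU for the core `K'` with `f'`, `U₁` = places of `I₁ ∪ I₃`, `U₀` (all avoid the image of `f'` and each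
other), `O₁ c = nb A true univ (f' (par c)) \ K'.image f'`, `O₀` similarly (`par c ∈ K` for all tops,
so `f' (par c) = f₀ (par c)`). -/
def CII2_stmt : Prop :=
  ∀ (W V : Type) [Fintype W] [DecidableEq W] [Fintype V] [DecidableEq V] (A : V → V → Prop)
    (r : W) (par : W → W) (dep : W → ℕ) (sgn : W → Bool) (K : Finset W) (β m : ℕ),
    Ctx A r par dep K β m → C0 ≤ β → m ≤ β → 500000000 * β ≤ mas par sgn K true →
    (mid A (mas par sgn K true + 16 * β) (mas par sgn K false + 16 * β)).card ≤ 9 * β →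
    ∀ v ∈ K, mas par sgn K true ≤ wgt par sgn K {v} + 12600 * β →
    8208 * β ≤ ∑ c ∈ (topv par sgn K {v}).filter (fun c => 2 ≤ (dsc par c).card),
      (dsc par c).card →
    Full (V := V) A r par sgn

/-- CII. Case II. Assume `CIIA_stmt`, `CII2_stmt`, `WT_stmt`, `WGT_stmt`, `DSC_stmt`.

PROOF. WT with `ω x = wgt par sgn K {x}`, `θ = 4200 β` (`∑ x ∈ K, ω x = mas true`,
`3 θ ≤ mas true`). Second alternative of WT: CIIA (`∑ x ∈ cut, ω x = wgt (cut)` by WGT). First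
alternative: `mas true ≤ wgt {v} + 12600 β`. If the non-trivial components at `v` have total mass
at least `8208 β`: CII2. Otherwise `wgt {v} = (number of c ∈ topv {v} with |dsc c| = 1) +
(mass of the others) ≤ number + 8208 β` (`|dsc c| ≥ 1` always), so
`mas true ≤ number + 20808 β`. -/
def CII_stmt : Prop :=
  ∀ (W V : Type) [Fintype W] [DecidableEq W] [Fintype V] [DecidableEq V] (A : V → V → Prop)
    (r : W) (par : W → W) (dep : W → ℕ) (sgn : W → Bool) (K : Finset W) (β m t : ℕ),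
    Ctx A r par dep K β m → C0 ≤ β → m ≤ β → 500000000 * β ≤ mas par sgn K true → 1 ≤ t →
    8 * Fintype.card W ^ 2 ≤ 2 ^ (13 * t) → 8 * (3 * m + C0) * 6 ^ t ≤ mas par sgn K true →
    (mid A (mas par sgn K true + 16 * β) (mas par sgn K false + 16 * β)).card ≤ 9 * β →
    Full (V := V) A r par sgn ∨
      ∃ v ∈ K, mas par sgn K true ≤
        ((topv par sgn K {v}).filter (fun c => (dsc par c).card = 1)).card + 21000 * β

/-! ### Arborescences -/

/-- LMO. Median orders.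

PROOF. Among all duplicate-free lists with element set `X` (they exist: `X.toList`; there are
finitely many, all have length `|X|`) choose `l` maximizing the number `fw l` of pairs `i < j` with
`Arc A d (l_i) (l_j)` (bounded by `|X|²`, so a maximum exists, e.g. `Nat.find`-type argument or
strong induction on `|X|² - fw`). If `l = l1 ++ x :: (l2 ++ l3)`, compare with
`l' = l1 ++ l2 ++ x :: l3`: `fw l' = fw l - |nb A d l2 x| + |nb A (!d) l2 x|`
(only the pairs `x, y` with `y ∈ l2` change). `fw` can be defined recursively: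
`fw [] = 0`, `fw (x :: l) = |nb A d l.toFinset x| + fw l`, and
`fw (l ++ l') = fw l + fw l' + ∑ x ∈ l, |nb A d l' x|`. -/
def LMO_stmt : Prop :=
  ∀ (V : Type) [DecidableEq V] (A : V → V → Prop), Tour A → ∀ (d : Bool) (X : Finset V),
    ∃ l : List V, l.Nodup ∧ l.toFinset = X ∧ ∀ (l1 l2 l3 : List V) (x : V),
      l = l1 ++ x :: (l2 ++ l3) →
        (nb A (!d) l2.toFinset x).card ≤ (nb A d l2.toFinset x).card

/-- ARB. Arborescences in tournaments with `2 |S| - 1` vertices. Assume `LMO_stmt`, `DEG_stmt`.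

PROOF. `l` from LMO for `X`. Claim: for every `i ≤ |l|` there are `T ⊆ S`, `T` closed under `par`,
and an embedding `f` of `T` in `(l.take i).toFinset`, `r ∈ T` if `i ≥ 1`, `T = ∅` if `i = 0`, such
that either `T = S`, or
(I1) for every `w ∈ T` that has a child in `S \ T` (a child of `w`: `c ≠ r`, `par c = w`): if
`l.take i = l1 ++ f w :: l2` then every `y ∈ l2` with `Arc A d (f w) y` is in `T.image f`;
(I2) for all `1 ≤ j ≤ i`: `j + 1 ≤ 2 |T.image f ∩ (l.take j).toFinset|`.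
Step `i → i + 1` with `T ≠ S`, `y = l[i]`. `i = 0`: `T = {r}`, `f r = y` (if `S = {r}` then `T = S`).
`i ≥ 1`: if there is `c ∈ S \ T`, `c ≠ r`, with `par c ∈ T` and `Arc A d (f (par c)) y`, then
`T' = T ∪ {c}`, `f' c = y`; otherwise `T' = T`. (I1) stays true: `w ∈ T'` with a child in
`S \ T'`: if `w = c` is new then `l2 = []`; if `w ∈ T`, then `w` had a child in `S \ T` too, the
old positions are fine, and the new position `y`: if `Arc A d (f w) y` then the first case applied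
(with that child), so `y` is hit. (I2) for `j = i + 1`: since `T' ≠ S` (otherwise nothing to
prove) there is `w ∈ T'` with a child in `S \ T'` (take an element of `S \ T'` of minimal depth).
`l.take (i+1) = l1 ++ f w :: l2`, `i + 1 = |l1| + 1 + |l2|`. By LMO and DEG 1:
`|l2| ≤ 2 |nb A d l2 (f w)|` and by (I1) all of `nb A d l2 (f w)` is hit. The hits in
`l1`: `2 · hits ≥ |l1| + 1` if `l1 ≠ []` by (I2), and `f w` is a hit. Total:
`2 · hits ≥ (|l1| + 1) + 2 + |l2| ≥ i + 2` if `l1 ≠ []`, and `2 · hits ≥ 2 + |l2| = i + 2` if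
`l1 = []`.
End: `i = |l| = |X|`; if `T ≠ S`, (I2) gives `|X| + 1 ≤ 2 |T| ≤ 2 (|S| - 1)` (if `|X| ≥ 1`),
contradiction to `2 |S| ≤ |X| + 1`. -/
def ARB_stmt : Prop :=
  ∀ (W V : Type) [Fintype W] [DecidableEq W] [DecidableEq V] (A : V → V → Prop), Tour A →
    ∀ (r : W) (par : W → W) (dep : W → ℕ), Rooted r par dep → ∀ (sgn : W → Bool) (d : Bool)
      (S : Finset W), r ∈ S → (∀ v ∈ S, par v ∈ S) → (∀ v ∈ S, v ≠ r → sgn v = d) →
      ∀ X : Finset V, 2 * S.card ≤ X.card + 1 → ∃ f : W → V, Emb A r par sgn S X f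

/-! ### Exactness -/

/-- EX2. Extending an embedding greedily. Assume `CAN_stmt`, `GRE_stmt`, `GLUE_stmt`, `DSC_stmt`.

PROOF. GRE with `I = (tops par S₀).filter (· ∈ S)`, `b = bsz par S`, `β = |S|`:
`∑ c ∈ I, bsz par S c ≤ |S|` (disjoint subsets of `S`), `bsz ≤ |S|`. The places are pairwise
disjoint and inside `O c`; GLUE. -/
def EX2_stmt : Prop :=
  ∀ (W V : Type) [Fintype W] [DecidableEq W] [Fintype V] [DecidableEq V] (A : V → V → Prop),
    Tour A → ∀ (r : W) (par : W → W) (dep : W → ℕ), Rooted r par dep → ∀ (sgn : W → Bool)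
    (S₀ S : Finset W), r ∈ S₀ → (∀ v ∈ S₀, par v ∈ S₀) → S₀ ⊆ S → (∀ v ∈ S, par v ∈ S) →
    ∀ f₀ : W → V, Emb A r par sgn S₀ Finset.univ f₀ →
    ∀ O : W → Finset V,
      (∀ c ∈ tops par S₀, c ∈ S → 3 * S.card + C0 ≤ (O c).card) →
      (∀ c ∈ tops par S₀, c ∈ S →
        O c ⊆ nb A (sgn c) Finset.univ (f₀ (par c)) \ S₀.image f₀) →
      ∃ f : W → V, Emb A r par sgn S Finset.univ f ∧ (∀ w ∈ S₀, f w = f₀ w) ∧
        ∀ c ∈ tops par S₀, c ∈ S → ∀ w ∈ dsi par S c, f w ∈ O c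

/-- LF. Placing the leaves.

PROOF. `S = univ \ (LO ∪ LI)`, closed under `par` and containing `r, u` (`Brm`). `P, Q` the two
sets of the hypotheses. There are disjoint `L1 ⊆ P`, `L2 ⊆ Q` with `|L1| = |LO|`, `|L2| = |LI|`: if
`|P \ Q| ≥ |LO|` take `L1 ⊆ P \ Q` and any `L2 ⊆ Q`; otherwise take `L1 ⊇ P \ Q` inside `P`, then
`|Q \ L1| = |P ∪ Q| - |L1| ≥ |LI|` (as `P ∪ Q = L1 ∪ (Q \ L1)`). Bijections `LO → L1`,
`LI → L2` (`LO`, `LI` are disjoint by the signs) extend `f`. Arcs: `c ∈ LO`: `par c = r`,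
`sgn c = true`, `g c ∈ nb A true univ (f r)`. `c ∈ LI`: `par c = u`. -/
def LF_stmt : Prop :=
  ∀ (W V : Type) [Fintype W] [DecidableEq W] [Fintype V] [DecidableEq V] (A : V → V → Prop)
    (r u : W) (par : W → W) (dep : W → ℕ), Rooted r par dep → ∀ (sgn : W → Bool)
    (LO LI : Finset W), Brm r u par sgn LO LI →
    ∀ f : W → V, Emb A r par sgn (Finset.univ \ (LO ∪ LI)) Finset.univ f →
      LO.card ≤ (nb A true Finset.univ (f r) \ (Finset.univ \ (LO ∪ LI)).image f).card →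
      LI.card ≤ (nb A false Finset.univ (f u) \ (Finset.univ \ (LO ∪ LI)).image f).card →
      LO.card + LI.card ≤ ((nb A true Finset.univ (f r) \ (Finset.univ \ (LO ∪ LI)).image f) ∪
        (nb A false Finset.univ (f u) \ (Finset.univ \ (LO ∪ LI)).image f)).card →
      Full (V := V) A r par sgn

/-- OPV. The root at a vertex `z` of large degrees. Assume `STAR_stmt`, `LF_stmt`, `DSC_stmt`,
`DEG_stmt`.

PROOF. `S = univ \ (LO ∪ LI)`, `|S| = s`. First part (`u = r`): STAR with `c = r`, `T1 = nb A true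
univ z`, `T0 = nb A false univ z`; LF: `|nb A true univ z \ im| ≥ |LO| + 4 s + C0 - s`, same for the
in-side, the two neighbourhoods are disjoint. Second part: `u ≠ r` lies in `dsc par c'` with
`par c' = r`, `c' ≠ r`, `sgn c' = false`; STAR with `T0 = nb A false Y z`: `f u ∈ Y`, so
`|nb A false univ (f u) \ im| ≥ |LO| + |LI| + s - s`, which gives the second and the third condition
of LF; the first one as before. -/
def OPV_stmt : Prop :=
  ∀ (W V : Type) [Fintype W] [DecidableEq W] [Fintype V] [DecidableEq V] (A : V → V → Prop),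
    Tour A → ∀ (r u : W) (par : W → W) (dep : W → ℕ), Rooted r par dep → ∀ (sgn : W → Bool)
    (LO LI : Finset W), Brm r u par sgn LO LI →
    ∀ s : ℕ, LO.card + LI.card + s = Fintype.card W →
    (u = r → ∀ z : V, LO.card + 4 * s + C0 ≤ (nb A true Finset.univ z).card →
      LI.card + 4 * s + C0 ≤ (nb A false Finset.univ z).card → Full (V := V) A r par sgn) ∧
    (∀ c', c' ≠ r → par c' = r → sgn c' = false → u ∈ dsc par c' →
      ∀ (z : V) (Y : Finset V), LO.card + 4 * s + C0 ≤ (nb A true Finset.univ z).card →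
      4 * s + C0 ≤ (nb A false Y z).card →
      (∀ y ∈ Y, LO.card + LI.card + s ≤ (nb A false Finset.univ y).card) →
      Full (V := V) A r par sgn)

/-- OPA. The root at a vertex `y` of `X` with enough out-neighbours in `X`. Assume `EX2_stmt`,
`LF_stmt`, `DSC_stmt`, `DEG_stmt`.

PROOF. `S = univ \ (LO ∪ LI)`, `|S| = s`, `C = chd r par sgn r true \ LO`, `C ⊆ S` (an element of
`LI` has sign `false`), `|C| ≤ s ≤ |Z|`. `S₀ = {r} ∪ C`, `f₀ r = y`, `f₀` maps `C` injectively into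
`Z ⊆ nb A true X y`. EX2: for `c ∈ tops par S₀`, `c ∈ S`: if `par c = r` then `sgn c = false`
(otherwise `c ∈ chd r par sgn r true`, so `c ∈ LO` or `c ∈ C`), `O c = nb A false X y` (disjoint from
`{y} ∪ Z`); if `par c ∈ C`: `O c = nb A (sgn c) (nb A false X y) (f₀ (par c))`. Result `f` with
`f (S) ⊆ X` and `f (S) ∩ nb A true X y = f₀ (C)`. LF: `f r = y`,
`nb A true univ y \ im ⊇ nb A true X y \ f₀ (C)` has at least `|chd r par sgn r true| - |C| = |LO|`
elements (`LO ⊆ chd`). If `LI = ∅` this is all. Otherwise `f u ∈ X`,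
`|nb A false univ (f u) \ im| ≥ |LO| + |LI| + s - s`. -/
def OPA_stmt : Prop :=
  ∀ (W V : Type) [Fintype W] [DecidableEq W] [Fintype V] [DecidableEq V] (A : V → V → Prop),
    Tour A → ∀ (r u : W) (par : W → W) (dep : W → ℕ), Rooted r par dep → ∀ (sgn : W → Bool)
    (LO LI : Finset W), Brm r u par sgn LO LI →
    ∀ s : ℕ, LO.card + LI.card + s = Fintype.card W →
    ∀ (X : Finset V) (y : V), y ∈ X →
      (chd r par sgn r true).card ≤ (nb A true X y).card →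
      4 * s + C0 ≤ (nb A false X y).card →
      (LI = ∅ ∨ ∀ x ∈ X, LO.card + LI.card + s ≤ (nb A false Finset.univ x).card) →
      ∀ Z ⊆ nb A true X y, s ≤ Z.card → (∀ z ∈ Z,
        4 * s + C0 ≤ (nb A true (nb A false X y) z).card ∧
        4 * s + C0 ≤ (nb A false (nb A false X y) z).card) →
      Full (V := V) A r par sgn

/-- E1B. Ancestors in a set of sources. Assume `EX2_stmt`, `LF_stmt`, `DSC_stmt`, `DEG_stmt`.

PROOF. `S = univ \ LO`, `|S| = s`, `S₀ = anc r par sgn`: contains `r`, closed under `par`, contained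
in `S` (elements of `LO` have sign `true`). For `c ∈ tops par S₀`: `sgn c = true` (otherwise
`c ∈ anc`, as `c ≠ r`, `par c ∈ anc`). EX2 with `O c = nb A true X (f₀ (par c))`, disjoint from
`B ⊇ S₀.image f₀`. LF with `LI = ∅`, `u = r`: `f r ∈ B`, `|nb A true univ (f r) \ im| ≥
|LO| + s - s`. -/
def E1B_stmt : Prop :=
  ∀ (W V : Type) [Fintype W] [DecidableEq W] [Fintype V] [DecidableEq V] (A : V → V → Prop),
    Tour A → ∀ (r : W) (par : W → W) (dep : W → ℕ), Rooted r par dep → ∀ (sgn : W → Bool)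
    (LO : Finset W), Brm r r par sgn LO ∅ → ∀ s : ℕ, LO.card + s = Fintype.card W →
    ∀ (B X : Finset V), Disjoint B X →
      (∀ x ∈ B, 3 * s + C0 ≤ (nb A true X x).card) →
      (∀ x ∈ B, LO.card + s ≤ (nb A true Finset.univ x).card) →
      ∀ f₀ : W → V, Emb A r par sgn (anc r par sgn) B f₀ → Full (V := V) A r par sgn

/-- COUNT. Counting vertices. Assume `DSC_stmt`.

PROOF. First part: the path `Q = {par^[k] u}` has `dep u + 1` elements (the depths are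
`dep u, dep u - 1, ..., 0`), all its elements except `r` have sign `false`. For every
`c ∈ C = chd r par sgn r true \ LO` choose a child `w c` (`w c ≠ r`, `par (w c) = c`), for every
`c ∈ C' = chd r par sgn u false \ LI` a child `w' c`. The sets `Q`, `chd r par sgn r true`, `w (C)`,
`chd r par sgn u false`, `w' (C')` are pairwise disjoint and `w`, `w'` are injective (`par (w c) =
c`): signs distinguish `Q \ {r}` and the children of `r` of sign `true`; an element of `w (C)` has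
parent `c` of sign `true`, `c ≠ r`, so it is not in `Q` (its parent would be in `Q`), not a child of
`r`, and not a child of `u` (`u = c` would have sign `true` although `u ∈ Q`, `u ≠ r`); the children
of `u` are not in `Q` (depth `dep u + 1`), of sign `false`; an element of `w' (C')` has a parent
`c'` of depth `dep u + 1` and sign `false`, its own depth is `dep u + 2`, so it is not in `Q`, not a
child of `r` or of `u`, not in `w (C)` (parents have different signs). So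
`(dep u + 1) + |chd r| + |C| + |chd u| + |C'| ≤ |W|`, `|C| = |chd r| - |LO|`, `|C'| = |chd u| - |LI|`.
Second part: the same with `Q` replaced by `anc r par sgn` and only `C`: an element of
`chd r par sgn r true` is not an ancestor (sign `true`), `w c` is not (its parent `c` would have
sign `true`). -/
def COUNT_stmt : Prop :=
  ∀ (W : Type) [Fintype W] [DecidableEq W] (r u : W) (par : W → W) (dep : W → ℕ),
    Rooted r par dep → ∀ (sgn : W → Bool) (LO LI : Finset W), Brm r u par sgn LO LI →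
    (∀ c ∈ chd r par sgn r true, c ∉ LO → ∃ w, w ≠ r ∧ par w = c) →
    (((∀ k : ℕ, par^[k] u ≠ r → sgn (par^[k] u) = false) →
      (∀ c ∈ chd r par sgn u false, c ∉ LI → ∃ w, w ≠ r ∧ par w = c) →
      dep u + 1 + 2 * (chd r par sgn r true).card + 2 * (chd r par sgn u false).card ≤
        Fintype.card W + LO.card + LI.card) ∧
    (anc r par sgn).card + 2 * (chd r par sgn r true).card ≤ Fintype.card W + LO.card)

/-- E1. The one-sided case. Assume `OPV_stmt`, `OPA_stmt`, `E1B_stmt`, `ARB_stmt`, `COUNT_stmt`,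
`GZ_stmt`, `SIZ_stmt`, `DEG_stmt`.

PROOF. `n = |W|`, `a = |LO|`, `a + s = n`, `|V| = 2 a + 2 s - 2`, `G = 4 s + C0`, `400 G ≤ a`.
If some `z` has `d⁺(z) ≥ a + G`, `d⁻(z) ≥ G`: OPV (first part, `u = r`, `LI = ∅`). So
`mid A (a + G) G = ∅`. `X = low A true (a + G)`, `B = univ \ X`; `x ∈ B` has `d⁺ ≥ a + G`, `d⁻ < G`,
so `B ⊆ low A false G`, `|B| ≤ 2 G - 1`, `|X| ≥ 2 a + 2 s - 1 - 2 G`. `dv = |chd r par sgn r true| ≥ a`.
If some `y ∈ X` has `|nb A true X y| ≥ dv`: GZ with `g = a + G - 1`, `e = 4 G`, `l = G` gives `Z`,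
`|Z| ≥ g / 4 ≥ s`; `|nb A false X y| = |X| - 1 - |nb A true X y| ≥ 2 a + 2 s - 2 - 2 G - (a + G) ≥
G`; OPA. Otherwise all out-degrees in `X` are `≤ dv - 1`, `|X| ≤ 2 dv - 1` (DEG 5), so
`|B| ≥ 2 n - 1 - 2 dv`. COUNT (second part): `|anc| + 2 dv ≤ n + a`, so
`|B| ≥ n - 1 - a + |anc| = s - 1 + |anc| ≥ 2 |anc| - 1`, because `anc ⊆ univ \ LO`. ARB (`d = false`)
embeds `anc` into `B`. E1B: for `x ∈ B`: `|nb A true X x| ≥ |X| - d⁻(x) ≥ |X| - G ≥ 3 s + C0`
(`x ∉ X`, DEG 1), `d⁺ ≥ a + G ≥ a + s`. -/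
def E1_stmt : Prop :=
  ∀ (W V : Type) [Fintype W] [DecidableEq W] [Fintype V] [DecidableEq V] (A : V → V → Prop),
    Tour A → Fintype.card V + 2 = 2 * Fintype.card W →
    ∀ (r : W) (par : W → W) (dep : W → ℕ), Rooted r par dep → ∀ (sgn : W → Bool)
    (LO : Finset W), Brm r r par sgn LO ∅ →
    (∀ c ∈ chd r par sgn r true, c ∉ LO → ∃ w, w ≠ r ∧ par w = c) →
    ∀ s : ℕ, LO.card + s = Fintype.card W → 400 * (4 * s + C0) ≤ LO.card →
    Full (V := V) A r par sgn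

/-- E2N. The root side in `B`, the other side in `X`. Assume `SUBT_stmt`, `EX2_stmt`, `LF_stmt`,
`DSC_stmt`, `DEG_stmt`.

PROOF. `S = univ \ (LO ∪ LI)`, `w = par^[k] u ≠ r` with `sgn w = true`; `w ∈ S`. `S₀ = S \ dsc par w`
contains `r`, closed under `par` (DSC 3). SUBT: `f₀` embeds `S₀` into `B'`
(`|B'| ≥ 3 s + C0`). `tops par S₀` in `S`: only `w` (`c ∈ S \ S₀` so `c ∈ dsc par w`; `par c ∈ S₀`,
so `c = w` by DSC 2). EX2 with `O w = nb A true X (f₀ (par w))` (disjoint from `B'`). `u ∈ dsi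
par S w`, so `f u ∈ X`; `f r ∈ B'`. LF: `|nb A true univ (f r) \ im| ≥ |LO| + |LI| + s - s`, same
for `|nb A false univ (f u) \ im|`. -/
def E2N_stmt : Prop :=
  ∀ (W V : Type) [Fintype W] [DecidableEq W] [Fintype V] [DecidableEq V] (A : V → V → Prop),
    Tour A → ∀ (r u : W) (par : W → W) (dep : W → ℕ), Rooted r par dep → ∀ (sgn : W → Bool)
    (LO LI : Finset W), Brm r u par sgn LO LI →
    ∀ s : ℕ, LO.card + LI.card + s = Fintype.card W →
    (∃ k : ℕ, par^[k] u ≠ r ∧ sgn (par^[k] u) = true) →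
    ∀ (B' X : Finset V), Disjoint B' X → 3 * s + C0 ≤ B'.card →
      (∀ x ∈ B', 3 * s + C0 ≤ (nb A true X x).card) →
      (∀ x ∈ B', LO.card + LI.card + s ≤ (nb A true Finset.univ x).card) →
      (∀ x ∈ X, LO.card + LI.card + s ≤ (nb A false Finset.univ x).card) →
      Full (V := V) A r par sgn

/-- E2P. The directed path from `u` to the root in the middle set `M`. Assume `PTF_stmt` (SU/Goals),
`EX2_stmt`, `LF_stmt`, `DSC_stmt`, `DEG_stmt`.

PROOF. `S = univ \ (LO ∪ LI)`, `S₀ = {par^[k] u : k ≤ dep u}`: contains `r` (`par^[dep u] u = r`) and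
`u`, closed under `par`, contained in `S`. PTF with `b = dep u + 1` and all signs equal to `true`
gives an injective `g` with `g i ∈ M` for `i ≤ dep u` and `A (g i) (g (i + 1))` for `i < dep u`;
`f₀ (par^[i] u) = g i` (the depths are different, so this is well
defined: `f₀ w = g (dep u - dep w)`). For `v ∈ S₀`, `v ≠ r`: `v = par^[i] u`, `sgn v = false`, arc
`f₀ v → f₀ (par v)`. EX2: `c ∈ tops par S₀`: `O c = nb A true X (f₀ (par c))` if `sgn c = true`,
`nb A false B (f₀ (par c))` if `sgn c = false` (disjoint from `M`). LF: `nb A true univ (f r) \ im ⊇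
nb A true X (f r) \ im` of size `≥ |LO| + 3 s + C0 - s`, `nb A false univ (f u) \ im ⊇
nb A false B (f u) \ im` of size `≥ |LI| + 3 s + C0 - s`, and these two subsets are disjoint. -/
def E2P_stmt : Prop :=
  ∀ (W V : Type) [Fintype W] [DecidableEq W] [Fintype V] [DecidableEq V] (A : V → V → Prop),
    Tour A → ∀ (r u : W) (par : W → W) (dep : W → ℕ), Rooted r par dep → ∀ (sgn : W → Bool)
    (LO LI : Finset W), Brm r u par sgn LO LI →
    ∀ s : ℕ, LO.card + LI.card + s = Fintype.card W →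
    (∀ k : ℕ, par^[k] u ≠ r → sgn (par^[k] u) = false) →
    ∀ (M X B : Finset V), Disjoint M X → Disjoint M B → Disjoint X B → dep u + 2 ≤ M.card →
      (∀ x ∈ M, LO.card + 3 * s + C0 ≤ (nb A true X x).card) →
      (∀ x ∈ M, LI.card + 3 * s + C0 ≤ (nb A false B x).card) →
      Full (V := V) A r par sgn

/-- E2H. One half of the two-sided case. Assume `OPV_stmt`, `OPA_stmt`, `E2N_stmt`, `GZ_stmt`,
`SIZ_stmt`, `DEG_stmt`, `DSC_stmt`.

PROOF. `n = |W|`, `a = |LO|`, `b = |LI|`, `a + b + s = n`, `|V| = 2 n - 2`, degrees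
`d⁺ + d⁻ = 2 n - 3` (SIZ). `X = low A true (a + G)`, `B = low A false (b + G)`, `M = mid A (a + G)
(b + G)`, `|M| ≤ R`. `|B| ≤ 2 b + 2 G - 1`, `|X| ≤ 2 a + 2 G - 1`, `|X| ≥ 2 n - 2 - |B| - R ≥
2 a + 2 s - 1 - 2 G - R`, `|B| ≥ 2 b + 2 s - 1 - 2 G - R`. `X` and `B` are disjoint
(`(a + G) + (b + G) ≤ 2 n - 3`). (D): for `x ∈ X`: `d⁻(x) ≥ 2 n - 3 - (a + G - 1) ≥ a + b + s`, for
`x ∈ B`: `d⁺(x) ≥ a + b + s` (as `a, b ≥ G + 2`).
Suppose `Full` fails.
(1) Signs on the path from `u` to `r` are `false`: otherwise E2N with `B' = {x ∈ B : 3 s + C0 ≤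
|nb A true X x|}`. `|B'| ≥ l := 3 s + C0`: otherwise by DEG 3
`∑ x ∈ X, |nb A true B x| = ∑ y ∈ B, |nb A false X y| ≥ (|B| - l) (|X| - l)`, while
`∑ x ∈ X, |nb A true B x| ≤ |X| (a + G - 1) - (|X|² - |X|) / 2 = |X| (2 a + 2 G - 1 - |X|) / 2 ≤
|X| (4 G + R) / 2`; but `|X| - l ≥ |X| / 2` and `|B| - l ≥ b > 4 G + R`. Contradiction.
(2) `z ∈ M`: if `u = r`: OPV first part gives `Full`, so `u ≠ r`. Then by (1) the vertex
`c' = par^[dep u - 1] u` has `par c' = r`, `c' ≠ r`, `sgn c' = false`, `u ∈ dsc par c'`, and OPV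
second part with `Y = X` gives `|nb A false X z| < 4 s + C0`.
(3) `y ∈ X` with `dv ≤ |nb A true X y|`, `dv = |chd r par sgn r true| ≥ a`: GZ with
`g = a + G - 1`, `e = 4 G + R`, `l = 4 s + C0` gives `Z`, `|Z| ≥ g / 4 ≥ s`;
`|nb A false X y| = |X| - 1 - |nb A true X y| ≥ |X| - (a + G) ≥ 4 s + C0`; OPA and (D). -/
def E2H_stmt : Prop :=
  ∀ (W V : Type) [Fintype W] [DecidableEq W] [Fintype V] [DecidableEq V] (A : V → V → Prop),
    Tour A → Fintype.card V + 2 = 2 * Fintype.card W →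
    ∀ (r u : W) (par : W → W) (dep : W → ℕ), Rooted r par dep → ∀ (sgn : W → Bool)
    (LO LI : Finset W), Brm r u par sgn LO LI →
    ∀ s G R : ℕ, LO.card + LI.card + s = Fintype.card W → 4 * s + C0 ≤ G →
    400 * (G + R) ≤ LO.card → 400 * (G + R) ≤ LI.card →
    (mid A (LO.card + G) (LI.card + G)).card ≤ R →
    Full (V := V) A r par sgn ∨
      ((∀ k : ℕ, par^[k] u ≠ r → sgn (par^[k] u) = false) ∧
       (∀ z ∈ mid A (LO.card + G) (LI.card + G), u ≠ r ∧
          (nb A false (low A true (LO.card + G)) z).card < 4 * s + C0) ∧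
       (∀ y ∈ low A true (LO.card + G),
          (nb A true (low A true (LO.card + G)) y).card < (chd r par sgn r true).card))

/-- BRG. Rooting. Assume `ROOT_stmt` (SU/Goals).

PROOF. ROOT for `SimpleGraph.fromRel D` and `r` gives `par, dep`; `sgn w = true` iff
`D (par w) w` (classical decision). `D x y` implies adjacency, so `x ≠ r ∧ par x = y` or `y ≠ r ∧
par y = x`; in the first case `sgn x = false` because `D (par x) x` is excluded by `D x (par x)`.
Conversely `y ≠ r`, `par y = x`, `sgn y = true` is `D x y`; `x ≠ r`, `par x = y`, `sgn x = false`: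
adjacency gives `D x y` or `D y x`, and the latter is excluded by the sign. -/
def BRG_stmt : Prop :=
  ∀ (W : Type) [Fintype W] [DecidableEq W] (D : W → W → Prop), OT D → ∀ r : W,
    ∃ (par : W → W) (dep : W → ℕ) (sgn : W → Bool), Rooted r par dep ∧ Rep D r par sgn

/-- REP. Facts about the rooted description.

PROOF. (1) `f` is injective on `univ`; an arc `D x y` is `y ≠ r, par y = x, sgn y = true` or
`x ≠ r, par x = y, sgn x = false`, use the arc condition of `Emb` at `y` resp. `x`.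
(2) symmetric. (3) `c ∈ OL D r` iff `D r c` and all neighbours of `c` are `r`; `D r c` with
`c ≠ r` (irreflexive) is `par c = r, sgn c = true` (the second alternative has `r ≠ r`); a child `w`
of `c` (`w ≠ r`, `par w = c`) is a neighbour of `c`, so it would be `r`. So `OL D r ⊆ chd`, and the
elements of `chd` outside have a child. (4) `c ∈ OL (Op D) u` means `D c u` and all
neighbours of `c` are `u`. `c ≠ r` since `r` has at least two different neighbours (elements of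
`OL D r`). If `u ≠ r ∧ par u = c ∧ sgn u = true` then `c ≠ r` has the neighbours `u` and `par c`
(`par c ≠ u` by depth), contradiction; so `par c = u`, `sgn c = false`. No child. `u ∉ OL D r` since `u`
has two different neighbours, `u ∉ OL (Op D) u` since `D u u` is impossible. (5), (6): definitions;
for (6) `D c u` iff `u ≠ r, par u = c, sgn u = true` or `c ≠ r, par c = u, sgn c = false`. -/
def REP_stmt : Prop :=
  ∀ (W V : Type) [Fintype W] [DecidableEq W] [Fintype V] (A : V → V → Prop) (D : W → W → Prop)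
    (r : W) (par : W → W) (dep : W → ℕ) (sgn : W → Bool),
    (∀ a b, D a b → ¬ D b a) → Rooted r par dep → Rep D r par sgn →
    (Full (V := V) A r par sgn → Cont A D) ∧
    Rep (Op D) r par (fun w => !sgn w) ∧
    (OL D r ⊆ chd r par sgn r true ∧
      (∀ c ∈ chd r par sgn r true, c ∉ OL D r → ∃ w, w ≠ r ∧ par w = c) ∧
      Brm r r par sgn (OL D r) ∅) ∧
    (∀ u : W, 2 ≤ (OL D r).card → 2 ≤ (OL (Op D) u).card →
      Brm r u par sgn (OL D r) (OL (Op D) u) ∧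
      (∀ c ∈ chd r par sgn u false, c ∉ OL (Op D) u → ∃ w, w ≠ r ∧ par w = c)) ∧
    chd r par sgn r true = OD D r ∧
    (∀ u : W, (u = r ∨ sgn u = false) → chd r par sgn u false = OD (Op D) u)

/-- E2. The two-sided case. Assume `E2H_stmt`, `E2P_stmt`, `COUNT_stmt`, `BRG_stmt`, `REP_stmt`,
`REV_stmt`, `SIZ_stmt`, `DEG_stmt`.

PROOF. `n = |W|`, `a = |OL D v|`, `b = |OL (Op D) u|`, `C0 ≤ G` so `a, b ≥ 2`. Let
`X = low A true (a + G)`, `B = low A false (b + G)`, `M = mid A (a + G) (b + G)`. Root `D` at `v`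
(BRG): `par, dep, sgn`. E2H for `A`, root `v`, `LO = OL D v`, `LI = OL (Op D) u`. Root `Op D` at `u`
(it is an oriented tree: `fromRel (Op D) = fromRel D`): `par', dep', sgn'`; E2H for `Op A`, root `u`,
`LO' = OL (Op D) u`, `LI' = OL (Op (Op D)) v = OL D v`. `mid (Op A) (b + G) (a + G) = M`,
`low (Op A) true (b + G) = B` (REV). If one of them gives `Full`, REP (1) gives `Cont A D`
(`Cont (Op A) (Op D)` is `Cont A D`). Otherwise: (1) signs on the path from `u` to `v` are `false`;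
(2) for `z ∈ M`: `u ≠ v`, `|nb A false X z| < 4 s + C0` and `|nb (Op A) false B z| =
|nb A true B z| < 4 s + C0`; (3) out-degrees in `X` are `< dv = |OD D v|`, in-degrees in `B` are
`< du = |OD (Op D) u|` (REP 5 for both roots). By DEG 5: `|X| ≤ 2 dv - 1`, `|B| ≤ 2 du - 1`
(`dv ≥ a ≥ 1`, `du ≥ b ≥ 1`), by SIZ `2 n - 2 ≤ |X| + |B| + |M|`, so `2 n ≤ 2 dv + 2 du + |M|`.
COUNT (first part; root `v`, `chd v ... u false = OD (Op D) u` by REP 6 and (1)):
`dep u + 1 + 2 dv + 2 du ≤ n + a + b = 2 n - s`. So `|M| ≥ s + dep u + 1 ≥ dep u + 2` (`s ≥ 1`: the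
root is not a leaf of the two kinds). So `M` is nonempty, `u ≠ v`, and E2P applies (root `v`): for
`x ∈ M`: `x ∉ X`, `|nb A true X x| = |X| - |nb A false X x| ≥ |X| - (4 s + C0) ≥ a + 3 s + C0` since
`|X| ≥ 2 n - 2 - (2 b + 2 G) - R ≥ 2 a - 2 G - R`; similarly
`|nb A false B x| = |B| - |nb A true B x| ≥ b + 3 s + C0`. `M, X, B` are pairwise disjoint
(`X ∩ B = ∅` because `(a + G) + (b + G) ≤ 2 n - 3`). -/
def E2_stmt : Prop :=
  ∀ (W V : Type) [Fintype W] [DecidableEq W] [Fintype V] [DecidableEq V] (A : V → V → Prop),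
    Tour A → Fintype.card V + 2 = 2 * Fintype.card W →
    ∀ (D : W → W → Prop), OT D → ∀ (v u : W) (s G R : ℕ),
    (OL D v).card + (OL (Op D) u).card + s = Fintype.card W → 4 * s + C0 ≤ G →
    400 * (G + R) ≤ (OL D v).card → 400 * (G + R) ≤ (OL (Op D) u).card →
    (mid A ((OL D v).card + G) ((OL (Op D) u).card + G)).card ≤ R → Cont A D

/-! ### The final assembly -/

/-- KEX. The core. Assume `DSC_stmt`.

PROOF. `K = {w : β < |dsc par w|}`. `dsc par r = univ`, so `r ∈ K`. `dsc par w ⊆ dsc par (par w)`, so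
`K` is closed. A top is outside `K`. `|K| β ≤ ∑ w ∈ K, |dsc par w| = ∑ x, |{w ∈ K : x ∈ dsc par w}| ≤
∑ x, (dep x + 1) ≤ |W| D'`, because `{w : x ∈ dsc par w} = {par^[k] x} = {par^[k] x : k ≤ dep x}`. -/
def KEX_stmt : Prop :=
  ∀ (W : Type) [Fintype W] [DecidableEq W] (r : W) (par : W → W) (dep : W → ℕ),
    Rooted r par dep → ∀ β D' : ℕ, β < Fintype.card W → (∀ w, dep w + 1 ≤ D') →
    ∃ K : Finset W, r ∈ K ∧ (∀ v ∈ K, par v ∈ K) ∧ (∀ c ∈ tops par K, (dsc par c).card ≤ β) ∧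
      K.card * β ≤ Fintype.card W * D'

/-- DEEP. A deep vertex finishes the proof by the path version of part 1. Assume `FPA_stmt`,
`ROOT_stmt` (SU/Goals; both are proved: SU/Main1).

PROOF. The graph `SimpleGraph.fromRel D` is a tree; let `p` be the path from `r` to `w`. Its length
is `dep w`: by ROOT (applied with root `r`: functions `par₁, dep₁`) `par₁ (p.getVert (i+1)) =
p.getVert i`. By `Rep`, adjacent vertices are parent and child, and along a path from `r` every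
next vertex is a child: induction on `i`: `par (p.getVert (i+1)) = p.getVert i` and
`dep (p.getVert i) = i` (the vertex `p.getVert (i+1)` is adjacent to `p.getVert i`; if it were the
parent of `p.getVert i`, then for `i ≥ 1` it equals `p.getVert (i-1)`, impossible on a path; for
`i = 0` the root has only children). So `p.length = dep w`. FPA with `N = 2 n - 2`:
`2 n - (dep w + 1) + 1 + erf n (n - (dep w + 1)) ≤ 2 n - 2` because
`erf n (n - (dep w + 1)) ≤ erf n n` (monotone in the second argument for `n ≥ 1`) and the hypothesis.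
`D` as a `Digraph (Fin n)`, `A` as a `Digraph (Fin (2 n - 2))`. -/
def DEEP_stmt : Prop :=
  ∀ (n : ℕ), 2 ≤ n → ∀ (A : Fin (2 * n - 2) → Fin (2 * n - 2) → Prop), Tour A →
    ∀ (D : Fin n → Fin n → Prop), OT D → ∀ (r : Fin n) (par : Fin n → Fin n) (dep : Fin n → ℕ)
      (sgn : Fin n → Bool), Rooted r par dep → Rep D r par sgn →
      ∀ w : Fin n, erf n n + 3 ≤ dep w + 1 → Cont A D

/-- NUM2. The numbers.

PROOF. Real number `x = n^(1/100) ≥ 10^(5/2)`, so `x^100 = n`, `x ≥ 316`, `x^2 ≥ 10^5`.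
`β = n / 10^12` (natural division), `β ≥ x^100 / 10^12 - 1 ≥ x^100 / (1.01 · 10^12)`.
`log n = 100 log x ≤ 100 x`, so `erf n n = 8 x^50 (log n + 3) + 54 log n (log n + 6) ≤
8 x^50 · 103 x + 54 · 100 x · 106 x ≤ 825 x^51`, `D' = ⌈erf n n⌉₊ + 2 ≤ 825 x^51 + 3 ≤ 826 x^51`.
From `m β ≤ n D'`: `m ≤ 1.01 · 10^12 · 826 x^51 ≤ 8.4 · 10^14 x^51`, which is `≤ x^100 / 10^12 - 1 ≤ β`.
`3 m + C0 ≤ 2.53 · 10^15 x^51`.
`t`: the least natural number with `8 n² ≤ 2^(13 t)`; `t ≥ 1`; `2^(13 (t - 1)) < 8 n²`, so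
`2^(13 t) < 65536 n²`. `(6^t)^5 = 7776^t ≤ 8192^t = 2^(13 t) < 65536 n² ≤ (9.2 x^40)^5`, so
`6^t ≤ 9.2 x^40`. `(4^t)^13 = (2^(13 t))^2 < (65536 n²)² = 65536² x^400 ≤ (5.6 x^31)^13`, so
`4^t ≤ 5.6 x^31`. Hence `8 (3 m + C0) 6^t ≤ 8 · 2.53 · 10^15 · 9.2 x^91 ≤ 1.87 · 10^17 x^91 ≤
x^100 / 2000 - 1` (as `x^9 ≥ 10^22`), and `2 (3 m + C0) 4^t ≤ 2.84 · 10^16 x^82 ≤ x^100 / 10^12 - 1`
(as `x^18 ≥ 10^44`). -/
def NUM2_stmt : Prop :=
  ∀ n : ℕ, 10 ^ 250 ≤ n → ∀ m : ℕ, m * (n / 10 ^ 12) ≤ n * (⌈erf n n⌉₊ + 2) →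
    m ≤ n / 10 ^ 12 ∧ C0 ≤ n / 10 ^ 12 ∧ ∃ t : ℕ, 1 ≤ t ∧ 8 * n ^ 2 ≤ 2 ^ (13 * t) ∧
      8 * (3 * m + C0) * 6 ^ t ≤ n / 2000 ∧ 2 * (3 * m + C0) * 4 ^ t ≤ n / 10 ^ 12

/-- HVY. From the rooted alternatives to heavy vertices. Assume `C1_stmt`, `CII_stmt`, `REV_stmt`,
`REP_stmt`, `DSC_stmt`, `KEX_stmt`, `DEEP_stmt`, `BRG_stmt`, `NUM2_stmt`.

PROOF. `W = Fin n`, `V = Fin (2 n - 2)`. Root `D` at any `r` (BRG). If some `w` has
`erf n n + 3 ≤ dep w + 1`: DEEP. Otherwise `dep w + 1 < erf n n + 3`, so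
`dep w + 1 ≤ ⌈erf n n⌉₊ + 2 = D'` (if `dep w + 1 ≥ ⌈erf⌉ + 3` then `≥ erf + 3`). KEX with
`β = n / 10^12 < n`: `K`, `m = |K|`; NUM2; so `Ctx A r par dep K β m`, `10^12 β ≤ n`. If
`9 β ≤ |mid A (p + 16 β) (q + 16 β)|` (`p = mas true`, `q = mas false`): C1 and REP (1). Otherwise
`|mid ...| ≤ 9 β`. Take `P = p`, `Q = q`, so `P + Q + |K| = n`, `|K| ≤ β`. If `n / 2000 ≤ p`: then
`500000000 β ≤ n / 2000 ≤ p`, CII: `Full` or `v` with `p ≤ #{c ∈ topv {v} : |dsc c| = 1} + 21000 β`;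
every such `c` is in `OL D v`: `par c = v`, `sgn c = true`, `c ≠ r`, so `D v c`; a neighbour of `c` is
`par c` or a child `w` of `c`, `w ∈ dsc c = {c}` impossible. If `n / 2000 ≤ q`: apply CII to
`Op A`, `!sgn` (REV: `mas` swaps, `mid` swaps), and `Rep (Op D) r par (!sgn)` (REP 2). -/
def HVY_stmt : Prop :=
  ∀ (n : ℕ), 10 ^ 250 ≤ n → ∀ (A : Fin (2 * n - 2) → Fin (2 * n - 2) → Prop), Tour A →
    ∀ (D : Fin n → Fin n → Prop), OT D → Cont A D ∨
      ∃ P Q : ℕ, P + Q ≤ n ∧ n ≤ P + Q + n / 10 ^ 12 ∧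
        (mid A (P + 16 * (n / 10 ^ 12)) (Q + 16 * (n / 10 ^ 12))).card ≤ 9 * (n / 10 ^ 12) ∧
        (n / 2000 ≤ P → ∃ v, P ≤ (OL D v).card + 21000 * (n / 10 ^ 12)) ∧
        (n / 2000 ≤ Q → ∃ u, Q ≤ (OL (Op D) u).card + 21000 * (n / 10 ^ 12))

/-- FIN. The final theorem. Assume `HVY_stmt`, `E1_stmt`, `E2_stmt`, `BRG_stmt`, `REP_stmt`,
`REV_stmt`.

PROOF. `β = n / 10^12`, `n < 10^12 (β + 1)`, `C0 ≤ β` (`β ≥ 10^237`). `A = T.Adj`, `D = D.Adj`. HVY:
either done or `P, Q`. Both `≥ n / 2000`: `a = |OL D v| ≥ P - 21000 β`, `b ≥ Q - 21000 β`. The sets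
`OL D v`, `OL (Op D) u` are disjoint (an element `c` of both has all neighbours equal to `v` and
to `u`, so `v = u` and `D v c`, `D c v`), so `a + b ≤ n`; `s = n - a - b ≤ 42001 β`. E2 with
`G = 170000 β ≥ 4 s + C0`, `R = 9 β`: `400 (G + R) = 68003600 β ≤ a` (as
`a ≥ n / 2000 - 21000 β ≥ 500000000 β - 21000 β`), same for `b`. `a + G ≥ P + 16 β`,
`b + G ≥ Q + 16 β`, so `mid A (a + G) (b + G) ⊆ mid A (P + 16 β) (Q + 16 β)` has at most `9 β`
elements.
Only `P ≥ n / 2000`: `Q < n / 2000`, `P ≥ n - β - n / 2000`, `a ≥ P - 21000 β`,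
`s = n - a ≤ n / 2000 + 21001 β`; root `D` at `v` (BRG), REP (3), E1 with `LO = OL D v`:
`400 (4 s + C0) ≤ 1600 (n / 2000 + 21001 β) + 400 β ≤ 0.8 n + 33602000 β ≤ 0.81 n ≤ a`
(`β ≤ n / 10^12`). Then REP (1).
Only `Q ≥ n / 2000`: the same for `Op A`, `Op D` (`Cont (Op A) (Op D) ↔ Cont A D`, `OT (Op D)`,
`Tour (Op A)`). Neither: `n ≤ P + Q + β < n / 2000 + n / 2000 + β`, impossible. -/
def FIN_stmt : Prop :=
  ∀ n : ℕ, 10 ^ 250 ≤ n → ∀ T : Digraph (Fin (2 * n - 2)),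
    (∀ u v, T.Adj u v → ¬ T.Adj v u) → (∀ u v, u ≠ v → T.Adj u v ∨ T.Adj v u) →
    ∀ D : Digraph (Fin n), (∀ a b, D.Adj a b → ¬ D.Adj b a) →
      (SimpleGraph.fromRel D.Adj).IsTree →
      ∃ f : Fin n → Fin (2 * n - 2),
        Function.Injective f ∧ ∀ a b, D.Adj a b → T.Adj (f a) (f b)

end Pool.Agent.Helper18.SU
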