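import Pool.Agent.Helper18.SU.Goals2

/-!
Oriented trees in tournaments, part 2, improved constants: for all `n ≥ 10 ^ 30` every oriented
tree with `n` vertices is contained in every tournament with `2 n - 2` vertices. Ball growing
replaces dependent random choice. Statements which are unchanged stay in Goals2.
-/

set_option autoImplicit false

namespace Pool.Agent.Helper18.SU

open Classical in
/-- The vertices of `S` in the branches at `c` of sign `d`. -/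
noncomputable def brn {W : Type} [Fintype W] (par : W → W) (sgn : W → Bool) (S : Finset W)
    (c : W) (d : Bool) : Finset W :=
  S.filter (fun w => ∃ c', c' ≠ c ∧ par c' = c ∧ sgn c' = d ∧ w ∈ dsc par c')

/-- The size of the symmetric difference of the out-neighbourhoods in `X`. -/
noncomputable def dst {V : Type} [DecidableEq V] (A : V → V → Prop) (X : Finset V) (x y : V) : ℕ :=
  (nb A true X x \ nb A true X y).card + (nb A true X y \ nb A true X x).card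

/-! ### Ball growing -/

/-- DST. Facts about `dst`.

PROOF. All are element counts: every element of `X` (all neighbourhoods are subsets of `X`)
contributes `0` or `2` to `dst x y + dst y z + dst x z`. (5), (6): `|N x| = |N x \ N y| +
|N x ∩ N y|`. -/
def DST_stmt : Prop :=
  ∀ (V : Type) [DecidableEq V] (A : V → V → Prop) (X : Finset V),
    (∀ x, dst A X x x = 0) ∧
    (∀ x y, dst A X x y = dst A X y x) ∧
    (∀ x y z, dst A X x z ≤ dst A X x y + dst A X y z) ∧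
    (∀ x y z, dst A X x y + dst A X y z + dst A X x z ≤ 2 * X.card) ∧
    (∀ x y, (nb A true X x).card + (nb A true X y).card =
      dst A X x y + 2 * (nb A true X x ∩ nb A true X y).card) ∧
    (∀ x y, dst A X x y + (nb A true X x).card =
      2 * (nb A true X x \ nb A true X y).card + (nb A true X y).card)

/-- BAL. Balls are at most half of a nearly regular tournament. Assume `DEG_stmt`.

PROOF. `B` the set in question, `Q = B \ nb A true X x`. For `y ∈ Q` the set `nb A true Q y` is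
contained in `nb A true X y \ nb A true X x`, so it has at most `ρ` elements; DEG 5: `|Q| ≤ 2 ρ + 1`.
`|B ∩ nb A true X x| ≤ g`. -/
def BAL_stmt : Prop :=
  ∀ (V : Type) [DecidableEq V] (A : V → V → Prop), Tour A → ∀ (X : Finset V) (g : ℕ),
    (∀ x ∈ X, (nb A true X x).card ≤ g) → ∀ x ∈ X, ∀ ρ : ℕ,
    (X.filter (fun y => dst A X x y ≤ ρ)).card ≤ g + 2 * ρ + 1

/-- IBG. Ball growing for one set without nearly antipodal pairs.

PROOF. For `T ⊆ S` and `x ∈ T`, `j ≤ J` let `B_j = {y ∈ T : d x y ≤ j δ}`,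
`B*_j = {y ∈ T : D ≤ d x y + j δ}` and `c_j = max |B_j| |B*_j|`. `c_0 ≥ 1` (`x ∈ B_0`) and
`c_J ≤ |S| ≤ g^J`, so there is `j < J` with `c_(j+1) ≤ g c_j` (otherwise `c_J > g^J c_0`).
A pair `y, z` is bad if `D < d y z + δ`.
(a) If `c_j = |B_j|` put `P = B_j`, `Q = B*_(j+1)`. `|Q| ≤ g |P|`. For `z, z' ∈ P`:
`d z z' + δ ≤ 2 j δ + δ ≤ D`, not bad. If `z ∈ P`, `y ∈ T` is bad with `z` then
`d x y ≥ d z y - d x z > D - δ - j δ`, so `y ∈ Q`.
(b) If `c_j = |B*_j|` put `P = B*_j`, `Q = B_(j+1)`. `|Q| ≤ g |P|`. For `z, z' ∈ P`: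
`d z z' ≤ 2 D - d x z - d x z' ≤ 2 j δ`, not bad. If `z ∈ P`, `y` is bad with `z` then
`d x y ≤ 2 D - d x z - d z y ≤ j δ + δ`, so `y ∈ Q`.
In both cases `P` is nonempty, has no bad pair (also not `z = z'`), and no element of
`T \ (P ∪ Q)` is bad with an element of `P`; `|P ∪ Q| ≤ (1 + g) |P|`.
Claim by induction on `k ≤ μ`: there are disjoint `Y, T ⊆ S` with no bad pair in `Y`, no bad pair
in `Y × T`, `k ≤ |Y|`, and `(|Y| ≥ μ` or `|S| ≤ |T| + (1 + g) |Y|)`. Start: `Y = ∅`, `T = S`. Step: if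
`|Y| ≥ μ` done; otherwise `|T| ≥ |S| - (1 + g) (μ - 1) > 0`, take `x ∈ T`, `P, Q` as above,
`Y' = Y ∪ P`, `T' = T \ (P ∪ Q)`. -/
def IBG_stmt : Prop :=
  ∀ (V : Type) [DecidableEq V] (d : V → V → ℕ) (D δ g J μ : ℕ) (S : Finset V),
    (∀ x, d x x = 0) → (∀ x y, d x y = d y x) → (∀ x y z, d x z ≤ d x y + d y z) →
    (∀ x y z, d x y + d y z + d x z ≤ 2 * D) → 1 ≤ g → 1 ≤ J → S.card ≤ g ^ J →
    2 * J * δ + δ ≤ D → (1 + g) * μ ≤ S.card →
    ∃ X ⊆ S, μ ≤ X.card ∧ ∀ x ∈ X, ∀ y ∈ X, d x y + δ ≤ D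

/-- TBG. Ball growing for two distant sets.

PROOF. For `T ⊆ S`, `x ∈ T` let `B_j = {y ∈ T : d x y ≤ j δ}`; `|B_0| ≥ 1`, `|B_J| ≤ g^J`, so
`|B_(j+1)| ≤ g |B_j|` for some `j < J`. `P = B_j`, `Q = B_(j+1) ⊇ P`; for `z ∈ P`,
`y ∈ T \ Q`: `d z y ≥ d x y - d x z > (j+1) δ - j δ = δ`. Claim by induction on `k ≤ μ`: there are
`Y, T ⊆ S`, disjoint, with `δ < d z y` for all `z ∈ Y`, `y ∈ T`, `k ≤ |Y|`, and either (`μ ≤ |Y|`,
`μ ≤ |T|`) or `|S| ≤ |T| + g |Y|`. Start `Y = ∅`, `T = S`. Step: if `|Y| ≥ μ` and `|T| ≥ μ` done.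
If `|Y| < μ`: `|T| ≥ |S| - g μ > 0` (if `Bm + μ = 0` then `μ = 0`, trivial), `x ∈ T`, `P, Q`,
`Y' = Y ∪ P`, `T' = T \ Q`, `|S| ≤ |T'| + |Q| + g |Y| ≤ |T'| + g |Y'|`. If now `|Y'| ≥ μ`: then
`|Q| ≤ Bm` and `|T'| ≥ |T| - Bm ≥ |S| - g |Y| - Bm ≥ |S| - g μ - Bm ≥ μ`, so the first alternative
holds. (So whenever `|Y| ≥ μ` the first alternative holds.) -/
def TBG_stmt : Prop :=
  ∀ (V : Type) [DecidableEq V] (d : V → V → ℕ) (δ g J μ Bm : ℕ) (S : Finset V),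
    (∀ x, d x x = 0) → (∀ x y, d x y = d y x) → (∀ x y z, d x z ≤ d x y + d y z) →
    1 ≤ g → 1 ≤ J → S.card ≤ g ^ J →
    (∀ x ∈ S, (S.filter (fun y => d x y ≤ J * δ)).card ≤ Bm) →
    Bm + (g + 1) * μ ≤ S.card →
    ∃ X1 ⊆ S, ∃ X2 ⊆ S, Disjoint X1 X2 ∧ μ ≤ X1.card ∧ μ ≤ X2.card ∧
      ∀ x ∈ X1, ∀ y ∈ X2, δ < d x y

/-! ### Case I -/

/-- CAS1. Case I (replaces C1). Assume `CI1_stmt`, `CI3_stmt`, `IBG_stmt`, `DST_stmt`, `DSC_stmt`,
`SIZ_stmt`.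

PROOF. `n = |W|`, `|V| = 2 n - 2`, `p = mas true`, `q = mas false`, `p + q + |K| = n`, `μ = 3 m + C0`,
`H = 2 β + C0 + 2`; `d⁺ + d⁻ = 2 n - 3`. `M' = mid A (p + G) (q + G)`. `R1 = {x ∈ M' : d⁺ + H + 1 ≤ n}`,
`R2 = {x ∈ M' : d⁻ + H + 1 ≤ n}`, `R3` = the rest of `M'`.
`|R1| ≥ μ`: CI1 with `d = true` (`d⁺ ≥ p + G ≥ p + 2 β + m + C0`,
`d⁻ ≥ 2 n - 3 - (n - H - 1) = n - 2 + H = n + 2 β + C0`). `|R2| ≥ μ`: CI1 with `d = false`.
Otherwise `|R3| ≥ (1 + g) μ`; on `R3`: `d⁺ + H ≥ n`, `d⁻ + H ≥ n`.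
If `q ≤ 4 β + 2 C0 + 1`: CI1 with `d = false`, `X = R3`: `d⁻ ≥ q + G`, and `d⁺ ≥ p + G ≥
p + 6 β + m + 3 C0 + 2 ≥ n + 2 β + C0` because `n ≤ p + m + 4 β + 2 C0 + 1`.
Otherwise `κ = H`, `τ = 2 κ + 11 β + 4 C0 = 15 β + 6 C0 + 4`, `δ = 34 β + 2 m + 14 C0 + 12`. IBG with
`S = R3`, `d = dst A univ`, `D = |V|` (`2 J δ + δ ≤ n ≤ 2 n - 2`, `|R3| ≤ |V| ≤ g^J`): `X ⊆ R3`,
`|X| ≥ μ`, and for `x, y ∈ X`: `dst x y ≤ 2 n - 2 - δ`, so by DST 5
`2 |N⁺ x ∩ N⁺ y| = d⁺ x + d⁺ y - dst x y ≥ 2 (n - H) - (2 n - 2 - δ) = δ + 2 - 2 H ≥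
2 (τ + m)`. CI3: `τ + κ + m ≤ n`, `κ + 5 β + 2 C0 = 7 β + 3 C0 + 2 ≤ p` (`p ≥ q`, so
`2 p ≥ n - m ≥ 102 β + ...`), `κ + 2 β + C0 = 4 β + 2 C0 + 2 ≤ q`. -/
def CAS1_stmt : Prop :=
  ∀ (W V : Type) [Fintype W] [DecidableEq W] [Fintype V] [DecidableEq V] (A : V → V → Prop)
    (r : W) (par : W → W) (dep : W → ℕ) (sgn : W → Bool) (K : Finset W) (β m G g J : ℕ),
    Ctx A r par dep K β m → mas par sgn K false ≤ mas par sgn K true →
    6 * β + m + 3 * C0 + 2 ≤ G → 1 ≤ g → 1 ≤ J →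
    (2 * J + 1) * (34 * β + 2 * m + 14 * C0 + 12) ≤ Fintype.card W →
    2 * Fintype.card W ≤ g ^ J →
    (3 + g) * (3 * m + C0) ≤ (mid A (mas par sgn K true + G) (mas par sgn K false + G)).card →
    Full (V := V) A r par sgn

/-! ### Case II -/

/-- IND3. As IND, with a sharper bound when there are many vertices in components of sign
`false`. Assume `CAN_stmt`, `GRE_stmt`, `DSC_stmt`, `DEG_stmt`.

PROOF. As IND (the two cases of IND are now the two alternatives of the hypothesis; in the first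
one the places are outside `X`, so the intersection is empty). -/
def IND3_stmt : Prop :=
  ∀ (W V : Type) [Fintype W] [DecidableEq W] [Fintype V] [DecidableEq V] (A : V → V → Prop)
    (r : W) (par : W → W) (dep : W → ℕ) (sgn : W → Bool) (K : Finset W)
    (β m G E1 E2 E3 : ℕ), Ctx A r par dep K β m →
    2 * mas par sgn K true ≤ (low A true (mas par sgn K true + G)).card + E1 →
    (low A true (mas par sgn K true + G)).card ≤ 2 * mas par sgn K true + 2 * G →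
    (3 * G + E2 + 2 * β + C0 + 3 ≤ mas par sgn K false ∨
      (mas par sgn K false ≤ E3 ∧
        E1 + G + m + E3 + 2 * β + C0 + 1 ≤ mas par sgn K true)) →
    ∀ f₀ : W → V, Emb A r par sgn K
      (typ A (low A true (mas par sgn K true + G)) (mas par sgn K true) E2) f₀ →
    ∃ U : W → Finset V, Plc (bsz par Finset.univ) (itm A r par sgn Finset.univ)
        (fun c => nb A false Finset.univ (f₀ (par c)) \ K.image f₀) (topd par sgn K false) U ∧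
      (((topd par sgn K false).biUnion U) ∩ low A true (mas par sgn K true + G)).card ≤ E3

/-- SPL3. The split case (CII1 with IND3). Assume `CAN_stmt`, `TG_stmt`, `DSC_stmt`, `DEG_stmt`,
`GLU_stmt`, `IND3_stmt`, `KSPL_stmt`, `WGT_stmt`.

PROOF. Exactly as CII1. -/
def SPL3_stmt : Prop :=
  ∀ (W V : Type) [Fintype W] [DecidableEq W] [Fintype V] [DecidableEq V] (A : V → V → Prop)
    (r : W) (par : W → W) (dep : W → ℕ) (sgn : W → Bool) (K : Finset W)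
    (β m G E1 E2 E3 θ τ : ℕ), Ctx A r par dep K β m →
    2 * mas par sgn K true ≤ (low A true (mas par sgn K true + G)).card + E1 →
    (low A true (mas par sgn K true + G)).card ≤ 2 * mas par sgn K true + 2 * G →
    (3 * G + E2 + 2 * β + C0 + 3 ≤ mas par sgn K false ∨
      (mas par sgn K false ≤ E3 ∧
        E1 + G + m + E3 + 2 * β + C0 + 1 ≤ mas par sgn K true)) →
    (E2 + m + E3) + 5 * β + 2 * C0 ≤ θ →
    2 * (E2 + m + E3) + 11 * β + 4 * C0 ≤ τ →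
    ∀ v ∈ K, ∀ (σ : Bool) (C : Finset W), (∀ c ∈ C, c ∈ K ∧ c ≠ r ∧ par c = v ∧ sgn c = σ) →
    θ ≤ wgt par sgn K (cut par K C) → θ + wgt par sgn K (cut par K C) ≤ mas par sgn K true →
    ∀ X1 X2 : Finset V,
      X1 ⊆ typ A (low A true (mas par sgn K true + G)) (mas par sgn K true) E2 →
      X2 ⊆ typ A (low A true (mas par sgn K true + G)) (mas par sgn K true) E2 →
      Disjoint X1 X2 → 4 * (3 * m + C0) ≤ X1.card → 4 * (3 * m + C0) ≤ X2.card →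
      (∀ x ∈ X1, ∀ y ∈ X2, τ + m + E3 ≤
        (nb A true (low A true (mas par sgn K true + G)) x \
          nb A true (low A true (mas par sgn K true + G)) y).card) →
      Full (V := V) A r par sgn

/-- The hypotheses of Case II, in units `u`. -/
def C2H {W V : Type} [Fintype W] [Fintype V] (A : V → V → Prop) (r : W) (par : W → W)
    (dep : W → ℕ) (sgn : W → Bool) (K : Finset W) (u m g e : ℕ) : Prop :=
  Ctx A r par dep K (100 * u) m ∧ m ≤ 100 * u ∧ 10 * C0 ≤ u ∧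
  3060000 * u ≤ mas par sgn K true ∧
  ((8504 * u ≤ mas par sgn K false ∧ e = 0) ∨
    (mas par sgn K false ≤ 8504 * u ∧ e = 8504 * u ∧ 10000000 * u ≤ mas par sgn K true)) ∧
  1 ≤ g ∧ 2 * Fintype.card W ≤ g ^ 14 ∧ (g + 1) * (4 * (3 * m + C0)) ≤ 181800 * u ∧
  (mid A (mas par sgn K true + 701 * u) (mas par sgn K false + 701 * u)).card ≤ 1501 * u

/-- CIA3. The split case, assembled (replaces CIIA). Assume `ASZ_stmt`, `TYP_stmt`, `BAL_stmt`,
`TBG_stmt`, `DST_stmt`, `SPL3_stmt`, `DSC_stmt`, `SIZ_stmt`.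

PROOF. `n = |W|`, `p = mas true`, `q = mas false`, `β = 100 u`, `G = 701 u`, `E1 = 2903 u`,
`E2 = 6200 u`, `E3 = e`, `X = low A true (p + G)`, `1 ≤ C0`, `10 C0 ≤ u`. ASZ (`R = 1501 u`):
`2 p ≤ |X| + 2903 u`, `|X| ≤ 2 p + 1402 u`. TYP: `k = |X \ typ|`, `2 k · 6901 u ≤ |X| (1402 u + 2903 u
+ 1) ≤ 4306 u |X|`, so `13802 k ≤ 4306 |X|` and `13802 |typ| ≥ 9496 |X| ≥ 9496 (2 p - 2903 u)`.
`τ = 13701 u + 2 e`, `θ = 6801 u + e`. TBG with `S = typ`, `d = dst A X`, `δ = 34503 u + 6 e`, `J = 14`,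
`μ = 4 (3 m + C0)`, `Bm = p + 701 u + 2 · 14 δ + 1` (BAL with `g = p + 701 u`, `ρ = 14 δ`;
`typ ⊆ X`): `Bm + (g + 1) μ ≤ p + 701 u + 966084 u + 168 e + 1 + 181800 u = p + 1148585 u + 168 e + 1`;
this is `≤ |typ|` since `13802 (p + 1148585 u + 168 e + 1) ≤ 18992 p - 27566888 u`: for `e = 0` use
`p ≥ 3060000 u` (`5190 · 3060000 = 15881400000`, `13802 · 1148585 + 27566888 = 15880337058`), for
`e = 8504 u` use `p ≥ 10000000 u`. For `x ∈ X1`, `y ∈ X2`: by DST 6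
`2 |N x \ N y| = dst x y + |N x| - |N y| ≥ (34503 u + 6 e + 1) + (p - 6200 u) - (p + 701 u) ≥
2 (13801 u + 3 e)`, so `|N x \ N y| ≥ 13801 u + 3 e ≥ τ + m + E3`. SPL3: the alternative: `3 G + E2 +
2 β + C0 + 3 = 8503 u + C0 + 3 ≤ 8504 u`, resp. `2903 u + 701 u + m + e + 200 u + C0 + 1 ≤ p`;
`(E2 + m + E3) + 5 β + 2 C0 ≤ 6800 u + e + 2 C0 ≤ θ`, `2 (E2 + m + E3) + 11 β + 4 C0 ≤ τ`. -/
def CIA3_stmt : Prop :=
  ∀ (W V : Type) [Fintype W] [DecidableEq W] [Fintype V] [DecidableEq V] (A : V → V → Prop)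
    (r : W) (par : W → W) (dep : W → ℕ) (sgn : W → Bool) (K : Finset W) (u m g e : ℕ),
    C2H A r par dep sgn K u m g e →
    ∀ v ∈ K, ∀ (σ : Bool) (C : Finset W), (∀ c ∈ C, c ∈ K ∧ c ≠ r ∧ par c = v ∧ sgn c = σ) →
    6801 * u + e ≤ wgt par sgn K (cut par K C) →
    6801 * u + e + wgt par sgn K (cut par K C) ≤ mas par sgn K true →
    Full (V := V) A r par sgn

/-- GZ3. Many out-neighbours of `y` have many neighbours of both kinds in the in-neighbourhood of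
`y` (replaces GZ). Assume `DEG_stmt`.

PROOF. `P = nb A true X y`, `Q = nb A false X y`, `w = |Q|`, `π = |P| ≤ g`, `π + w + 1 = |X| ≤
2 g + 1` (DEG 5), so `2 g - e - 1 - π ≤ w ≤ 2 g - π ≤ g + l`, `w ≥ g - e - 1`. All `z ∈ P` are
outside `Q`.
`P1 = {z ∈ P : |nb A true Q z| < l}`. For `z ∈ P1`: `|nb A false Q z| ≥ w - l + 1`. Now
`w g ≥ ∑_{x ∈ Q} |nb A true X x| ≥ ∑_{x ∈ Q} |nb A true Q x| + ∑_{x ∈ Q} |nb A true P1 x| =
(w² - w) / 2 + ∑_{z ∈ P1} |nb A false Q z| ≥ (w² - w) / 2 + |P1| (w - l + 1)`, so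
`2 |P1| (w - l + 1) ≤ w (2 g - w + 1) = (w - l + 1) (2 g - w + 1) + (l - 1) (2 g - w + 1)`. As
`2 g - w + 1 ≤ g + e + 2 ≤ (3/2) (g - e - l) ≤ (3/2) (w - l + 1)` (this is `5 e + 3 l + 4 ≤ g`):
`2 |P1| ≤ 2 g - w + 1 + (3/2) l`.
`P2 = {z ∈ P : |nb A false Q z| < l}`: for `z ∈ P2`: `|nb A true P2 z| ≤ |nb A true X z| -
|nb A true Q z| ≤ g - (w - l + 1)`, so (DEG 5) `|P2| ≤ 2 (g - w + l - 1) + 1` if `P2 ≠ ∅`; in all
cases `|P2| ≤ 2 g + 2 l - 2 w` (for `P2 = ∅` because `w ≤ g + l`).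
`Z = P \ (P1 ∪ P2)`: `2 |Z| ≥ 2 π - (2 g - w + 1 + (3/2) l) - (4 g + 4 l - 4 w) =
2 π - 6 g + 5 w - (11/2) l - 1 ≥ 2 π - 6 g + 5 (2 g - e - 1 - π) - (11/2) l - 1 ≥
g - 5 e - (11/2) l - 6` (use `π ≤ g`). -/
def GZ3_stmt : Prop :=
  ∀ (V : Type) [DecidableEq V] (A : V → V → Prop), Tour A → ∀ (X : Finset V) (y : V),
    y ∈ X → ∀ g e l : ℕ, (∀ x ∈ X, (nb A true X x).card ≤ g) → 2 * g ≤ X.card + e →
    g ≤ (nb A true X y).card + l → 5 * e + 3 * l + 4 ≤ g →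
    ∃ Z ⊆ nb A true X y, g ≤ 2 * Z.card + 5 * e + 6 * l + 6 ∧ ∀ z ∈ Z,
      l ≤ (nb A true (nb A false X y) z).card ∧ l ≤ (nb A false (nb A false X y) z).card

/-- CIB3. The concentrated case (replaces CII2). Assume `SUBT_stmt`, `CAN_stmt`, `GRE_stmt`,
`DSC_stmt`, `DEG_stmt`, `GLU_stmt`, `ASZ_stmt`, `TYP_stmt`, `IND3_stmt`, `GZ3_stmt`, `TOPK_stmt`,
`EXK_stmt`, `WGT_stmt`.

PROOF. As CII2 with `β = 100 u`, `G = 701 u`, `E1 = 2903 u`, `E2 = 6200 u`, `E3 = e`,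
`E4 = 6501 u + e ≥ E2 + m + E3 + 2 β + C0`. `|typ| ≥ p` (as in CIA3: `13802 |typ| ≥ 9496 (2 p -
2903 u)`) and `p ≥ 3 m + C0`. SUBT: `f₀` embeds `K` into `typ`, `y = f₀ v`, `P = nb A true X y`,
`|P| ≥ p - 6200 u`, `Q = nb A false X y`. IND3: `U₀`, `F₁ = K.image f₀ ∪ ⋃ U₀`,
`|F₁ ∩ X| ≤ m + e`. Step 1: `I₁ = {c ∈ topd true : par c ≠ v}`, mass `≤ 20403 u + 3 e`; GRE with
`O c = nb A true X (f₀ (par c)) \ F₁` (`|O c| ≥ p - 6200 u - m - e`). `|F₂ ∩ X| ≤ 20503 u + 4 e`.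
Step 2: `C₂ ⊆ {c ∈ topv {v} : 2 ≤ |dsc c|}` minimal with `∑ |dsc c| ≥ 13002 u + 2 e`, so
`∑ ≤ 13102 u + 2 e =: M`. GZ3 with `g = p + 701 u - 1`, `e_GZ = 4305 u`, `l = 34006 u + 6 e`
(`2 g ≤ |X| + 4305 u`, `g ≤ |P| + 6901 u`, `5 · 4305 u + 3 l + 4 ≤ g`): `2 |Z| ≥ p - 224861 u - 36 e`.
EXK with `F = F₂`, `Z`, `Q`, `M`, `β`: `|Z \\ F₂| ≥ |Z| - 20503 u - 4 e ≥ M`,
`|nb A _ Q z \\ F₂| ≥ l - 20503 u - 4 e ≥ M + 4 β + C0`. Step 3 as in CII2:
`(mass C₂) / 2 ≥ 6501 u + e ≥ E2 + m + E3 + 2 β + C0`. -/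
def CIB3_stmt : Prop :=
  ∀ (W V : Type) [Fintype W] [DecidableEq W] [Fintype V] [DecidableEq V] (A : V → V → Prop)
    (r : W) (par : W → W) (dep : W → ℕ) (sgn : W → Bool) (K : Finset W) (u m g e : ℕ),
    C2H A r par dep sgn K u m g e →
    ∀ v ∈ K, mas par sgn K true ≤ wgt par sgn K {v} + (20403 * u + 3 * e) →
    13002 * u + 2 * e ≤ ∑ c ∈ (topv par sgn K {v}).filter (fun c => 2 ≤ (dsc par c).card),
      (dsc par c).card →
    Full (V := V) A r par sgn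

/-- CII3. Case II (replaces CII). Assume `CIA3_stmt`, `CIB3_stmt`, `WT_stmt`, `WGT_stmt`,
`DSC_stmt`.

PROOF. WT with `ω x = wgt par sgn K {x}`, `θ = 6801 u + e` (`∑ x ∈ K, ω x = mas true`,
`3 θ ≤ mas true`). Second alternative of WT: CIA3 (`∑ x ∈ cut, ω x = wgt (cut)` by WGT). First
alternative: `mas true ≤ wgt {v} + 20403 u + 3 e`. If the components with at least two vertices at
`v` have total mass at least `13002 u + 2 e`: CIB3. Otherwise `wgt {v} = (number of c ∈ topv {v}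
with |dsc c| = 1) + (mass of the others) ≤ number + 13002 u + 2 e`. -/
def CII3_stmt : Prop :=
  ∀ (W V : Type) [Fintype W] [DecidableEq W] [Fintype V] [DecidableEq V] (A : V → V → Prop)
    (r : W) (par : W → W) (dep : W → ℕ) (sgn : W → Bool) (K : Finset W) (u m g e : ℕ),
    C2H A r par dep sgn K u m g e →
    Full (V := V) A r par sgn ∨
      ∃ v ∈ K, mas par sgn K true ≤
        ((topv par sgn K {v}).filter (fun c => (dsc par c).card = 1)).card + 33405 * u + 5 * e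

/-! ### Exactness -/

/-- BRN. Branches. Assume `DSC_stmt`.

PROOF. (1) `w ∈ dsc c' ∩ dsc c''` with `par c' = par c'' = c`, `c', c'' ≠ c`: both are different
from `r` (if `c' = r` then `c = par r = r = c'`), so they have the same depth `dep c + 1`; two
iterates of `w` of the same depth are equal, so `c' = c''` and the signs agree. (2) `w ∈ dsc par c`,
`w ≠ c`: let `k` be minimal with `par^[k] w = c`, `c' = par^[k-1] w`. (3) `c ∈ dsc par c'` contradicts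
`dep c < dep c'` (DSC 4). -/
def BRN_stmt : Prop :=
  ∀ (W : Type) [Fintype W] [DecidableEq W] (r : W) (par : W → W) (dep : W → ℕ),
    Rooted r par dep → ∀ (sgn : W → Bool) (S : Finset W) (c : W),
    Disjoint (brn par sgn S c true) (brn par sgn S c false) ∧
    (S ⊆ dsc par c → ∀ w ∈ S, w ≠ c → w ∈ brn par sgn S c true ∨ w ∈ brn par sgn S c false) ∧
    (∀ d, c ∉ brn par sgn S c d) ∧
    (brn par sgn S c true).card + (brn par sgn S c false).card ≤ S.card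

/-- STR3. A subtree with prescribed image of its top (sharper form of STAR). Assume `SUBT_stmt`,
`DSC_stmt`, `BRN_stmt`.

PROOF. As STAR: SUBT embeds `brn true` in `T1` and `brn false` in `T0`; `T1`, `T0` are disjoint
because `Arc A true z y` and `Arc A false z y` exclude each other, and `z` is in neither of them. -/
def STR3_stmt : Prop :=
  ∀ (W V : Type) [Fintype W] [DecidableEq W] [DecidableEq V] (A : V → V → Prop), Tour A →
    ∀ (r : W) (par : W → W) (dep : W → ℕ), Rooted r par dep → ∀ (sgn : W → Bool)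
      (S : Finset W) (c : W), c ∈ S → S ⊆ dsc par c → (∀ w ∈ S, w ≠ c → par w ∈ S) →
      ∀ (z : V) (T1 T0 : Finset V), (∀ y ∈ T1, Arc A true z y) → (∀ y ∈ T0, Arc A false z y) →
      3 * (brn par sgn S c true).card + C0 ≤ T1.card →
      3 * (brn par sgn S c false).card + C0 ≤ T0.card →
      ∃ f : W → V, Emb A r par sgn S (insert z (T1 ∪ T0)) f ∧ f c = z ∧
        (∀ w ∈ brn par sgn S c true, f w ∈ T1) ∧ (∀ w ∈ brn par sgn S c false, f w ∈ T0)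

/-- OPV3. The root at a vertex `z` of large degrees (replaces OPV). Assume `STR3_stmt`, `BRN_stmt`,
`LF_stmt`, `DSC_stmt`, `DEG_stmt`.

PROOF. `S = univ \ (LO ∪ LI)`, `|S| = s`, `T = brn par sgn S r true`, `T' = brn par sgn S r false`.
First part (`u = r`): STR3 with `c = r`, `T1 = nb A true univ z`, `T0 = nb A false univ z`. LF:
`im ∩ nb A true univ z = f (T)`, so `|nb A true univ z \ im| ≥ |LO| + 2 |T| + C0 ≥ |LO|`, similarly
`|nb A false univ z \ im| ≥ |LI|`; the two sets are disjoint. Second part: STR3 with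
`T1 = nb A true univ z`, `T0 = nb A false Y z` (`3 |T'| ≤ 3 s`); `u ∈ T'`, so `f u ∈ Y`,
`|nb A false univ (f u) \ im| ≥ |LO| + |LI| + s - s`; `im ∩ nb A true univ z = f (T)` as before. -/
def OPV3_stmt : Prop :=
  ∀ (W V : Type) [Fintype W] [DecidableEq W] [Fintype V] [DecidableEq V] (A : V → V → Prop),
    Tour A → ∀ (r u : W) (par : W → W) (dep : W → ℕ), Rooted r par dep → ∀ (sgn : W → Bool)
    (LO LI : Finset W), Brm r u par sgn LO LI →
    ∀ s : ℕ, LO.card + LI.card + s = Fintype.card W →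
    (u = r → ∀ z : V,
      LO.card + 3 * (brn par sgn (Finset.univ \ (LO ∪ LI)) r true).card + C0 ≤
        (nb A true Finset.univ z).card →
      LI.card + 3 * (brn par sgn (Finset.univ \ (LO ∪ LI)) r false).card + C0 ≤
        (nb A false Finset.univ z).card → Full (V := V) A r par sgn) ∧
    (∀ c', c' ≠ r → par c' = r → sgn c' = false → u ∈ dsc par c' →
      ∀ (z : V) (Y : Finset V),
      LO.card + 3 * (brn par sgn (Finset.univ \ (LO ∪ LI)) r true).card + C0 ≤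
        (nb A true Finset.univ z).card →
      3 * s + C0 ≤ (nb A false Y z).card →
      (∀ y ∈ Y, LO.card + LI.card + s ≤ (nb A false Finset.univ y).card) →
      Full (V := V) A r par sgn)

/-- OPA3. As OPA with `3 s + C0` instead of `4 s + C0`. Assume `EX2_stmt`, `LF_stmt`, `DSC_stmt`,
`DEG_stmt`.

PROOF. The proof of OPA uses only `3 s + C0`. -/
def OPA3_stmt : Prop :=
  ∀ (W V : Type) [Fintype W] [DecidableEq W] [Fintype V] [DecidableEq V] (A : V → V → Prop),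
    Tour A → ∀ (r u : W) (par : W → W) (dep : W → ℕ), Rooted r par dep → ∀ (sgn : W → Bool)
    (LO LI : Finset W), Brm r u par sgn LO LI →
    ∀ s : ℕ, LO.card + LI.card + s = Fintype.card W →
    ∀ (X : Finset V) (y : V), y ∈ X →
      (chd r par sgn r true).card ≤ (nb A true X y).card →
      3 * s + C0 ≤ (nb A false X y).card →
      (LI = ∅ ∨ ∀ x ∈ X, LO.card + LI.card + s ≤ (nb A false Finset.univ x).card) →
      ∀ Z ⊆ nb A true X y, s ≤ Z.card → (∀ z ∈ Z,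
        3 * s + C0 ≤ (nb A true (nb A false X y) z).card ∧
        3 * s + C0 ≤ (nb A false (nb A false X y) z).card) →
      Full (V := V) A r par sgn

/-- E13. The one-sided case (replaces E1). Assume `OPV3_stmt`, `OPA3_stmt`, `E1B_stmt`, `ARB_stmt`,
`COUNT_stmt`, `GZ3_stmt`, `SIZ_stmt`, `DEG_stmt`, `BRN_stmt`.

PROOF. `n = |W|`, `a = |LO|`, `a + s = n`, `|V| = 2 a + 2 s - 2`, `S = univ \ (LO ∪ ∅)`,
`Go = 3 |brn S r true| + C0`, `Gi = 3 |brn S r false| + C0`, `Go + Gi ≤ 3 s + 2 C0` (BRN).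
`d⁺ + d⁻ = 2 n - 3`. If some `z` has `d⁺(z) ≥ a + Go`, `d⁻(z) ≥ Gi`: OPV3 (first part, `u = r`,
`LI = ∅`). So otherwise, with `X = low A true (a + Go)`, `B = univ \ X`: `B ⊆ low A false Gi`,
`|B| ≤ 2 Gi - 1`, `|X| ≥ 2 a + 2 s - 1 - 2 Gi`. `dv = |chd r par sgn r true| ≥ a`.
If some `y ∈ X` has `|nb A true X y| ≥ dv`: GZ3 with `g = a + Go - 1`, `e = 4 s + 4 C0`,
`l = 3 s + C0`: `2 g ≤ |X| + e`, `g ≤ dv + l`, `5 e + 3 l + 4 ≤ g`; `2 |Z| ≥ g - 5 e - 6 l - 6 ≥ 2 s`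
because `a ≥ 41 (s + C0) ≥ 40 s + 26 C0 + 7`. `|nb A false X y| = |X| - 1 - |nb A true X y| ≥
2 a + 2 s - 2 - 2 Gi - (a + Go) ≥ 3 s + C0`; OPA3. Otherwise all out-degrees in `X` are `≤ dv - 1`,
`|X| ≤ 2 dv - 1` (DEG 5; `dv ≥ a ≥ 1`), so `|B| ≥ 2 n - 1 - 2 dv`. COUNT (second part, `u = r`,
`LI = ∅`): `|anc| + 2 dv ≤ n + a`, so `|B| ≥ n - 1 - a + |anc| = s - 1 + |anc| ≥ 2 |anc| - 1`,
because `anc ⊆ univ \ LO`. ARB (`d = false`) embeds `anc` into `B`. E1B: for `x ∈ B`: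
`d⁻(x) ≤ Gi - 1`, `|nb A true X x| ≥ |X| - d⁻(x) ≥ 3 s + C0` (`x ∉ X`, DEG 1), `d⁺(x) ≥ 2 n - 3 -
(Gi - 1) ≥ a + s`. -/
def E13_stmt : Prop :=
  ∀ (W V : Type) [Fintype W] [DecidableEq W] [Fintype V] [DecidableEq V] (A : V → V → Prop),
    Tour A → Fintype.card V + 2 = 2 * Fintype.card W →
    ∀ (r : W) (par : W → W) (dep : W → ℕ), Rooted r par dep → ∀ (sgn : W → Bool)
    (LO : Finset W), Brm r r par sgn LO ∅ →
    (∀ c ∈ chd r par sgn r true, c ∉ LO → ∃ w, w ≠ r ∧ par w = c) →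
    ∀ s : ℕ, LO.card + s = Fintype.card W → 41 * (s + C0) ≤ LO.card →
    Full (V := V) A r par sgn

/-- E2M3. The path between `u` and the root is not directed. Assume `E2N_stmt`, `SIZ_stmt`,
`DEG_stmt`.

PROOF. `n = |W|`, `a = |LO|`, `b = |LI|`, `|V| = 2 n - 2`. `X = low A true (a + L)`,
`B = low A false (b + L)`. SIZ: `|X| ≥ 2 n - 2 - (2 (b + L) - 1) - R = 2 a + 2 s - 1 - 2 L - R`,
`|X| ≤ 2 (a + L) - 1`, `|B| ≥ 2 b + 2 s - 1 - 2 L - R`. `X ∩ B = ∅` (`(a + L) + (b + L) ≤ 2 n - 3`).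
For `x ∈ X`: `d⁻(x) ≥ 2 n - 3 - (a + L - 1) ≥ a + b + s`; for `x ∈ B`: `d⁺(x) ≥ a + b + s`.
`l = 3 s + C0`, `B' = {x ∈ B : l ≤ |nb A true X x|}`. Claim `|B'| ≥ l`; then E2N with `B', X`. Suppose
`|B'| < l`. By DEG 3 `∑ x ∈ X, |nb A true B x| = ∑ y ∈ B, |nb A false X y| ≥ (|B| - l) (|X| - l)`
(`y ∈ B \ B'`, `y ∉ X`: `|nb A false X y| = |X| - |nb A true X y| > |X| - l`), while
`∑ x ∈ X, |nb A true B x| ≤ ∑ x ∈ X, (|nb A true univ x| - |nb A true X x|) ≤ |X| (a + L - 1) -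
(|X|² - |X|) / 2 = |X| (2 a + 2 L - 1 - |X|) / 2 ≤ |X| (4 L + R) / 2`. But `|X| ≥ 2 l`, so
`|X| - l ≥ |X| / 2`, and `|B| - l > 4 L + R` (as `4 (L + R + s + C0) ≤ b`). Contradiction. -/
def E2M3_stmt : Prop :=
  ∀ (W V : Type) [Fintype W] [DecidableEq W] [Fintype V] [DecidableEq V] (A : V → V → Prop),
    Tour A → Fintype.card V + 2 = 2 * Fintype.card W →
    ∀ (r u : W) (par : W → W) (dep : W → ℕ), Rooted r par dep → ∀ (sgn : W → Bool)
    (LO LI : Finset W), Brm r u par sgn LO LI →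
    (∃ k : ℕ, par^[k] u ≠ r ∧ sgn (par^[k] u) = true) →
    ∀ s L R : ℕ, LO.card + LI.card + s = Fintype.card W →
    4 * (L + R + s + C0) ≤ LO.card → 4 * (L + R + s + C0) ≤ LI.card →
    (mid A (LO.card + L) (LI.card + L)).card ≤ R → Full (V := V) A r par sgn

/-- E2H3. One half of the two-sided case (replaces E2H). Assume `OPV3_stmt`, `OPA3_stmt`,
`GZ3_stmt`, `SIZ_stmt`, `DEG_stmt`, `DSC_stmt`.

PROOF. `n = |W|`, `a = |LO|`, `b = |LI|`, `a + b + s = n`, `|V| = 2 n - 2`, `d⁺ + d⁻ = 2 n - 3`.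
`X = low A true (a + Go)`, `M = mid A (a + Go) (b + Gi)`. SIZ: `|X| ≥ 2 n - 2 - (2 (b + Gi) - 1) - R =
2 a + 2 s - 1 - 2 Gi - R`. For `x ∈ X`: `d⁻(x) ≥ 2 n - 3 - (a + Go - 1) ≥ a + b + s`, because
`b + s ≥ Go + 2` (from the hypothesis on `b`, `Gi ≤ l`, `Go ≤ l`).
Suppose `Full` fails. (1) `z ∈ M`: if `u = r`: OPV3 first part gives `Full`, so `u ≠ r`. The vertex
`c' = par^[dep u - 1] u` has `par c' = r`, `c' ≠ r`, `sgn c' = false`, `u ∈ dsc par c'`, and OPV3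
second part with `Y = X` gives `|nb A false X z| < 3 s + C0`.
(2) `y ∈ X` with `dv ≤ |nb A true X y|`, `dv = |chd r par sgn r true| ≥ a`: GZ3 with
`g = a + Go - 1`, the given `e, l`: `2 g = 2 a + 2 Go - 2 ≤ |X| + e` by `2 (Go + Gi) + R ≤ 2 s + e`,
`g ≤ a + l`, `5 e + 3 l + 4 ≤ g`, so `2 |Z| ≥ g - 5 e - 6 l - 6 ≥ 2 s`;
`|nb A false X y| = |X| - 1 - |nb A true X y| ≥ 2 a + 2 s - 2 - 2 Gi - R - (a + Go - 1) ≥ 3 s + C0`;
OPA3. -/
def E2H3_stmt : Prop :=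
  ∀ (W V : Type) [Fintype W] [DecidableEq W] [Fintype V] [DecidableEq V] (A : V → V → Prop),
    Tour A → Fintype.card V + 2 = 2 * Fintype.card W →
    ∀ (r u : W) (par : W → W) (dep : W → ℕ), Rooted r par dep → ∀ (sgn : W → Bool)
    (LO LI : Finset W), Brm r u par sgn LO LI →
    (∀ k : ℕ, par^[k] u ≠ r → sgn (par^[k] u) = false) →
    ∀ s Go Gi R e l : ℕ, LO.card + LI.card + s = Fintype.card W →
    3 * (brn par sgn (Finset.univ \ (LO ∪ LI)) r true).card + C0 ≤ Go →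
    (u = r → 3 * (brn par sgn (Finset.univ \ (LO ∪ LI)) r false).card + C0 ≤ Gi) →
    1 ≤ Gi → 3 * s + C0 ≤ l → Go ≤ l → Gi ≤ l → 2 * (Go + Gi) + R ≤ 2 * s + e →
    5 * e + 6 * l + 2 * s + 7 ≤ LO.card + Go → 5 * e + 6 * l + 2 * s + 7 ≤ LI.card + Gi →
    (mid A (LO.card + Go) (LI.card + Gi)).card ≤ R →
    Full (V := V) A r par sgn ∨
      ((∀ z ∈ mid A (LO.card + Go) (LI.card + Gi), u ≠ r ∧
          (nb A false (low A true (LO.card + Go)) z).card < 3 * s + C0) ∧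
       (∀ y ∈ low A true (LO.card + Go),
          (nb A true (low A true (LO.card + Go)) y).card < (chd r par sgn r true).card))

/-- DSJ3. The out-branches at `v` and the in-branches at `u` are disjoint if there is a directed
path from `u` to `v`. Assume `DSC_stmt`.

PROOF. `adj x y` means `D x y ∨ D y x`. By the two `Rep`: `adj x y` iff `y ≠ v ∧ par y = x` or
`x ≠ v ∧ par x = y`, and iff `y ≠ u ∧ par' y = x` or `x ≠ u ∧ par' x = y`. Suppose `w` is in both sets: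
`c ≠ v`, `par c = v`, `sgn c = true`, `w ∈ dsc par c`; `c' ≠ u`, `par' c' = u`, `sgn' c' = true`,
`w ∈ dsc par' c' =: C'`.
(a) If `x ∈ C'`, `y ∉ C'`, `adj x y` then `x = c'`, `y = u` (a child `y` of `x` in the second rooting
is in `C'`; so `par' x = y`, and `x = c'` since otherwise `par' x ∈ C'`).
(b) `u ∉ dsc par c`: otherwise `par^[k] u = c ≠ v` has sign `true`.
(c) All iterates `x = par^[k] w` from `w` up to `c` are in `C'`: if `x ∈ C'`, `x ≠ c`, then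
`par x ∈ dsc par c`, `par x ≠ u` by (b), `adj x (par x)` (`x ≠ v`), so `par x ∈ C'` by (a). So
`c ∈ C'`; `adj c v`; if `v ∉ C'` then by (a) `v = u`, excluded. So `v ∈ C'`.
(d) `u ∉ C'`. On the path `u, par u, ..., v` take `j` with `par^[j] u ∉ C'`, `par^[j+1] u ∈ C'`; by
(a) `par^[j+1] u = c'`, `par^[j] u = u`, so `par u = c'`. As `u ≠ v`, `sgn u = false` and hence
`D u c'`. On the other hand `sgn' c' = true` gives `Op D u c'`, i.e. `D c' u`. Contradiction. -/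
def DSJ3_stmt : Prop :=
  ∀ (W : Type) [Fintype W] [DecidableEq W] (D : W → W → Prop), (∀ a b, D a b → ¬ D b a) →
    ∀ (v u : W), u ≠ v → ∀ (par : W → W) (dep : W → ℕ) (sgn : W → Bool), Rooted v par dep →
    Rep D v par sgn → (∀ k : ℕ, par^[k] u ≠ v → sgn (par^[k] u) = false) →
    ∀ (par' : W → W) (dep' : W → ℕ) (sgn' : W → Bool), Rooted u par' dep' →
    Rep (Op D) u par' sgn' → ∀ S : Finset W,
    Disjoint (brn par sgn S v true) (brn par' sgn' S u true)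

/-- E23. The two-sided case (replaces E2). Assume `E2H3_stmt`, `E2M3_stmt`, `E2P_stmt`,
`COUNT_stmt`, `BRG_stmt`, `REP_stmt`, `REV_stmt`, `SIZ_stmt`, `DEG_stmt`, `DSJ3_stmt`, `BRN_stmt`.

PROOF. `n = |W|`, `a = |OL D v|`, `b = |OL (Op D) u|` (both `≥ 2`, as `C0 ≥ 2`). Root `D` at `v` (BRG):
`par, dep, sgn`. Root `Op D` at `u`: if `u = v` take `par' = par`, `dep' = dep`, `sgn' = !sgn` (REP 2),
otherwise BRG for `Op D` (an oriented tree, `fromRel (Op D) = fromRel D`). REP 4 gives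
`Brm v u par sgn (OL D v) (OL (Op D) u)` and `Brm u v par' sgn' (OL (Op D) u) (OL D v)`
(`Op (Op D) = D`). If the path from `u` to `v` is not directed in the first rooting, E2M3 for `A` gives
`Full`, so `Cont A D` (REP 1); the same for the second rooting and `Op A` (`mid (Op A)` swaps,
REV). So both rootings are directed (all signs on the path `false`).
`S = univ \ (OL D v ∪ OL (Op D) u)`, `so = |brn par sgn S v true|`, `so' = |brn par' sgn' S u true|`;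
`so + so' ≤ s`: for `u ≠ v` by DSJ3, for `u = v` by BRN (`brn par (!sgn) S v true =
brn par sgn S v false`). `Go = max (3 so + C0) L`, `Gi = max (3 so' + C0) L`,
`e = 4 s1 + 2 L + 4 C0 + R`, `l = 3 s1 + C0`. Then `2 (Go + Gi) + R ≤ 2 s + e` (three cases; use
`L ≤ 2 s1`), `Go, Gi ≤ l`, `5 e + 6 l + 2 s + 7 ≤ 40 s1 + 10 L + 26 C0 + 5 R + 7 ≤ a + L ≤ a + Go`,
same for `b`. `M = mid A (a + Go) (b + Gi) ⊆ mid A (a + L) (b + L)`, `|M| ≤ R`. E2H3 for `A`, root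
`v`, and for `Op A`, root `u` with `Go, Gi` exchanged. If one gives `Full`: REP 1. Otherwise, with
`X = low A true (a + Go)`, `B = low A false (b + Gi)`: (1) for `z ∈ M`: `u ≠ v`,
`|nb A false X z| < 3 s + C0`, `|nb A true B z| < 3 s + C0`; (2) out-degrees in `X` are
`< dv = |OD D v|`, in-degrees in `B` are `< du = |OD (Op D) u|` (REP 5). By DEG 5: `|X| ≤ 2 dv - 1`,
`|B| ≤ 2 du - 1`, by SIZ `2 n - 2 ≤ |X| + |B| + |M|`, so `2 n ≤ 2 dv + 2 du + |M|`. COUNT (first part;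
root `v`, `chd v par sgn u false = OD (Op D) u` by REP 6): `dep u + 1 + 2 dv + 2 du ≤ n + a + b =
2 n - s`. So `|M| ≥ s + dep u + 1 ≥ dep u + 2` (`s ≥ 1`: `v` is not in `OL D v ∪ OL (Op D) u`). So `M` is
nonempty, `u ≠ v`, and E2P applies (root `v`): for `x ∈ M`: `x ∉ X`, `|nb A true X x| =
|X| - |nb A false X x| ≥ |X| - (3 s + C0) ≥ a + 3 s + C0` since
`|X| ≥ 2 a + 2 s - 1 - 2 Gi - R`; similarly `|nb A false B x| ≥ b + 3 s + C0`. `M, X, B` are pairwise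
disjoint (`X ∩ B = ∅` because `(a + Go) + (b + Gi) ≤ 2 n - 3`). -/
def E23_stmt : Prop :=
  ∀ (W V : Type) [Fintype W] [DecidableEq W] [Fintype V] [DecidableEq V] (A : V → V → Prop),
    Tour A → Fintype.card V + 2 = 2 * Fintype.card W →
    ∀ (D : W → W → Prop), OT D → ∀ (v u : W) (s s1 L R : ℕ),
    (OL D v).card + (OL (Op D) u).card + s = Fintype.card W → s ≤ s1 → L ≤ 2 * s1 →
    40 * s1 + 9 * L + 26 * C0 + 5 * R + 7 ≤ (OL D v).card →
    40 * s1 + 9 * L + 26 * C0 + 5 * R + 7 ≤ (OL (Op D) u).card →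
    (mid A ((OL D v).card + L) ((OL (Op D) u).card + L)).card ≤ R → Cont A D

/-! ### The final assembly -/

/-- NUM3. The numbers.

PROOF. `N₀ = 129930000`, `u = n / N₀` (natural division), so `n / N₀ - 1 < u ≤ n / N₀` (real
division). `y = √n ≥ 10^15`, `z = y / 10^15 ≥ 1`, so `n = 10^30 z²`. `log 10 ≤ (10/3) log 2 ≤ 2.3105`
(`10³ ≤ 2^10`), `log n = 2 log (10^15) + 2 log z ≤ 69.315 + 2 log z`.
(A) `erf n n + 3 = 8 y (log n + 3) + 54 log n (log n + 6) + 3 ≤ 8.0001 · 10^15 z (72.315 + 2 log z)`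
(the second and third terms are tiny). So `D' = ⌈erf n n⌉₊ + 2` satisfies
`D' ≤ 578.53 · 10^15 z (1 + 0.0277 log z)`. From `m · 100 u ≤ n D'` and `u ≥ (n / N₀) (1 - 10^(-20))`:
`m / u ≤ n D' / (100 u²) ≤ 1.0001 N₀² D' / (100 n) ≤ 97.68 (1 + 0.0277 log z) / z ≤ 97.68`
(`log z ≤ z - 1`). Hence `m ≤ 100 u`.
(B) `g = ⌈(2 n)^(1/14)⌉`: `(2 · 10^30)^(1/14) ≤ 146.1` (`146.1^14 ≥ 2 · 10^30`; check by `norm_num`),
`g + 1 ≤ 146.1 z^(1/7) + 2 ≤ 148.1 z^(1/7)`. `(g + 1) · 4 (3 m + C0) ≤ 148.1 z^(1/7) · (12 · 97.68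
(1 + 0.0277 log z) / z + 0.001) u ≤ 173600 u (1 + 0.0277 log z) z^(-6/7) + u ≤ 181800 u`: with
`log z ≤ (7/6) (z^(6/7) - 1)` one has `1 + 0.0277 log z ≤ z^(6/7)`. (`4 C0 g` is negligible
against `u`: `C0 = 10^7`, `u ≥ 7 · 10^21 z²`.)
(C) If `2 n ≤ 2^200` take `g₁ = 2`: `5 (3 m + C0) ≤ 15 · 97.68 u + 5 C0 ≤ 1501 u`. Otherwise
`n > 2^199 ≥ 8 · 10^59`, `z ≥ 8 · 10^14`, take `g₁ = ⌈(2 n)^(1/200)⌉ ≤ 2 (2 n)^(1/200) ≤ 4 z^(1/100)`
and `m / u ≤ 97.68 (1 + 0.0277 log z) / z` is tiny. -/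
def NUM3_stmt : Prop :=
  ∀ n : ℕ, 10 ^ 30 ≤ n → ∀ m : ℕ, m * (100 * (n / 129930000)) ≤ n * (⌈erf n n⌉₊ + 2) →
    m ≤ 100 * (n / 129930000) ∧ 10 * C0 ≤ n / 129930000 ∧
    (∃ g : ℕ, 1 ≤ g ∧ 2 * n ≤ g ^ 14 ∧
      (g + 1) * (4 * (3 * m + C0)) ≤ 181800 * (n / 129930000)) ∧
    (∃ g : ℕ, 1 ≤ g ∧ 2 * n ≤ g ^ 200 ∧ (3 + g) * (3 * m + C0) ≤ 1501 * (n / 129930000))

/-- HVY3. From the rooted alternatives to heavy vertices (replaces HVY). Assume `CAS1_stmt`,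
`CII3_stmt`, `REV_stmt`, `REP_stmt`, `DSC_stmt`, `KEX_stmt`, `DEEP_stmt`, `BRG_stmt`, `NUM3_stmt`.

PROOF. `W = Fin n`, `V = Fin (2 n - 2)`, `u = n / 129930000`. Root `D` at any `r` (BRG). If some `w`
has `erf n n + 3 ≤ dep w + 1`: DEEP. Otherwise `dep w + 1 ≤ ⌈erf n n⌉₊ + 2 =: D'` for all `w`. KEX
with `β = 100 u < n`: `K`; `m = |K|`; NUM3 (`m · 100 u ≤ n D'`). So `Ctx A r par dep K (100 u) m`.
`p = mas true`, `q = mas false`, `p + q + |K| = n`. If `1501 u ≤ |mid A (p + 701 u) (q + 701 u)|`: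
CAS1 with `G = 701 u`, `J = 200`, the second `g` of NUM3, for `A, sgn` if `q ≤ p`, and for
`Op A, !sgn` if `p ≤ q` (REV); `6 · 100 u + m + 3 C0 + 2 ≤ 701 u` (as `m ≤ 100 u`, `10 C0 ≤ u`),
`401 · (3400 u + 2 m + 14 C0 + 12) ≤ 401 · 3603 u ≤ n`. Otherwise the mid set has at most `1501 u`
elements. `P = p`, `Q = q`. The four implications: CII3 with the first `g` of NUM3 and `e = 0`
(case `8504 u ≤ q`) or `e = 8504 u` (case `q ≤ 8504 u`, `10000000 u ≤ p`); `Full` gives `Cont A D`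
(REP 1); otherwise `v` and the set `{c ∈ topv {v} : |dsc c| = 1} ⊆ OL D v`: `par c = v`,
`sgn c = true`, `c ≠ r`, so `D v c`; a neighbour of `c` is `par c = v` or a child `w ≠ r` of `c`, but
then `w ∈ dsc c = {c}`, impossible. For the implications about `Q`: CII3 for `Op A`, `!sgn`
(`mas` and `mid` swap, REV) and `Rep (Op D) r par (!sgn)` (REP 2), `Cont (Op A) (Op D)` is
`Cont A D`. -/
def HVY3_stmt : Prop :=
  ∀ (n : ℕ), 10 ^ 30 ≤ n → ∀ (A : Fin (2 * n - 2) → Fin (2 * n - 2) → Prop), Tour A →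
    ∀ (D : Fin n → Fin n → Prop), OT D → Cont A D ∨
      ∃ P Q : ℕ, P + Q ≤ n ∧ n ≤ P + Q + 100 * (n / 129930000) ∧
        (mid A (P + 701 * (n / 129930000)) (Q + 701 * (n / 129930000))).card ≤
          1501 * (n / 129930000) ∧
        (3060000 * (n / 129930000) ≤ P → 8504 * (n / 129930000) ≤ Q →
          ∃ v, P ≤ (OL D v).card + 33405 * (n / 129930000)) ∧
        (10000000 * (n / 129930000) ≤ P → Q ≤ 8504 * (n / 129930000) →
          ∃ v, P ≤ (OL D v).card + 75925 * (n / 129930000)) ∧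
        (3060000 * (n / 129930000) ≤ Q → 8504 * (n / 129930000) ≤ P →
          ∃ u, Q ≤ (OL (Op D) u).card + 33405 * (n / 129930000)) ∧
        (10000000 * (n / 129930000) ≤ Q → P ≤ 8504 * (n / 129930000) →
          ∃ u, Q ≤ (OL (Op D) u).card + 75925 * (n / 129930000))

/-- FIN3. The final theorem. Assume `HVY3_stmt`, `E13_stmt`, `E23_stmt`, `BRG_stmt`, `REP_stmt`,
`REV_stmt`.

PROOF. `u₀ = n / 129930000`, `129930000 u₀ ≤ n`, `C0 = 10^7`, `u₀ ≥ 10^21`. `A = T.Adj`, `D = D.Adj`.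
HVY3: either done or `P, Q`.
(i) `P, Q ≥ 3060000 u₀`: `v, u` with `a = |OL D v| ≥ P - 33405 u₀`, `b = |OL (Op D) u| ≥
Q - 33405 u₀`. The sets `OL D v`, `OL (Op D) u` are disjoint (a common element `c` has all its
neighbours equal to `v` and to `u`, so `v = u`, `D v c`, `D c v`), so `a + b ≤ n`, `s = n - a - b ≤
100 u₀ + 2 · 33405 u₀ = 66910 u₀ =: s1`. E23 with `L = 34106 u₀`, `R = 1501 u₀`:
`40 s1 + 9 L + 26 C0 + 5 R + 7 = 2990859 u₀ + 26 C0 + 7 ≤ 3026595 u₀ ≤ a, b`;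
`a + L ≥ P + 701 u₀`, `b + L ≥ Q + 701 u₀`, so the `mid` set of E23 is contained in the one of
HVY3.
(ii) `P ≥ 3060000 u₀ > Q ≥ 8504 u₀`: `a ≥ P - 33405 u₀`, `s = n - a ≤ Q + 100 u₀ + 33405 u₀ ≤
3093505 u₀`, `41 (s + C0) ≤ a` because `42 s + 41 C0 ≤ 129927210 u₀ + 41 C0 ≤ n`. Root `D` at `v`
(BRG), REP 3, E13 with `LO = OL D v`, REP 1.
(iii) `P ≥ 3060000 u₀`, `Q < 8504 u₀`: `P ≥ n - 8604 u₀ ≥ 10000000 u₀`, `a ≥ P - 75925 u₀`,
`s ≤ 84529 u₀`; E13 as in (ii).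
(iv) `Q ≥ 3060000 u₀ > P`: the same for `Op A`, `Op D` (`Cont (Op A) (Op D) ↔ Cont A D`,
`OT (Op D)`, `Tour (Op A)`).
(v) both `< 3060000 u₀`: `n ≤ P + Q + 100 u₀ < 6120100 u₀`, impossible. -/
def FIN3_stmt : Prop :=
  ∀ n : ℕ, 10 ^ 30 ≤ n → ∀ T : Digraph (Fin (2 * n - 2)),
    (∀ u v, T.Adj u v → ¬ T.Adj v u) → (∀ u v, u ≠ v → T.Adj u v ∨ T.Adj v u) →
    ∀ D : Digraph (Fin n), (∀ a b, D.Adj a b → ¬ D.Adj b a) →
      (SimpleGraph.fromRel D.Adj).IsTree →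
      ∃ f : Fin n → Fin (2 * n - 2),
        Function.Injective f ∧ ∀ a b, D.Adj a b → T.Adj (f a) (f b)

end Pool.Agent.Helper18.SU
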