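import Pool.Agent.Helper18.SU.FIN3

/-!
Oriented trees in tournaments, part 2: heavy vertices.
-/

set_option autoImplicit false

namespace Pool.Agent.Helper18.SU

theorem leaf_ol {W : Type} [Fintype W] [DecidableEq W] {D : W → W → Prop} {r : W} {par : W → W}
    {dep : W → ℕ} {sgn : W → Bool} (hR : Rooted r par dep) (hrep : Rep D r par sgn)
    {K : Finset W} (hr : r ∈ K) (v : W) :
    ((topv par sgn K {v}).filter (fun c => (dsc par c).card = 1)) ⊆ OL D v := by
  intro c hc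
  rw [Finset.mem_filter] at hc
  obtain ⟨hc1, hc2⟩ := hc
  simp only [topv, topd, tops, Finset.mem_filter, Finset.mem_univ, true_and,
    Finset.mem_singleton] at hc1
  obtain ⟨⟨⟨hcK, hpK⟩, hs⟩, hpv⟩ := hc1
  have hcr : c ≠ r := fun h => hcK (h ▸ hr)
  have hcc : c ∈ dsc par c := by
    simp only [dsc, Finset.mem_filter, Finset.mem_univ, true_and]; exact ⟨0, rfl⟩
  have hno : ∀ x, x ≠ r → par x = c → False := by
    intro x hx hxc
    have hx1 : x ∈ dsc par c := by
      simp only [dsc, Finset.mem_filter, Finset.mem_univ, true_and]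
      exact ⟨1, by simpa using hxc⟩
    obtain ⟨z, hz⟩ := Finset.card_eq_one.1 hc2
    rw [hz, Finset.mem_singleton] at hcc hx1
    have hxz : x = c := hx1.trans hcc.symm
    subst hxz
    have := hR.2.2 x hcr
    rw [hxc] at this
    omega
  simp only [OL, Finset.mem_filter, Finset.mem_univ, true_and]
  refine ⟨(hrep v c).2 (Or.inl ⟨hcr, hpv, hs⟩), ?_⟩
  rintro x (h | h)
  · rcases (hrep x c).1 h with h | h
    · exact h.2.1.symm.trans hpv
    · exact (hno x h.1 h.2.1).elim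
  · rcases (hrep c x).1 h with h | h
    · exact (hno x h.1 h.2.1).elim
    · exact h.2.1.symm.trans hpv

theorem cii_impl (h2 : CII3_stmt) (h4 : REP_stmt)
    {W V : Type} [Fintype W] [DecidableEq W] [Fintype V] [DecidableEq V] {A : V → V → Prop}
    {D : W → W → Prop} (hD : OT D) {r : W} {par : W → W}
    {dep : W → ℕ} {sgn : W → Bool} (hR : Rooted r par dep) (hrep : Rep D r par sgn)
    {K : Finset W} {u m g e : ℕ} (hC : C2H A r par dep sgn K u m g e) :
    Cont A D ∨ ∃ v, mas par sgn K true ≤ (OL D v).card + 33405 * u + 5 * e := by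
  rcases h2 W V A r par dep sgn K u m g e hC with h | ⟨v, hv, h⟩
  · left
    exact (h4 W V A D r par dep sgn hD.1 hR hrep).1 h
  · right
    refine ⟨v, h.trans ?_⟩
    have := Finset.card_le_card (leaf_ol hR hrep hC.1.2.2.1 v)
    omega

theorem HVY3 (h1 : CAS1_stmt) (h2 : CII3_stmt) (h3 : REV_stmt) (h4 : REP_stmt) (h5 : DSC_stmt)
    (h6 : KEX_stmt) (h7 : DEEP_stmt) (h8 : BRG_stmt) (h9 : NUM3_stmt) : HVY3_stmt := by
  intro n hn A hA D hD
  have hn2 : 2 ≤ n := by omega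
  let r : Fin n := ⟨0, by omega⟩
  obtain ⟨par, dep, sgn, hR, hrep⟩ := h8 (Fin n) D hD r
  by_cases hdeep : ∃ x, erf n n + 3 ≤ (dep x : ℝ) + 1
  · obtain ⟨x, hx⟩ := hdeep
    left
    exact h7 n hn2 A hA D hD r par dep sgn hR hrep x hx
  push Not at hdeep
  have hdep : ∀ x, dep x + 1 ≤ ⌈erf n n⌉₊ + 2 := by
    intro x
    have h := hdeep x
    have h' : (dep x : ℝ) + 1 < (⌈erf n n⌉₊ : ℝ) + 3 := by
      have := Nat.le_ceil (erf n n)
      linarith
    have h'' : dep x + 1 < ⌈erf n n⌉₊ + 3 := by exact_mod_cast h'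
    omega
  have hcf : Fintype.card (Fin n) = n := Fintype.card_fin n
  have hnum := h9 n hn
  obtain ⟨w, hw⟩ : ∃ w, w = n / 129930000 := ⟨_, rfl⟩
  have hw1 : 129930000 * w ≤ n := by omega
  have hw2 : 10 ^ 21 ≤ w := by omega
  have hC : C0 = 10000000 := rfl
  have hwn : 100 * w < n := by omega
  obtain ⟨K, hrK, hcl, htop, hK⟩ := h6 (Fin n) r par dep hR (100 * w) (⌈erf n n⌉₊ + 2)
    (by rw [hcf]; exact hwn) hdep
  rw [hcf] at hK
  obtain ⟨hm1, hm2, ⟨g, hg1, hg2, hg3⟩, ⟨g', hg1', hg2', hg3'⟩⟩ := hnum K.card (by rw [← hw]; exact hK)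
  rw [← hw] at hm1 hm2 hg3 hg3' ⊢
  obtain ⟨m, hm⟩ : ∃ m, m = K.card := ⟨_, rfl⟩
  rw [← hm] at hm1 hg3 hg3'
  have hctx : Ctx A r par dep K (100 * w) m := by
    refine ⟨hA, hR, hrK, hcl, htop, hm.ge, ?_⟩
    simp only [Fintype.card_fin]; omega
  have hrev := h3 (Fin n) (Fin (2 * n - 2)) A r par dep sgn K (100 * w) m
  obtain ⟨e1, e2, e3, e4, e5, e6, e7, e8, e9, e10⟩ := hrev
  have hctx' := e10 hctx
  have hdsc := h5 (Fin n) r par dep hR
  have hsum := (hdsc.2.2.2.2.2.2 K hrK hcl).2.2.2.2 sgn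
  rw [hcf, ← hm] at hsum
  obtain ⟨p, hp⟩ : ∃ p, p = mas par sgn K true := ⟨_, rfl⟩
  obtain ⟨q, hq⟩ : ∃ q, q = mas par sgn K false := ⟨_, rfl⟩
  have hp' : mas par (fun x => !sgn x) K false = p := by rw [e9, hp]; rfl
  have hq' : mas par (fun x => !sgn x) K true = q := by rw [e9, hq]; rfl
  rw [← hp, ← hq] at hsum
  have hrep' : Rep (Op D) r par (fun x => !sgn x) :=
    (h4 (Fin n) (Fin (2 * n - 2)) A D r par dep sgn hD.1 hR hrep).2.1
  have hD' := ot_op hD
  by_cases hmid : 1501 * w ≤ (mid A (p + 701 * w) (q + 701 * w)).card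
  · left
    rcases Nat.le_total q p with hqp | hqp
    · apply (h4 (Fin n) (Fin (2 * n - 2)) A D r par dep sgn hD.1 hR hrep).1
      refine h1 (Fin n) (Fin (2 * n - 2)) A r par dep sgn K (100 * w) m (701 * w) g' 200 hctx
        ?_ ?_ hg1' (by norm_num) ?_ ?_ ?_
      · rw [← hp, ← hq]; exact hqp
      · omega
      · rw [hcf]; omega
      · rw [hcf]; exact hg2'
      · rw [← hp, ← hq]; exact hg3'.trans hmid
    · apply cont_op
      apply (h4 (Fin n) (Fin (2 * n - 2)) (Op A) (Op D) r par dep (fun x => !sgn x) hD'.1 hR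
        hrep').1
      refine h1 (Fin n) (Fin (2 * n - 2)) (Op A) r par dep (fun x => !sgn x) K (100 * w) m
        (701 * w) g' 200 hctx' ?_ ?_ hg1' (by norm_num) ?_ ?_ ?_
      · rw [hp', hq']; exact hqp
      · omega
      · rw [hcf]; omega
      · rw [hcf]; exact hg2'
      · rw [hp', hq', e5]; exact hg3'.trans hmid
  push Not at hmid
  have hmid' : (mid (Op A) (q + 701 * w) (p + 701 * w)).card ≤ 1501 * w := by
    rw [e5]; exact hmid.le
  by_cases hcont : Cont A D
  · exact Or.inl hcont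
  right
  refine ⟨p, q, by omega, by omega, hmid.le, ?_, ?_, ?_, ?_⟩
  · intro ha hb
    have hC2 : C2H A r par dep sgn K w m g 0 := by
      refine ⟨hctx, hm1, hm2, by rw [← hp]; exact ha, Or.inl ⟨by rw [← hq]; exact hb, rfl⟩, hg1,
        by rw [hcf]; exact hg2, hg3, ?_⟩
      rw [← hp, ← hq]; exact hmid.le
    rcases cii_impl h2 h4 hD hR hrep hC2 with h | ⟨v, hv⟩
    · exact absurd h hcont
    · refine ⟨v, ?_⟩
      rw [← hp] at hv; omega
  · intro ha hb
    have hC2 : C2H A r par dep sgn K w m g (8504 * w) := by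
      refine ⟨hctx, hm1, hm2, by rw [← hp]; omega, Or.inr ⟨by rw [← hq]; exact hb, rfl,
        by rw [← hp]; exact ha⟩, hg1, by rw [hcf]; exact hg2, hg3, ?_⟩
      rw [← hp, ← hq]; exact hmid.le
    rcases cii_impl h2 h4 hD hR hrep hC2 with h | ⟨v, hv⟩
    · exact absurd h hcont
    · refine ⟨v, ?_⟩
      rw [← hp] at hv; omega
  · intro ha hb
    have hC2 : C2H (Op A) r par dep (fun x => !sgn x) K w m g 0 := by
      refine ⟨hctx', hm1, hm2, by rw [hq']; exact ha, Or.inl ⟨by rw [hp']; exact hb, rfl⟩, hg1,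
        by rw [hcf]; exact hg2, hg3, ?_⟩
      rw [hp', hq']; exact hmid'
    rcases cii_impl h2 h4 hD' hR hrep' hC2 with h | ⟨v, hv⟩
    · exact absurd (cont_op h) hcont
    · refine ⟨v, ?_⟩
      rw [hq'] at hv; omega
  · intro ha hb
    have hC2 : C2H (Op A) r par dep (fun x => !sgn x) K w m g (8504 * w) := by
      refine ⟨hctx', hm1, hm2, by rw [hq']; omega, Or.inr ⟨by rw [hp']; exact hb, rfl,
        by rw [hq']; exact ha⟩, hg1, by rw [hcf]; exact hg2, hg3, ?_⟩
      rw [hp', hq']; exact hmid'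
    rcases cii_impl h2 h4 hD' hR hrep' hC2 with h | ⟨v, hv⟩
    · exact absurd (cont_op h) hcont
    · refine ⟨v, ?_⟩
      rw [hq'] at hv; omega

end Pool.Agent.Helper18.SU
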