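import Pool.Agent.Helper27.SU.REA
import Pool.Agent.Helper83.SU.SUBPTL
import Pool.Agent.Helper20.SU.SPA
import Pool.Agent.Helper60.SU.SPB
import Pool.Agent.Helper38.SU.PTF
import Pool.Agent.Helper19.SU.EQ
import Pool.Agent.Helper58.SU.MASS
import Pool.Agent.Helper9.SU.TAIL
import Pool.Agent.Helper33.SU.PMQ
import Pool.Agent.Helper45.SU.PMQX
import Pool.Agent.Helper13.SU.LEV
import Pool.Agent.Helper8.SU.COLCHA
import Pool.Agent.Helper83.SU.ONE
import Pool.Agent.Helper77.SU.LST
import Pool.Agent.Helper37.SU.EMB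
import Pool.Agent.Helper40.SU.ROOT
import Pool.Agent.Helper11.SU.NUM
import Pool.Agent.Helper8.SU.FTR
import Pool.Agent.Helper78.SU.FPA

/-!
# Closing the hypotheses of part 1
-/

set_option autoImplicit false

namespace Pool.Agent.Helper18.SU

theorem ptl : PTL_stmt := Helper83.SU.PTL Helper27.SU.REA

theorem spa : SPA_stmt := Helper20.SU.SPA Helper27.SU.REA (Helper83.SU.SUB Helper27.SU.REA) ptl

theorem spb : SPB_stmt := Helper60.SU.SPB Helper27.SU.REA (Helper83.SU.SUB Helper27.SU.REA) ptl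

/-- Oriented paths in tournaments with one more vertex. -/
theorem ptf : PTF_stmt :=
  Helper38.SU.PTF Helper27.SU.REA (Helper83.SU.SUB Helper27.SU.REA) ptl spa spb

theorem pmqx : PMQX_stmt :=
  Helper45.SU.PMQX (Helper33.SU.PMQ Helper19.SU.EQ Helper58.SU.MASS Helper9.SU.TAIL)

theorem lst : LST_stmt := Helper77.SU.LST Helper8.SU.CHA (Helper83.SU.ONE ptf)

/-- The transfer theorem for rooted data. -/
theorem tra : TRA_stmt :=
  Helper37.SU.TRA Helper13.SU.LEV Helper8.SU.COL (Helper37.SU.EMB pmqx lst) Helper45.SU.SUM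

/-- The transfer theorem. -/
theorem ftr : FTR_stmt := Helper8.SU.FTR tra Helper40.SU.ROOT Helper11.SU.NUM

/-- The path version. -/
theorem fpa : FPA_stmt := Helper78.SU.FPA ftr Helper40.SU.ROOT ptf

end Pool.Agent.Helper18.SU
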