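import Pool.Agent.Helper18.SU.Goals3

/-!
Oriented trees in tournaments, part 2: branches, and a subtree with prescribed image of its top
(adapted from the file STAR by helper5).
-/

set_option autoImplicit false

namespace Pool.Agent.Helper18.SU

theorem str_mem_dsc {W : Type} [Fintype W] (par : W → W) (c w : W) :
    w ∈ dsc par c ↔ ∃ k : ℕ, par^[k] w = c := by
  simp [dsc]

theorem BRN (h2 : DSC_stmt) : BRN_stmt := by
  classical
  intro W _ _ r par dep hr sgn S c
  obtain ⟨d1, d2, d3, d4, -, -, -⟩ := h2 W r par dep hr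
  have hmem : ∀ d w, w ∈ brn par sgn S c d ↔ w ∈ S ∧ ∃ c', c' ≠ c ∧ par c' = c ∧ sgn c' = d ∧
      w ∈ dsc par c' := by
    intro d w
    simp only [brn, Finset.mem_filter]
  have hch : ∀ c', c' ≠ c → par c' = c → c ∉ dsc par c' := by
    intro c' hne hp hmem
    have h3 := d4 c' c hmem (Ne.symm hne)
    have h4 : c' ≠ r := by
      rintro rfl
      apply hne
      rw [← hp]
      exact hr.2.1.symm
    have h5 := hr.2.2 c' h4
    rw [hp] at h5
    omega
  have huniq : ∀ c₁ c₂, c₁ ≠ c → par c₁ = c → c₂ ≠ c → par c₂ = c → ∀ w, w ∈ dsc par c₁ →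
      w ∈ dsc par c₂ → c₁ = c₂ := by
    have key : ∀ c₁ c₂, par c₁ = c → c₂ ≠ c → par c₂ = c → ∀ w (i j : ℕ),
        par^[i] w = c₁ → par^[j] w = c₂ → i < j → False := by
      intro c₁ c₂ hp1 hne2 hp2 w i j hi hj hij
      apply hch c₂ hne2 hp2
      rw [str_mem_dsc]
      refine ⟨j - i - 1, ?_⟩
      rw [← hj, ← hp1, ← hi]
      have h3 : j = (j - i - 1) + (1 + i) := by omega
      conv_rhs => rw [h3, Function.iterate_add_apply, Function.iterate_add_apply]
      rfl
    intro c₁ c₂ hne1 hp1 hne2 hp2 w hw1 hw2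
    obtain ⟨i, hi⟩ := (str_mem_dsc par c₁ w).1 hw1
    obtain ⟨j, hj⟩ := (str_mem_dsc par c₂ w).1 hw2
    rcases lt_trichotomy i j with h | h | h
    · exact (key c₁ c₂ hp1 hne2 hp2 w i j hi hj h).elim
    · rw [← hi, ← hj, h]
    · exact (key c₂ c₁ hp2 hne1 hp1 w j i hj hi h).elim
  have hdis : Disjoint (brn par sgn S c true) (brn par sgn S c false) := by
    rw [Finset.disjoint_left]
    intro w hw1 hw2
    obtain ⟨-, c₁, h3, h4, h5, h6⟩ := (hmem _ w).1 hw1
    obtain ⟨-, c₂, h7, h8, h9, h10⟩ := (hmem _ w).1 hw2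
    have := huniq c₁ c₂ h3 h4 h7 h8 w h6 h10
    rw [this, h9] at h5
    cases h5
  refine ⟨hdis, ?_, ?_, ?_⟩
  · intro hS w hw hwc
    have hex : ∃ k : ℕ, par^[k] w = c := (str_mem_dsc par c w).1 (hS hw)
    have hk0 : Nat.find hex ≠ 0 := by
      intro h0
      have := Nat.find_spec hex
      rw [h0] at this
      exact hwc this
    obtain ⟨k, hk⟩ : ∃ k, Nat.find hex = k + 1 := Nat.exists_eq_succ_of_ne_zero hk0
    have hkr : par^[k + 1] w = c := by
      rw [← hk]; exact Nat.find_spec hex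
    have hkne : par^[k] w ≠ c := by
      apply Nat.find_min hex
      omega
    have hkp : par (par^[k] w) = c := by
      rw [← hkr, Function.iterate_succ_apply']
    have hd : w ∈ dsc par (par^[k] w) := (str_mem_dsc _ _ _).2 ⟨k, rfl⟩
    cases hs : sgn (par^[k] w) with
    | true => exact Or.inl ((hmem _ _).2 ⟨hw, _, hkne, hkp, hs, hd⟩)
    | false => exact Or.inr ((hmem _ _).2 ⟨hw, _, hkne, hkp, hs, hd⟩)
  · intro d hd
    obtain ⟨-, c', h3, h4, -, h5⟩ := (hmem d c).1 hd
    exact hch c' h3 h4 h5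
  · rw [← Finset.card_union_of_disjoint hdis]
    apply Finset.card_le_card
    intro w hw
    rw [Finset.mem_union] at hw
    rcases hw with hw | hw
    · exact ((hmem _ _).1 hw).1
    · exact ((hmem _ _).1 hw).1

theorem STR3 (h1 : SUBT_stmt) (h2 : DSC_stmt) (h3 : BRN_stmt) : STR3_stmt := by
  classical
  intro W V _ _ _ A hA r par dep hr sgn S c hcS hSc hpar z T1 T0 hT1 hT0 hc1 hc0
  obtain ⟨d1, d2, d3, d4, -, -, -⟩ := h2 W r par dep hr
  obtain ⟨b1, b2, b3, b4⟩ := h3 W r par dep hr sgn S c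
  have hmemP : ∀ d w, w ∈ brn par sgn S c d ↔ w ∈ S ∧ ∃ c', c' ≠ c ∧ par c' = c ∧ sgn c' = d ∧
      w ∈ dsc par c' := by
    intro d w
    simp only [brn, Finset.mem_filter]
  set P : Bool → Finset W := fun d => brn par sgn S c d with hP
  have hcP : ∀ d w, w ∈ P d → w ≠ c := by
    rintro d w hw rfl
    exact b3 d hw
  have hdisj : ∀ w, w ∈ P true → w ∈ P false → False := by
    intro w hw1 hw2
    exact (Finset.disjoint_left.1 b1) hw1 hw2
  -- the two embeddings
  have hz1 : z ∉ T1 := by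
    intro h
    have h3 : A z z := hT1 z h
    exact hA.1 z z h3 h3
  have hz0 : z ∉ T0 := by
    intro h
    have h3 : A z z := hT0 z h
    exact hA.1 z z h3 h3
  have hT10 : ∀ x, x ∈ T1 → x ∈ T0 → False := by
    intro x h1 h0
    have h3 : A z x := hT1 x h1
    have h4 : A x z := hT0 x h0
    exact hA.1 z x h3 h4
  obtain ⟨f₁, hf₁⟩ := h1 W V A hA r par dep hr sgn (P true) T1 hc1
  obtain ⟨f₂, hf₂⟩ := h1 W V A hA r par dep hr sgn (P false) T0 hc0
  obtain ⟨a1, a2, a3⟩ := hf₁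
  obtain ⟨e1, e2, e3⟩ := hf₂
  set f : W → V := fun w => if w = c then z else if w ∈ P true then f₁ w else f₂ w with hf
  have hfc : f c = z := by rw [hf]; simp
  have hf1 : ∀ w, w ∈ P true → f w = f₁ w := by
    intro w hw
    rw [hf]
    simp only
    rw [if_neg (hcP _ w hw), if_pos hw]
  have hf0 : ∀ w, w ∈ P false → f w = f₂ w := by
    intro w hw
    rw [hf]
    simp only
    rw [if_neg (hcP _ w hw), if_neg (fun h => hdisj w h hw)]
  have hfT1 : ∀ w, w ∈ P true → f w ∈ T1 := fun w hw => by rw [hf1 w hw]; exact a1 w hw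
  have hfT0 : ∀ w, w ∈ P false → f w ∈ T0 := fun w hw => by
    rw [hf0 w hw]; exact e1 w hw
  have hne10 : ∀ u, u ∈ P true → ∀ v, v ∈ P false → f u ≠ f v := by
    intro u hu v hv h3
    exact hT10 (f u) (hfT1 u hu) (h3 ▸ hfT0 v hv)
  have hcases : ∀ w, w ∈ S → w = c ∨ w ∈ P true ∨ w ∈ P false := by
    intro w hw
    by_cases hwc : w = c
    · exact Or.inl hwc
    · exact Or.inr (b2 hSc w hw hwc)
  have hzf : ∀ w, (w ∈ P true ∨ w ∈ P false) → f w ≠ z := by
    rintro w (hw | hw) h3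
    · exact hz1 (h3 ▸ hfT1 w hw)
    · exact hz0 (h3 ▸ hfT0 w hw)
  -- arcs inside one part
  have harc : ∀ d w, w ∈ P d → w ≠ r → par w = c ∧ sgn w = d ∨ par w ∈ P d := by
    intro d w hw hwr
    obtain ⟨h3, c', h4, h5, h6, h7⟩ := (hmemP d w).1 hw
    by_cases hwc : w = c'
    · left
      rw [hwc]
      exact ⟨h5, h6⟩
    · right
      exact (hmemP d _).2 ⟨hpar w h3 (hcP d w hw), c', h4, h5, h6, d2 c' w h7 hwc⟩
  refine ⟨f, ⟨?_, ?_, ?_⟩, hfc, hfT1, hfT0⟩
  · intro w hw
    rw [Finset.mem_insert, Finset.mem_union]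
    rcases hcases w hw with h3 | h3 | h3
    · left; rw [h3, hfc]
    · right; left; exact hfT1 w h3
    · right; right; exact hfT0 w h3
  · intro u hu v hv huv
    rcases hcases u hu with h3 | h3 | h3 <;> rcases hcases v hv with h4 | h4 | h4
    · rw [h3, h4]
    · rw [h3, hfc] at huv; exact (hzf v (Or.inl h4) huv.symm).elim
    · rw [h3, hfc] at huv; exact (hzf v (Or.inr h4) huv.symm).elim
    · rw [h4, hfc] at huv; exact (hzf u (Or.inl h3) huv).elim
    · rw [hf1 u h3, hf1 v h4] at huv; exact a2 u h3 v h4 huv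
    · exact (hne10 u h3 v h4 huv).elim
    · rw [h4, hfc] at huv; exact (hzf u (Or.inr h3) huv).elim
    · exact (hne10 v h4 u h3 huv.symm).elim
    · rw [hf0 u h3, hf0 v h4] at huv; exact e2 u h3 v h4 huv
  · intro w hw hwr hpw
    rcases hcases w hw with h3 | h3 | h3
    · exfalso
      subst h3
      have h4 := hr.2.2 w hwr
      have h5 := hSc hpw
      have h6 := d4 w (par w) h5 (by
        intro h7
        rw [h7] at h4
        omega)
      omega
    · rcases harc _ w h3 hwr with ⟨h4, h5⟩ | h4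
      · rw [h4, hfc, h5]
        exact hT1 _ (hfT1 w h3)
      · rw [hf1 w h3, hf1 _ h4]
        exact a3 w h3 hwr h4
    · rcases harc _ w h3 hwr with ⟨h4, h5⟩ | h4
      · rw [h4, hfc, h5]
        exact hT0 _ (hfT0 w h3)
      · rw [hf0 w h3, hf0 _ h4]
        exact e3 w h3 hwr h4

end Pool.Agent.Helper18.SU
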