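import Pool.Agent.Helper18.SU.Main1
import Pool.Agent.Helper18.SU.HVY3
import Pool.Agent.Helper18.SU.OPA3
import Pool.Agent.Helper18.SU.E2H3
import Pool.Agent.Helper18.SU.CIB3
import Pool.Agent.Helper18.SU.STR3
import Pool.Agent.Helper18.SU.CANGRE
import Pool.Agent.Helper37.SU.SUBT
import Pool.Agent.Helper19.SU.TG
import Pool.Agent.Helper55.SU.DSC
import Pool.Agent.Helper27.SU.GLUE
import Pool.Agent.Helper55.SU.DEG
import Pool.Agent.Helper5.SU.REV
import Pool.Agent.Helper82.SU.CI1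
import Pool.Agent.Helper49.SU.CI3
import Pool.Agent.Helper55.SU.ASZ
import Pool.Agent.Helper77.SU.KSPL
import Pool.Agent.Helper27.SU.WT
import Pool.Agent.Helper63.SU.EXK
import Pool.Agent.Helper5.SU.STAR
import Pool.Agent.Helper90.SU.LMO
import Pool.Agent.Helper13.SU.ARB
import Pool.Agent.Helper55.SU.EX2
import Pool.Agent.Helper85.SU.E1B
import Pool.Agent.Helper2.SU.COUNT
import Pool.Agent.Helper85.SU.E2N
import Pool.Agent.Helper89.SU.E2P
import Pool.Agent.Helper81.SU.REP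
import Pool.Agent.Helper58.SU.KEX
import Pool.Agent.Helper54.SU.DEEP
import Pool.Agent.Helper6.SU.TBG
import Pool.Agent.Helper49.SU.BAL
import Pool.Agent.Helper93.SU.CAS1
import Pool.Agent.Helper89.SU.IND3
import Pool.Agent.Helper89.SU.IBG
import Pool.Agent.Helper24.SU.SPL3
import Pool.Agent.Helper27.SU.CIA3
import Pool.Agent.Helper6.SU.GZ3
import Pool.Agent.Helper55.SU.CII3
import Pool.Agent.Helper49.SU.OPV3
import Pool.Agent.Helper46.SU.E13
import Pool.Agent.Helper46.SU.DSJ3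
import Pool.Agent.Helper4.SU.NUM3

/-!
# Closing the hypotheses of part 2
-/

set_option autoImplicit false

namespace Pool.Agent.Helper18.SU

theorem subt : SUBT_stmt := Helper37.SU.SUBT tra Helper11.SU.NUM

theorem can : CAN_stmt := CAN subt

theorem dsc' : DSC_stmt := Helper55.SU.DSC

theorem deg' : DEG_stmt := Helper55.SU.DEG

theorem siz' : SIZ_stmt := Helper55.SU.SIZ deg'

theorem glue' : GLUE_stmt := Helper27.SU.GLUE dsc'

theorem glu' : GLU_stmt := Helper27.SU.GLU dsc' glue'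

theorem ci1 : CI1_stmt := Helper82.SU.CI1 subt can GRE dsc' glu'

theorem tg' : TG_stmt := Helper19.SU.TG GRE

theorem ci3 : CI3_stmt := Helper49.SU.CI3 subt can tg' dsc' deg' glu'

theorem cas1 : CAS1_stmt :=
  Helper93.SU.CAS1 ci1 ci3 Helper89.SU.IBG Helper49.SU.DST dsc' siz'

theorem ind3 : IND3_stmt := Helper89.SU.IND3 can GRE dsc' deg'

theorem asz : ASZ_stmt := Helper55.SU.ASZ siz' dsc' deg'

theorem typ' : TYP_stmt := Helper55.SU.TYP deg'

theorem kspl : KSPL_stmt := Helper77.SU.KSPL subt (Helper77.SU.FLX subt) dsc' deg'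

theorem spl3 : SPL3_stmt := Helper24.SU.SPL3 can tg' dsc' deg' glu' ind3 kspl Helper27.SU.WGT

theorem bal : BAL_stmt := Helper49.SU.BAL deg'

theorem cia3 : CIA3_stmt :=
  Helper27.SU.CIA3 asz typ' bal Helper6.SU.TBG Helper49.SU.DST spl3 dsc' siz'

theorem gz3 : GZ3_stmt := Helper6.SU.GZ3 deg'

theorem topk : TOPK_stmt := Helper63.SU.TOPK dsc'

theorem star : STAR_stmt := Helper5.SU.STAR subt dsc'

theorem exk : EXK_stmt := Helper63.SU.EXK star dsc' topk

theorem cib3 : CIB3_stmt :=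
  CIB3 subt can GRE dsc' deg' glu' asz typ' ind3 gz3 topk exk Helper27.SU.WGT

theorem cii3 : CII3_stmt :=
  Helper55.SU.CII3 cia3 cib3 (Helper27.SU.WT dsc') Helper27.SU.WGT dsc'

theorem brg : BRG_stmt := Helper81.SU.BRG Helper40.SU.ROOT

theorem kex : KEX_stmt := Helper58.SU.KEX dsc'

theorem deep : DEEP_stmt := Helper54.SU.DEEP fpa Helper40.SU.ROOT

theorem hvy3 : HVY3_stmt :=
  HVY3 cas1 cii3 Helper5.SU.REV Helper81.SU.REP dsc' kex deep brg Helper4.SU.NUM3

theorem brn' : BRN_stmt := BRN dsc'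

theorem str3 : STR3_stmt := STR3 subt dsc' brn'

theorem opv3 : OPV3_stmt := Helper49.SU.OPV3 str3 brn' Helper55.SU.LF dsc' deg'

theorem ex2 : EX2_stmt := Helper55.SU.EX2 can GRE glue' dsc'

theorem opa3 : OPA3_stmt := OPA3 ex2 Helper55.SU.LF dsc' deg'

theorem e1b : E1B_stmt := Helper85.SU.E1B ex2 Helper55.SU.LF dsc' deg'

theorem arb : ARB_stmt := Helper13.SU.ARB Helper90.SU.LMO deg'

theorem count' : COUNT_stmt := Helper2.SU.COUNT dsc'

theorem e13 : E13_stmt :=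
  Helper46.SU.E13 opv3 opa3 e1b arb count' gz3 siz' deg' brn'

theorem e2n : E2N_stmt := Helper85.SU.E2N subt ex2 Helper55.SU.LF dsc' deg'

theorem e2m3 : E2M3_stmt := E2M3 e2n siz' deg'

theorem e2h3 : E2H3_stmt := E2H3 opv3 opa3 gz3 siz' deg' dsc'

theorem e2p : E2P_stmt := Helper89.SU.E2P ptf ex2 Helper55.SU.LF dsc' deg'

theorem dsj3 : DSJ3_stmt := Helper46.SU.DSJ3 dsc'

theorem fin3_of (h : E23_stmt) : FIN3_stmt :=
  FIN3 hvy3 e13 h brg Helper81.SU.REP Helper5.SU.REV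

end Pool.Agent.Helper18.SU
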