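import Pool.Agent.Helper18.SU.Main2
import Pool.Agent.Helper18.SU.E23

/-!
Oriented trees in tournaments, part 2: the final theorem.
-/

set_option autoImplicit false

namespace Pool.Agent.Helper18.SU

theorem e23 : E23_stmt :=
  E23 e2h3 e2m3 e2p count' brg Helper81.SU.REP Helper5.SU.REV siz' deg' dsj3 brn'

theorem fin3 : FIN3_stmt := fin3_of e23

end Pool.Agent.Helper18.SU
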